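import Pool.Agent.W_MP_654ec6.L.Kap

/-!
# Task C1: more properties of the functions `kap` and `mm`

The basic properties are in `L/Kap` (`kapD = kap'`, `kapE = kap - x kap'`).
-/

open scoped ContDiff Topology
open Filter Real

namespace Pool.Agent.W_MP_654ec6

theorem kap_ge {x : ℝ} (h : 0 ≤ x) : min x 1 / 2 ≤ kap x := by
  rcases le_total x (1 / 2) with h1 | h1
  · rw [kap_of_le h1]
    have := min_le_left x 1
    linarith
  · have h2 : kap (1 / 2) ≤ kap x := kap_monotone h1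
    rw [kap_of_le le_rfl] at h2
    have := min_le_right x 1
    linarith

theorem kapE_le' {x : ℝ} (h : 0 ≤ x) : kapE x ≤ 3 / 2 * (1 - kapD x) := by
  rcases le_total x (3 / 2) with h1 | h1
  · have hd : ∀ y : ℝ, HasDerivAt (fun y => kapE y - 3 / 2 * (1 - kapD y))
        ((3 / 2 - y) * deriv kapD y) y := by
      intro y
      have h2 := (hasDerivAt_kapE y).sub
        (((hasDerivAt_const y (1 : ℝ)).sub (hasDerivAt_kapD y)).const_mul (3 / 2))
      refine h2.congr_deriv ?_
      ring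
    have hanti : AntitoneOn (fun y => kapE y - 3 / 2 * (1 - kapD y)) (Set.Icc 0 (3 / 2)) := by
      apply antitoneOn_of_deriv_nonpos (convex_Icc _ _)
      · exact fun y _ => (hd y).continuousAt.continuousWithinAt
      · exact fun y _ => (hd y).differentiableAt.differentiableWithinAt
      · intro y hy
        rw [interior_Icc] at hy
        rw [(hd y).deriv]
        exact mul_nonpos_of_nonneg_of_nonpos (by linarith [hy.2]) (deriv_kapD_nonpos y)
    have h3 := hanti (Set.left_mem_Icc.2 (by norm_num)) ⟨h, h1⟩ h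
    have h4 : kapE 0 = 0 := by unfold kapE; rw [kap_zero]; ring
    have h5 : kapD 0 = 1 := kapD_of_le (by norm_num)
    simp only [h4, h5] at h3
    linarith
  · have h2 : kapD x = 0 := kapD_of_ge h1
    unfold kapE
    rw [h2, kap_of_ge h1]
    norm_num

theorem mm_zero_left (v : ℝ) : mm 0 v = 0 := by
  unfold mm
  rw [zero_div, kap_zero, mul_zero]

theorem mm_zero_right (u : ℝ) : mm u 0 = 0 := by
  unfold mm
  rw [zero_mul]

theorem mm_le_left' {u v : ℝ} (hu : 0 ≤ u) (hv : 0 ≤ v) : mm u v ≤ u := by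
  rcases hv.eq_or_lt with h | h
  · rw [← h, mm_zero_right]
    exact hu
  · exact mm_le_left h

theorem mm_eq_left {u v : ℝ} (hv : 0 < v) (h : u ≤ v / 2) : mm u v = u := mm_of_le hv h

theorem mm_eq_right {u v : ℝ} (hv : 0 < v) (h : 3 / 2 * v ≤ u) : mm u v = v := mm_of_ge hv h

theorem mm_mono_right {u v v' : ℝ} (hu : 0 ≤ u) (hv0 : 0 < v) (hv : v ≤ v') :
    mm u v ≤ mm u v' := by
  have hd : ∀ s : ℝ, 0 < s → HasDerivAt (fun s => mm u s) (kapE (u / s)) s := by
    intro s hs
    have h := hasDerivAt_mm (hasDerivAt_const s u) (hasDerivAt_id s) (t := s) hs.ne'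
    refine h.congr_deriv ?_
    simp
  have hmono : MonotoneOn (fun s => mm u s) (Set.Icc v v') := by
    apply monotoneOn_of_deriv_nonneg (convex_Icc _ _)
    · exact fun y hy => (hd y (lt_of_lt_of_le hv0 hy.1)).continuousAt.continuousWithinAt
    · intro y hy
      rw [interior_Icc] at hy
      exact (hd y (hv0.trans hy.1)).differentiableAt.differentiableWithinAt
    · intro y hy
      rw [interior_Icc] at hy
      rw [(hd y (hv0.trans hy.1)).deriv]
      exact kapE_nonneg (div_nonneg hu (hv0.trans hy.1).le)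
  exact hmono (Set.left_mem_Icc.2 hv) (Set.right_mem_Icc.2 hv) hv

theorem mm_mono {u u' v v' : ℝ} (hu0 : 0 ≤ u) (hu : u ≤ u') (hv0 : 0 < v) (hv : v ≤ v') :
    mm u v ≤ mm u' v' :=
  (mm_mono_left hv0 hu).trans (mm_mono_right (hu0.trans hu) hv0 hv)

theorem mm_le_ratio {u v v' : ℝ} (hu : 0 ≤ u) (hv : 0 < v) (h : v ≤ v') :
    mm u v' ≤ v' / v * mm u v := by
  have hv' : 0 < v' := hv.trans_le h
  unfold mm
  have h1 : kap (u / v') ≤ kap (u / v) :=
    kap_monotone (div_le_div_of_nonneg_left hu hv h)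
  calc v' * kap (u / v') ≤ v' * kap (u / v) := mul_le_mul_of_nonneg_left h1 hv'.le
    _ = v' / v * (v * kap (u / v)) := by field_simp

theorem mm_ge {u v : ℝ} (hu : 0 ≤ u) (hv : 0 < v) : min u v / 2 ≤ mm u v := by
  unfold mm
  have h1 := kap_ge (div_nonneg hu hv.le)
  have h2 : min u v = v * min (u / v) 1 := by
    rw [mul_min_of_nonneg _ _ hv.le, mul_one]
    congr 1
    field_simp
  rw [h2]
  calc v * min (u / v) 1 / 2 = v * (min (u / v) 1 / 2) := by ring
    _ ≤ v * kap (u / v) := mul_le_mul_of_nonneg_left h1 hv.le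

theorem contDiffAt_mm2 (u : ℝ) {v : ℝ} (hv : v ≠ 0) :
    ContDiffAt ℝ ∞ (fun q : ℝ × ℝ => mm q.1 q.2) (u, v) :=
  contDiffAt_mm le_rfl contDiffAt_fst contDiffAt_snd hv

theorem kap_deriv_diff {u : ℝ → ℝ} {t : ℝ} (hu : ContDiffAt ℝ 2 u t) :
    HasDerivAt (deriv u) (deriv (deriv u) t) t := by
  have h1 : ContDiffAt ℝ 1 (fderiv ℝ u) t := hu.fderiv_right (by norm_num)
  have h2 : ContDiffAt ℝ 1 (fun s => fderiv ℝ u s 1) t := h1.clm_apply contDiffAt_const
  have h3 : deriv u = fun s => fderiv ℝ u s 1 := by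
    funext s
    exact (fderiv_apply_one_eq_deriv).symm
  rw [← h3] at h2
  exact (h2.differentiableAt (by simp)).hasDerivAt

theorem deriv2_mm_nonpos {u v : ℝ → ℝ} {t : ℝ} (hu : ContDiffAt ℝ 2 u t)
    (hv : ContDiffAt ℝ 2 v t) (h : 0 < v t) (h0 : 0 ≤ u t) (hu2 : deriv (deriv u) t ≤ 0)
    (hv2 : deriv (deriv v) t ≤ 0) : deriv (deriv (fun s => mm (u s) (v s))) t ≤ 0 := by
  have hdu : ∀ᶠ s in 𝓝 t, HasDerivAt u (deriv u s) s := by
    filter_upwards [hu.eventually (by simp)] with s hs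
    exact (hs.differentiableAt (by simp)).hasDerivAt
  have hdv : ∀ᶠ s in 𝓝 t, HasDerivAt v (deriv v s) s := by
    filter_upwards [hv.eventually (by simp)] with s hs
    exact (hs.differentiableAt (by simp)).hasDerivAt
  have hv0 : ∀ᶠ s in 𝓝 t, v s ≠ 0 := by
    filter_upwards [hv.continuousAt.eventually (lt_mem_nhds h)] with s hs
    exact hs.ne'
  have hev : deriv (fun s => mm (u s) (v s)) =ᶠ[𝓝 t]
      fun s => kapD (u s / v s) * deriv u s + kapE (u s / v s) * deriv v s := by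
    filter_upwards [hdu, hdv, hv0] with s h1 h2 h3
    exact (hasDerivAt_mm h1 h2 h3).deriv
  have h5 := hasDerivAt_mm' hdu.self_of_nhds hdv.self_of_nhds (kap_deriv_diff hu)
    (kap_deriv_diff hv) h.ne'
  rw [hev.deriv_eq, h5.deriv]
  have hx : 0 ≤ u t / v t := div_nonneg h0 h.le
  have e1 : kapD (u t / v t) * deriv (deriv u) t ≤ 0 :=
    mul_nonpos_of_nonneg_of_nonpos (kapD_nonneg _) hu2
  have e2 : kapE (u t / v t) * deriv (deriv v) t ≤ 0 :=
    mul_nonpos_of_nonneg_of_nonpos (kapE_nonneg hx) hv2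
  have e3 : deriv kapD (u t / v t) / v t * (deriv u t - u t / v t * deriv v t) ^ 2 ≤ 0 :=
    mul_nonpos_of_nonpos_of_nonneg (div_nonpos_of_nonpos_of_nonneg (deriv_kapD_nonpos _) h.le)
      (sq_nonneg _)
  linarith

end Pool.Agent.W_MP_654ec6
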