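import Pool.Agent.W_MP_654ec6.C.GFun
import Pool.Agent.W_MP_654ec6.C.Kap

/-!
# Task C7: the fibre radius `bb`, values and bounds

`bb = mm ((Y - GG) / om) (R (Y - FF))`. Note `Y - FF ≥ Y - GG ≥ 0` and `1 ≤ om ≤ 101/100`.
`bb_eq_RD`: `Y - GG = D - sag ≥ D / 5 ≥ (3/2) om R D`, `D = Y - FF`, use `mm_eq_right`.
`bb_eq_dist`: `mm_eq_left` (`D ≥ sag > 0` on an open edge, `FF_lt_GG`).
`bb_ge`: `mm_ge` (if `Y = FF` then `Y = GG = FF` and everything is `0`).
-/

open scoped ContDiff Topology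
open Filter Real

namespace Pool.Agent.W_MP_654ec6

section

variable {R : ℝ} {N : ℕ∞}

theorem bb_neg (R : ℝ) (N : ℕ∞) (X Y : ℝ) : bb R N (-X) Y = bb R N X Y := by
  unfold bb
  rw [GG_neg, om_neg, FF_neg]

theorem bb_eq_RD (hR : 0 < R) (hR' : R ≤ 1 / 8) (hN : 1 ≤ N) {X Y : ℝ} (h : GG N X < Y)
    (h' : 5 / 4 * (GG N X - FF N X) ≤ Y - FF N X) : bb R N X Y = R * (Y - FF N X) := by
  unfold bb
  have h1 := FF_le_GG N hN X
  have h2 := one_le_om N X
  have h3 := om_le N X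
  have hD : 0 < Y - FF N X := by linarith
  apply mm_eq_right (mul_pos hR hD)
  rw [le_div_iff₀ (by linarith)]
  have h4 : R * (Y - FF N X) ≤ 1 / 8 * (Y - FF N X) :=
    mul_le_mul_of_nonneg_right hR' hD.le
  have h5 : 0 ≤ R * (Y - FF N X) := (mul_pos hR hD).le
  nlinarith [mul_le_mul h4 h3 (by linarith) (by linarith)]

theorem bb_eq_dist (hR : 0 < R) (hN : 1 ≤ N) {j : ℕ} {X Y : ℝ} (hX : opEdge N j |X|)
    (h : GG N X ≤ Y) (h' : Y - GG N X ≤ R / 2 * (Y - FF N X)) :
    bb R N X Y = (Y - GG N X) / oj N j := by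
  unfold bb
  have h1 := FF_lt_GG hN hX
  rw [FF_abs, GG_abs] at h1
  have h2 := one_le_om N X
  rw [om_eq hX] at h2 ⊢
  apply mm_eq_left (mul_pos hR (by linarith))
  have h3 : (Y - GG N X) / oj N j ≤ Y - GG N X := div_le_self (by linarith) h2
  linarith

theorem bb_nonneg (hR : 0 < R) (hN : 1 ≤ N) {X Y : ℝ} (h : GG N X ≤ Y) : 0 ≤ bb R N X Y := by
  have h1 := FF_le_GG N hN X
  have h2 := one_le_om N X
  exact mm_nonneg (div_nonneg (by linarith) (by linarith)) (mul_nonneg hR.le (by linarith))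

theorem bb_pos (hR : 0 < R) (hN : 1 ≤ N) {X Y : ℝ} (h : GG N X < Y) : 0 < bb R N X Y := by
  have h1 := FF_le_GG N hN X
  have h2 := one_le_om N X
  exact mm_pos (div_pos (by linarith) (by linarith)) (mul_pos hR (by linarith))

theorem bb_bdry (R : ℝ) (N : ℕ∞) (X : ℝ) : bb R N X (GG N X) = 0 := by
  unfold bb
  rw [sub_self, zero_div, mm_zero_left]

theorem bb_le_RD (hR : 0 < R) (hN : 1 ≤ N) {X Y : ℝ} (h : GG N X ≤ Y) :
    bb R N X Y ≤ R * (Y - FF N X) := by
  have h1 := FF_le_GG N hN X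
  exact mm_le_right (mul_nonneg hR.le (by linarith))

theorem bb_le_dist (hR : 0 < R) (hN : 1 ≤ N) {X Y : ℝ} (h : GG N X ≤ Y) :
    bb R N X Y ≤ Y - GG N X := by
  have h1 := FF_le_GG N hN X
  have h2 := one_le_om N X
  have h3 : bb R N X Y ≤ (Y - GG N X) / om N X :=
    mm_le_left' (div_nonneg (by linarith) (by linarith)) (mul_nonneg hR.le (by linarith))
  exact h3.trans (div_le_self (by linarith) h2)

theorem bb_ge (hR : 0 < R) (hN : 1 ≤ N) {X Y : ℝ} (h : GG N X ≤ Y) :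
    min (100 / 101 * (Y - GG N X)) (R * (Y - FF N X)) / 2 ≤ bb R N X Y := by
  have h1 := FF_le_GG N hN X
  have h2 := one_le_om N X
  have h3 := om_le N X
  rcases eq_or_lt_of_le (show FF N X ≤ Y by linarith) with h4 | h4
  · have h5 : Y = GG N X := le_antisymm (by linarith) h
    have h6 := bb_nonneg hR hN h
    have h7 : min (100 / 101 * (Y - GG N X)) (R * (Y - FF N X)) ≤ 0 := by
      apply (min_le_left _ _).trans
      rw [h5]
      simp
    linarith
  · have hu : 100 / 101 * (Y - GG N X) ≤ (Y - GG N X) / om N X := by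
      rw [le_div_iff₀ (by linarith)]
      nlinarith
    have h5 := mm_ge (u := (Y - GG N X) / om N X) (v := R * (Y - FF N X))
      (div_nonneg (by linarith) (by linarith)) (mul_pos hR (by linarith))
    have h6 : min (100 / 101 * (Y - GG N X)) (R * (Y - FF N X)) ≤
        min ((Y - GG N X) / om N X) (R * (Y - FF N X)) := min_le_min_right _ hu
    calc min (100 / 101 * (Y - GG N X)) (R * (Y - FF N X)) / 2
        ≤ min ((Y - GG N X) / om N X) (R * (Y - FF N X)) / 2 := by linarith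
      _ ≤ bb R N X Y := h5

end

end Pool.Agent.W_MP_654ec6
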