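import Pool.Agent.W_MP_654ec6.C.BFun

/-!
# Task C8: local form, smoothness, gradient and Hessian of `bb`

`bb_local`: by `edge_or_vertex`: on an open edge (with `|X|`) the edge is the same near `X`
(`a = ± aa N j`; on the middle edge `aa = 0`), `om_eq`, `GG_eq`; at a vertex or at `X = 0`,
`N = ⊤`, `GG = FF` and `5/4 (GG - FF) ≤ Y - FF` near the point, use `bb_eq_RD`.
`bb_contDiffAt`: `contDiffAt_mm`, `FF_contDiff`. `bb_grad`: in the first case the derivative in the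
direction `(v, w)` is `kap' (w - a v)/√(1+a²) + (kap - x kap') R (w - phi v)`, of absolute value
at most `(kap' + (kap - x kap') R √(1 + phi²)) √(v² + w²) ≤ √(v² + w²)` by `kap_sub_le`,
`R ≤ 1/8`, `|phi| ≤ 1/20`. `bb_hess`: `deriv2_mm_nonpos`, `deriv2_FF_nonneg`.
`bb_continuousOn`: at interior points `bb_contDiffAt`; at boundary points `bb = 0` and
`0 ≤ bb ≤ Y - GG`, continuous.
-/

open scoped ContDiff Topology
open Filter Real

namespace Pool.Agent.W_MP_654ec6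

section

variable {R : ℝ} {N : ℕ∞}

/-- The condition of `opEdge` is open. -/
theorem BLoc_opEdge_nhds {N : ℕ∞} {j : ℕ} {X : ℝ} (h : opEdge N j |X|) :
    ∀ᶠ X' in 𝓝 X, opEdge N j |X'| := by
  obtain ⟨h1, h2, h3, h4⟩ := h
  have hc : Tendsto (fun X' : ℝ => |X'|) (𝓝 X) (𝓝 |X|) := continuous_abs.continuousAt
  have e2 : ∀ᶠ X' in 𝓝 X, (j : ℕ∞) < N → zz (j + 1) < |X'| := by
    by_cases hj : (j : ℕ∞) < N
    · filter_upwards [hc.eventually (lt_mem_nhds (h2 hj))] with X' hX' _ using hX'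
    · exact Eventually.of_forall fun X' hX' => absurd hX' hj
  have e3 : ∀ᶠ X' in 𝓝 X, ¬ (j : ℕ∞) < N → -zz j < |X'| := by
    by_cases hj : (j : ℕ∞) < N
    · exact Eventually.of_forall fun X' hX' => absurd hj hX'
    · filter_upwards [hc.eventually (lt_mem_nhds (h3 hj))] with X' hX' _ using hX'
  have e4 : ∀ᶠ X' in 𝓝 X, j = 0 ∨ |X'| < zz j := by
    rcases h4 with h4 | h4
    · exact Eventually.of_forall fun X' => Or.inl h4
    · filter_upwards [hc.eventually (gt_mem_nhds h4)] with X' hX' using Or.inr hX'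
  filter_upwards [e2, e3, e4] with X' a b c using ⟨h1, a, b, c⟩

/-- On an open edge `aa |X|` is linear near `X`. -/
theorem BLoc_aa_abs {N : ℕ∞} {j : ℕ} {X : ℝ} (h : opEdge N j |X|) :
    ∃ a : ℝ, |a| ≤ 1 / 10 ∧ a ^ 2 = aa N j ^ 2 ∧ ∀ᶠ X' in 𝓝 X, aa N j * |X'| = a * X' := by
  have ha : |aa N j| ≤ 1 / 10 := by
    rw [abs_of_nonneg (aa_nonneg N j)]
    exact aa_le N j
  by_cases hj : (j : ℕ∞) < N
  · have h1 : 0 < |X| := (zz_pos (j + 1)).trans (h.2.1 hj)
    have h2 : X ≠ 0 := abs_pos.mp h1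
    rcases lt_or_gt_of_ne h2 with h3 | h3
    · refine ⟨-aa N j, by rwa [abs_neg], by ring, ?_⟩
      filter_upwards [gt_mem_nhds h3] with X' hX'
      rw [abs_of_neg hX']
      ring
    · refine ⟨aa N j, ha, rfl, ?_⟩
      filter_upwards [lt_mem_nhds h3] with X' hX'
      rw [abs_of_pos hX']
  · refine ⟨aa N j, ha, rfl, ?_⟩
    rw [aa_of_not_lt hj]
    exact Eventually.of_forall fun X' => by simp

theorem BLoc_eq_RD_nhds (hR : 0 < R) (hR' : R ≤ 1 / 8) (hN : 1 ≤ N) {X Y : ℝ} (h : GG N X < Y)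
    (h' : GG N X = FF N X) :
    ∀ᶠ q : ℝ × ℝ in 𝓝 (X, Y), bb R N q.1 q.2 = R * (q.2 - FF N q.1) := by
  have hG : Continuous fun q : ℝ × ℝ => GG N q.1 := (GG_continuous N hN).comp continuous_fst
  have hF : Continuous fun q : ℝ × ℝ => FF N q.1 :=
    (FF_contDiff N).continuous.comp continuous_fst
  have e1 : ∀ᶠ q : ℝ × ℝ in 𝓝 (X, Y), GG N q.1 < q.2 :=
    (hG.continuousAt (x := (X, Y))).eventually_lt continuous_snd.continuousAt h
  have e2 : ∀ᶠ q : ℝ × ℝ in 𝓝 (X, Y), 5 / 4 * (GG N q.1 - FF N q.1) < q.2 - FF N q.1 := by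
    have hc1 : Continuous fun q : ℝ × ℝ => 5 / 4 * (GG N q.1 - FF N q.1) :=
      continuous_const.mul (hG.sub hF)
    have hc2 : Continuous fun q : ℝ × ℝ => q.2 - FF N q.1 := continuous_snd.sub hF
    apply (hc1.continuousAt (x := (X, Y))).eventually_lt hc2.continuousAt
    change 5 / 4 * (GG N X - FF N X) < Y - FF N X
    rw [h'] at h ⊢
    linarith
  filter_upwards [e1, e2] with q h1 h2 using bb_eq_RD hR hR' hN h1 h2.le

theorem bb_local (hR : 0 < R) (hR' : R ≤ 1 / 8) (hN : 1 ≤ N) {X Y : ℝ} (h : GG N X < Y) :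
    (∃ a β : ℝ, |a| ≤ 1 / 10 ∧ a * X + β = GG N X ∧ ∀ᶠ q : ℝ × ℝ in 𝓝 (X, Y),
      bb R N q.1 q.2 = mm ((q.2 - (a * q.1 + β)) / Real.sqrt (1 + a ^ 2))
        (R * (q.2 - FF N q.1))) ∨
    ∀ᶠ q : ℝ × ℝ in 𝓝 (X, Y), bb R N q.1 q.2 = R * (q.2 - FF N q.1) := by
  rcases edge_or_vertex N hN X with ⟨j, hj⟩ | ⟨k, hk1, hkN, hk⟩ | ⟨h0, hT⟩
  · left
    obtain ⟨a, ha1, ha2, ha3⟩ := BLoc_aa_abs hj
    have e : ∀ᶠ X' in 𝓝 X, GG N X' = a * X' + (FF N (zz (vert N j)) - aa N j * zz (vert N j)) ∧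
        om N X' = Real.sqrt (1 + a ^ 2) := by
      filter_upwards [BLoc_opEdge_nhds hj, ha3] with X' h1 h2
      have h4 := inEdge_of_opEdge h1
      rw [abs_abs] at h4
      constructor
      · rw [GG_eq h4]
        unfold line
        linear_combination h2
      · rw [om_eq h1, ha2]
        rfl
    refine ⟨a, FF N (zz (vert N j)) - aa N j * zz (vert N j), ha1, e.self_of_nhds.1.symm, ?_⟩
    have e' : ∀ᶠ q : ℝ × ℝ in 𝓝 (X, Y),
        GG N q.1 = a * q.1 + (FF N (zz (vert N j)) - aa N j * zz (vert N j)) ∧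
        om N q.1 = Real.sqrt (1 + a ^ 2) :=
      (continuous_fst.continuousAt (x := (X, Y))).eventually e
    filter_upwards [e'] with q hq
    unfold bb
    rw [hq.1, hq.2]
  · right
    apply BLoc_eq_RD_nhds hR hR' hN h
    rw [← GG_abs, ← FF_abs, hk]
    exact GG_vertex hk1 hkN
  · right
    apply BLoc_eq_RD_nhds hR hR' hN h
    rw [h0, hT]
    exact GG_top_zero

theorem BLoc_D_contDiff (R : ℝ) (N : ℕ∞) :
    ContDiff ℝ ∞ (fun q : ℝ × ℝ => R * (q.2 - FF N q.1)) :=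
  contDiff_const.mul (contDiff_snd.sub ((FF_contDiff N).comp contDiff_fst))

theorem BLoc_u_contDiff (a β : ℝ) :
    ContDiff ℝ ∞ (fun q : ℝ × ℝ => (q.2 - (a * q.1 + β)) / Real.sqrt (1 + a ^ 2)) :=
  (contDiff_snd.sub ((contDiff_const.mul contDiff_fst).add contDiff_const)).div_const _

theorem bb_contDiffAt (hR : 0 < R) (hR' : R ≤ 1 / 8) (hN : 1 ≤ N) {X Y : ℝ} (h : GG N X < Y) :
    ContDiffAt ℝ ∞ (fun q : ℝ × ℝ => bb R N q.1 q.2) (X, Y) := by
  have hF := FF_le_GG N hN X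
  rcases bb_local hR hR' hN h with ⟨a, β, ha, hβ, hq⟩ | hq
  · have h1 : R * (Y - FF N X) ≠ 0 := (mul_pos hR (by linarith)).ne'
    have h2 : ContDiffAt ℝ ∞ (fun q : ℝ × ℝ =>
        ((q.2 - (a * q.1 + β)) / Real.sqrt (1 + a ^ 2), R * (q.2 - FF N q.1))) (X, Y) :=
      ((BLoc_u_contDiff a β).prodMk (BLoc_D_contDiff R N)).contDiffAt
    have h4 := contDiffAt_mm2 ((Y - (a * X + β)) / Real.sqrt (1 + a ^ 2)) h1
    have h3 : ContDiffAt ℝ ∞ ((fun q : ℝ × ℝ => mm q.1 q.2) ∘ (fun q : ℝ × ℝ =>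
        ((q.2 - (a * q.1 + β)) / Real.sqrt (1 + a ^ 2), R * (q.2 - FF N q.1)))) (X, Y) :=
      ContDiffAt.comp (X, Y) h4 h2
    exact h3.congr_of_eventuallyEq hq
  · exact ((BLoc_D_contDiff R N).contDiffAt).congr_of_eventuallyEq hq

theorem BLoc_line_hasDerivAt (X Y v w : ℝ) :
    HasDerivAt (fun s : ℝ => (X + s * v, Y + s * w)) (v, w) 0 := by
  have h1 : HasDerivAt (fun s : ℝ => X + s * v) v 0 := by
    simpa using ((hasDerivAt_id (0 : ℝ)).mul_const v).const_add X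
  have h2 : HasDerivAt (fun s : ℝ => Y + s * w) w 0 := by
    simpa using ((hasDerivAt_id (0 : ℝ)).mul_const w).const_add Y
  exact h1.prodMk h2

theorem BLoc_line_tendsto (X Y v w : ℝ) :
    Tendsto (fun s : ℝ => (X + s * v, Y + s * w)) (𝓝 0) (𝓝 (X, Y)) := by
  have h := (BLoc_line_hasDerivAt X Y v w).continuousAt.tendsto
  simpa using h

theorem BLoc_D_deriv (R : ℝ) (N : ℕ∞) (X Y v w s : ℝ) :
    HasDerivAt (fun s : ℝ => R * ((Y + s * w) - FF N (X + s * v)))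
      (R * (w - phi N (X + s * v) * v)) s := by
  have h1 : HasDerivAt (fun s : ℝ => X + s * v) v s := by
    simpa using ((hasDerivAt_id s).mul_const v).const_add X
  have h2 : HasDerivAt (fun s : ℝ => Y + s * w) w s := by
    simpa using ((hasDerivAt_id s).mul_const w).const_add Y
  have h3 : HasDerivAt (fun s : ℝ => FF N (X + s * v)) (phi N (X + s * v) * v) s :=
    HasDerivAt.comp (h₂ := FF N) (h := fun s : ℝ => X + s * v) s (hasDerivAt_FF N (X + s * v)) h1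
  exact (h2.sub h3).const_mul R

theorem BLoc_u_deriv (a β X Y v w s : ℝ) :
    HasDerivAt (fun s : ℝ => ((Y + s * w) - (a * (X + s * v) + β)) / Real.sqrt (1 + a ^ 2))
      ((w - a * v) / Real.sqrt (1 + a ^ 2)) s := by
  have h1 : HasDerivAt (fun s : ℝ => X + s * v) v s := by
    simpa using ((hasDerivAt_id s).mul_const v).const_add X
  have h2 : HasDerivAt (fun s : ℝ => Y + s * w) w s := by
    simpa using ((hasDerivAt_id s).mul_const w).const_add Y
  exact (h2.sub ((h1.const_mul a).add_const β)).div_const _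

theorem BLoc_bound_sq {p q A B S : ℝ} (hp0 : 0 ≤ p) (hp1 : p ≤ 1) (hq0 : 0 ≤ q)
    (hq1 : q ≤ 3 / 2 * (1 - p)) (hA : A ^ 2 ≤ S) (hB : B ^ 2 ≤ S / 16) :
    (p * A + q * B) ^ 2 ≤ S := by
  have hS : 0 ≤ S := (sq_nonneg A).trans hA
  set r := Real.sqrt S with hr
  have hr0 : 0 ≤ r := Real.sqrt_nonneg S
  have hr2 : r ^ 2 = S := Real.sq_sqrt hS
  have hA' : |A| ≤ r := Real.abs_le_sqrt hA
  have hB' : |B| ≤ r / 4 := by
    have h1 : B ^ 2 ≤ (r / 4) ^ 2 := by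
      rw [div_pow, hr2]
      linarith
    have h2 := Real.abs_le_sqrt h1
    rwa [Real.sqrt_sq (by positivity)] at h2
  have h3 : |p * A + q * B| ≤ r := by
    calc |p * A + q * B| ≤ |p * A| + |q * B| := abs_add_le _ _
      _ = p * |A| + q * |B| := by rw [abs_mul, abs_mul, abs_of_nonneg hp0, abs_of_nonneg hq0]
      _ ≤ p * r + (3 / 2 * (1 - p)) * (r / 4) := by
          apply add_le_add (mul_le_mul_of_nonneg_left hA' hp0)
          apply mul_le_mul hq1 hB' (abs_nonneg _)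
          linarith
      _ ≤ r := by nlinarith
  rw [← hr2, ← sq_abs]
  exact pow_le_pow_left₀ (abs_nonneg _) h3 2

theorem BLoc_v_sq (hR : 0 < R) (hR' : R ≤ 1 / 8) (N : ℕ∞) (X v w : ℝ) :
    (R * (w - phi N X * v)) ^ 2 ≤ (v ^ 2 + w ^ 2) / 16 := by
  have h1 := abs_phi_le N X
  set c := phi N X
  have h2 : c ^ 2 ≤ 1 := by
    rw [← sq_abs]
    nlinarith [abs_nonneg c]
  have h3 : (w - c * v) ^ 2 ≤ (1 + c ^ 2) * (v ^ 2 + w ^ 2) := by
    nlinarith [sq_nonneg (c * w + v)]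
  have h4 : (w - c * v) ^ 2 ≤ 2 * (v ^ 2 + w ^ 2) := by
    nlinarith [sq_nonneg v, sq_nonneg w]
  have h5 : R ^ 2 ≤ 1 / 64 := by nlinarith
  calc (R * (w - c * v)) ^ 2 = R ^ 2 * (w - c * v) ^ 2 := by ring
    _ ≤ 1 / 64 * (2 * (v ^ 2 + w ^ 2)) := mul_le_mul h5 h4 (sq_nonneg _) (by norm_num)
    _ ≤ (v ^ 2 + w ^ 2) / 16 := by nlinarith [sq_nonneg v, sq_nonneg w]

theorem BLoc_u_sq (a v w : ℝ) :
    ((w - a * v) / Real.sqrt (1 + a ^ 2)) ^ 2 ≤ v ^ 2 + w ^ 2 := by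
  rw [div_pow, Real.sq_sqrt (by positivity), div_le_iff₀ (by positivity)]
  nlinarith [sq_nonneg (a * w + v)]

theorem bb_grad (hR : 0 < R) (hR' : R ≤ 1 / 8) (hN : 1 ≤ N) {X Y : ℝ} (h : GG N X < Y)
    (v w : ℝ) :
    (fderiv ℝ (fun q : ℝ × ℝ => bb R N q.1 q.2) (X, Y) (v, w)) ^ 2 ≤ v ^ 2 + w ^ 2 := by
  have hF := FF_le_GG N hN X
  have hd : DifferentiableAt ℝ (fun q : ℝ × ℝ => bb R N q.1 q.2) (X, Y) :=
    (bb_contDiffAt hR hR' hN h).differentiableAt (by simp)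
  have hd' : HasFDerivAt (fun q : ℝ × ℝ => bb R N q.1 q.2)
      (fderiv ℝ (fun q : ℝ × ℝ => bb R N q.1 q.2) (X, Y)) (X + 0 * v, Y + 0 * w) := by
    simpa using hd.hasFDerivAt
  have hc : HasDerivAt (fun s : ℝ => bb R N (X + s * v) (Y + s * w))
      (fderiv ℝ (fun q : ℝ × ℝ => bb R N q.1 q.2) (X, Y) (v, w)) 0 :=
    HasFDerivAt.comp_hasDerivAt (l := fun q : ℝ × ℝ => bb R N q.1 q.2)
      (f := fun s : ℝ => (X + s * v, Y + s * w)) (0 : ℝ) hd' (BLoc_line_hasDerivAt X Y v w)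
  have ht := BLoc_line_tendsto X Y v w
  rcases bb_local hR hR' hN h with ⟨a, β, ha, hβ, hq⟩ | hq
  · have e := ht.eventually hq
    have hv0 : 0 < R * ((Y + 0 * w) - FF N (X + 0 * v)) := by
      rw [zero_mul, zero_mul, add_zero, add_zero]
      exact mul_pos hR (by linarith)
    have h1 := hasDerivAt_mm (BLoc_u_deriv a β X Y v w 0) (BLoc_D_deriv R N X Y v w 0) hv0.ne'
    have h2 : HasDerivAt (fun s : ℝ => bb R N (X + s * v) (Y + s * w)) _ 0 :=
      h1.congr_of_eventuallyEq e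
    rw [hc.unique h2]
    set x := ((Y + 0 * w) - (a * (X + 0 * v) + β)) / Real.sqrt (1 + a ^ 2) /
      (R * ((Y + 0 * w) - FF N (X + 0 * v))) with hx
    have hx0 : 0 ≤ x := by
      rw [hx]
      apply div_nonneg _ hv0.le
      apply div_nonneg _ (Real.sqrt_nonneg _)
      rw [zero_mul, zero_mul, add_zero, add_zero, hβ]
      linarith
    exact BLoc_bound_sq (kapD_nonneg x) (kapD_le_one x) (kapE_nonneg hx0)
      (kapE_le' hx0) (BLoc_u_sq a v w) (BLoc_v_sq hR hR' N _ v w)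
  · have e := ht.eventually hq
    have h2 : HasDerivAt (fun s : ℝ => bb R N (X + s * v) (Y + s * w)) _ 0 :=
      (BLoc_D_deriv R N X Y v w 0).congr_of_eventuallyEq e
    rw [hc.unique h2]
    have h3 := BLoc_v_sq hR hR' N (X + 0 * v) v w
    nlinarith [sq_nonneg v, sq_nonneg w]

theorem BLoc_D_deriv2 (hR : 0 < R) (N : ℕ∞) (X Y v w : ℝ) :
    deriv (deriv fun s : ℝ => R * ((Y + s * w) - FF N (X + s * v))) 0 ≤ 0 := by
  have h1 : (deriv fun s : ℝ => R * ((Y + s * w) - FF N (X + s * v))) =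
      fun s => R * (w - phi N (X + s * v) * v) :=
    funext fun s => (BLoc_D_deriv R N X Y v w s).deriv
  rw [h1]
  have h2 : HasDerivAt (fun s : ℝ => X + s * v) v 0 := by
    simpa using ((hasDerivAt_id (0 : ℝ)).mul_const v).const_add X
  have h3 : DifferentiableAt ℝ (phi N) (X + 0 * v) :=
    (phi_contDiff N).differentiable (by simp) _
  have h4 : HasDerivAt (fun s : ℝ => phi N (X + s * v)) (deriv (phi N) (X + 0 * v) * v) 0 :=
    HasDerivAt.comp (h₂ := phi N) (h := fun s : ℝ => X + s * v) (0 : ℝ) h3.hasDerivAt h2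
  have h5 : HasDerivAt (fun s : ℝ => R * (w - phi N (X + s * v) * v))
      (R * (0 - (deriv (phi N) (X + 0 * v) * v) * v)) 0 :=
    ((hasDerivAt_const (0 : ℝ) w).sub (h4.mul_const v)).const_mul R
  rw [h5.deriv]
  have h6 := deriv2_FF_nonneg N (X + 0 * v)
  rw [deriv_FF] at h6
  have h7 : 0 ≤ R * (deriv (phi N) (X + 0 * v) * (v * v)) :=
    mul_nonneg hR.le (mul_nonneg h6 (mul_self_nonneg v))
  nlinarith

theorem BLoc_u_deriv2 (a β X Y v w : ℝ) :
    deriv (deriv fun s : ℝ => ((Y + s * w) - (a * (X + s * v) + β)) / Real.sqrt (1 + a ^ 2)) 0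
      ≤ 0 := by
  have h1 : (deriv fun s : ℝ => ((Y + s * w) - (a * (X + s * v) + β)) / Real.sqrt (1 + a ^ 2)) =
      fun s => (w - a * v) / Real.sqrt (1 + a ^ 2) :=
    funext fun s => (BLoc_u_deriv a β X Y v w s).deriv
  rw [h1, deriv_const]

theorem bb_hess (hR : 0 < R) (hR' : R ≤ 1 / 8) (hN : 1 ≤ N) {X Y : ℝ} (h : GG N X < Y)
    (v w : ℝ) : deriv (deriv fun s : ℝ => bb R N (X + s * v) (Y + s * w)) 0 ≤ 0 := by
  have hF := FF_le_GG N hN X
  have ht := BLoc_line_tendsto X Y v w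
  rcases bb_local hR hR' hN h with ⟨a, β, ha, hβ, hq⟩ | hq
  · have e : (fun s : ℝ => bb R N (X + s * v) (Y + s * w)) =ᶠ[𝓝 0] fun s : ℝ =>
        mm (((Y + s * w) - (a * (X + s * v) + β)) / Real.sqrt (1 + a ^ 2))
          (R * ((Y + s * w) - FF N (X + s * v))) := ht.eventually hq
    rw [e.deriv.deriv_eq]
    have hl : ContDiff ℝ ∞ (fun s : ℝ => ((X + s * v, Y + s * w) : ℝ × ℝ)) :=
      (contDiff_const.add (contDiff_id.mul contDiff_const)).prodMk
        (contDiff_const.add (contDiff_id.mul contDiff_const))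
    apply deriv2_mm_nonpos
    · exact (contDiff_infty.mp ((BLoc_u_contDiff a β).comp hl) 2).contDiffAt
    · exact (contDiff_infty.mp ((BLoc_D_contDiff R N).comp hl) 2).contDiffAt
    · rw [zero_mul, zero_mul, add_zero, add_zero]
      exact mul_pos hR (by linarith)
    · apply div_nonneg _ (Real.sqrt_nonneg _)
      rw [zero_mul, zero_mul, add_zero, add_zero, hβ]
      linarith
    · exact BLoc_u_deriv2 a β X Y v w
    · exact BLoc_D_deriv2 hR N X Y v w
  · have e : (fun s : ℝ => bb R N (X + s * v) (Y + s * w)) =ᶠ[𝓝 0] fun s : ℝ =>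
        R * ((Y + s * w) - FF N (X + s * v)) := ht.eventually hq
    rw [e.deriv.deriv_eq]
    exact BLoc_D_deriv2 hR N X Y v w

theorem bb_continuousOn (hR : 0 < R) (hR' : R ≤ 1 / 8) (hN : 1 ≤ N) :
    ContinuousOn (fun q : ℝ × ℝ => bb R N q.1 q.2) {q | GG N q.1 ≤ q.2} := by
  rintro ⟨X, Y⟩ hq
  have hq' : GG N X ≤ Y := hq
  rcases eq_or_lt_of_le hq' with h | h
  · have hG : Continuous fun q : ℝ × ℝ => q.2 - GG N q.1 :=
      continuous_snd.sub ((GG_continuous N hN).comp continuous_fst)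
    have h1 : Tendsto (fun q : ℝ × ℝ => q.2 - GG N q.1) (𝓝[{q | GG N q.1 ≤ q.2}] (X, Y))
        (𝓝 0) := by
      have h2 := (hG.continuousWithinAt (s := {q : ℝ × ℝ | GG N q.1 ≤ q.2}) (x := (X, Y))).tendsto
      rwa [show Y - GG N X = 0 by linarith] at h2
    have h0 : bb R N X Y = 0 := by rw [← h, bb_bdry]
    change Tendsto (fun q : ℝ × ℝ => bb R N q.1 q.2) (𝓝[{q | GG N q.1 ≤ q.2}] (X, Y))
      (𝓝 (bb R N X Y))
    rw [h0]
    refine tendsto_of_tendsto_of_tendsto_of_le_of_le' tendsto_const_nhds h1 ?_ ?_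
    · filter_upwards [self_mem_nhdsWithin] with q hq using bb_nonneg hR hN hq
    · filter_upwards [self_mem_nhdsWithin] with q hq using bb_le_dist hR hN hq
  · exact (bb_contDiffAt hR hR' hN h).continuousAt.continuousWithinAt

end

end Pool.Agent.W_MP_654ec6
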