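import Pool.Agent.W_MP_654ec6.C.MetC

/-!
# Task C15: comparison of the ambient spaces for `N = n` and `N = ⊤`

For `|X| ≥ zz n`: `FF n = FF ⊤`, `GG n = GG ⊤` (`FF_eq_top`, `GG_eq_top`), and `om n = om ⊤` on open
edges; at vertices `bb = R (Y - FF)` or `Y = GG = FF` and `bb = 0` for both.
For `|X| ≤ zz n` and `Y ≥ FF ⊤ (zz n) + zz n`: `Y - FF ≥ zz n`, and
`GG - FF ≤ cc * zz n ≤ zz n / 20` for both functions, so
`bb = R (Y - FF)` (`bb_eq_RD`), and `FF_close_top` gives the ratio.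
`gC_eq_top`: `OX, OY, aa, oj` agree for `j < n` (`OY`: `FF_eq_top` at `zz (j + 1) ≥ zz n`).
`gC_compare`: `qf_gC` and the ratio.
-/

open scoped ContDiff Topology
open Filter Real

namespace Pool.Agent.W_MP_654ec6

section

variable {R : ℝ} {n : ℕ}

theorem compareC_cast (hn : 1 ≤ n) : (1 : ℕ∞) ≤ (n : ℕ∞) := by exact_mod_cast hn

theorem compareC_FF (hn : 1 ≤ n) {X : ℝ} (hX : zz n ≤ |X|) : FF n X = FF ⊤ X :=
  FF_eq_top hn (by linarith [zz_pos n])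

theorem compareC_FF_zz {k : ℕ} (hn : 1 ≤ n) (hk : k ≤ n) : FF n (zz k) = FF ⊤ (zz k) :=
  compareC_FF hn (by rw [abs_of_pos (zz_pos k)]; exact zz_anti hk)

theorem compareC_lt {j : ℕ} {X : ℝ} (hX : zz n ≤ X) (h : X < zz j) : j < n := by
  by_contra hcon
  push Not at hcon
  linarith [zz_anti hcon]

theorem compareC_opEdge {j : ℕ} (hj : j < n) (X : ℝ) : opEdge n j X ↔ opEdge ⊤ j X := by
  have h1 : (j : ℕ∞) < n := by exact_mod_cast hj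
  have h2 : (j : ℕ∞) < ⊤ := ENat.natCast_lt_top j
  unfold opEdge
  simp [h1.le, hj]

theorem compareC_oj {j : ℕ} (hj : j < n) : oj n j = oj ⊤ j := by
  unfold oj
  rw [aa_eq_top (by exact_mod_cast hj)]

theorem bb_eq_top (hR : 0 < R) (hR' : R ≤ 1 / 8) (hn : 1 ≤ n) {X Y : ℝ} (hX : zz n ≤ |X|)
    (h : GG ⊤ X ≤ Y) : bb R n X Y = bb R ⊤ X Y := by
  have hF := compareC_FF hn hX
  have hG := GG_eq_top hn hX
  rcases edge_or_vertex ⊤ le_top X with ⟨j, hj⟩ | ⟨k, hk1, -, hk⟩ | ⟨h0, -⟩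
  · have hjn : j < n := by
      rcases hj.2.2.2 with h0 | h0
      · omega
      · exact compareC_lt hX h0
    have hj' := (compareC_opEdge hjn |X|).mpr hj
    unfold bb
    rw [om_eq hj, om_eq hj', compareC_oj hjn, hF, hG]
  · have e1 : GG ⊤ X = FF ⊤ X := by
      rw [← GG_abs, ← FF_abs, hk]
      exact GG_vertex hk1 le_top
    rcases h.eq_or_lt with h1 | h1
    · rw [← h1, bb_bdry, ← hG, bb_bdry]
    · rw [bb_eq_RD hR hR' le_top h1 (by rw [e1]; linarith),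
        bb_eq_RD hR hR' (compareC_cast hn) (by rw [hG]; exact h1)
          (by rw [hG, hF, e1]; linarith), hF]
  · rw [h0, abs_zero] at hX
    linarith [zz_pos n]

theorem compareC_high (hn : 1 ≤ n) {X Y : ℝ} (hX : |X| ≤ zz n)
    (h : FF ⊤ (zz n) + zz n ≤ Y) : GG n X < Y ∧ GG ⊤ X < Y ∧
      5 / 4 * (GG n X - FF n X) ≤ Y - FF n X ∧ 5 / 4 * (GG ⊤ X - FF ⊤ X) ≤ Y - FF ⊤ X ∧
      zz n ≤ Y - FF n X ∧ zz n ≤ Y - FF ⊤ X := by
  have hz := zz_pos n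
  have h1 := GG_mid hn hX
  have h2 := compareC_FF_zz hn (le_refl n)
  have h3 := GG_top_le hn hX
  have h4 : FF n X ≤ FF n (zz n) := by
    rw [← FF_abs]
    exact FF_mono n (abs_nonneg X) hX
  have h5 : FF ⊤ X ≤ FF ⊤ (zz n) := by
    rw [← FF_abs]
    exact FF_mono ⊤ (abs_nonneg X) hX
  have h6 : abs (zz n - |X|) ≤ zz n := by
    rw [abs_of_nonneg (by linarith)]
    linarith [abs_nonneg X]
  have h7 := le_of_abs_le ((FF_lip n (zz n) |X|).trans (mul_le_mul_of_nonneg_left h6 (by norm_num)))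
  have h8 := le_of_abs_le ((FF_lip ⊤ (zz n) |X|).trans (mul_le_mul_of_nonneg_left h6 (by norm_num)))
  rw [FF_abs] at h7 h8
  refine ⟨?_, ?_, ?_, ?_, ?_, ?_⟩ <;> linarith

theorem bb_ratio (hR : 0 < R) (hR' : R ≤ 1 / 8) (hn : 1 ≤ n) {X Y : ℝ} (hX : |X| ≤ zz n)
    (h : FF ⊤ (zz n) + zz n ≤ Y) : GG n X < Y ∧ GG ⊤ X < Y ∧
      bb R n X Y ≤ (1 + cc ⊤ n) * bb R ⊤ X Y ∧ bb R ⊤ X Y ≤ (1 + cc ⊤ n) * bb R n X Y := by
  obtain ⟨h1, h2, h3, h4, h5, h6⟩ := compareC_high hn hX h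
  refine ⟨h1, h2, ?_⟩
  rw [bb_eq_RD hR hR' (compareC_cast hn) h1 h3, bb_eq_RD hR hR' le_top h2 h4]
  have hc := cc_nonneg ⊤ n
  have h7 := abs_le.mp (FF_close_top hn hX)
  have h8 := mul_le_mul_of_nonneg_left h5 hc
  have h9 := mul_le_mul_of_nonneg_left h6 hc
  constructor
  · have : Y - FF n X ≤ (1 + cc ⊤ n) * (Y - FF ⊤ X) := by linarith [h7.1]
    calc R * (Y - FF n X) ≤ R * ((1 + cc ⊤ n) * (Y - FF ⊤ X)) :=
          mul_le_mul_of_nonneg_left this hR.le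
      _ = _ := by ring
  · have : Y - FF ⊤ X ≤ (1 + cc ⊤ n) * (Y - FF n X) := by linarith [h7.2]
    calc R * (Y - FF ⊤ X) ≤ R * ((1 + cc ⊤ n) * (Y - FF n X)) :=
          mul_le_mul_of_nonneg_left this hR.le
      _ = _ := by ring

theorem compareC_OX {j : ℕ} (hj : j < n) : OX n j = OX ⊤ j := by
  unfold OX
  rw [if_pos (by exact_mod_cast hj), if_pos (ENat.natCast_lt_top j)]

theorem compareC_OY {j : ℕ} (hj : j < n) : OY n j = OY ⊤ j := by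
  unfold OY vert
  rw [if_pos (by exact_mod_cast hj), if_pos (ENat.natCast_lt_top j)]
  exact compareC_FF_zz (by omega) (by omega)

theorem coord_eq_top {j : ℕ} (hj : j < n) (u : E4) : pX n j u = pX ⊤ j u ∧
    pY n j u = pY ⊤ j u := by
  unfold pX pY
  rw [compareC_OX hj, compareC_OY hj, compareC_oj hj, aa_eq_top (by exact_mod_cast hj)]
  exact ⟨rfl, rfl⟩

theorem lc_eq_top {j : ℕ} (hj : j < n) (X Y : ℝ) : lc n j X Y = lc ⊤ j X Y ∧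
    sc n j X Y = sc ⊤ j X Y := by
  unfold lc sc
  rw [compareC_OX hj, compareC_OY hj, compareC_oj hj, aa_eq_top (by exact_mod_cast hj)]
  exact ⟨rfl, rfl⟩

/-- For `|X| ≥ zz n` (in particular on the edges `j < n`) the domains agree. -/
theorem VC_eq_top (hn : 1 ≤ n) {j : ℕ} (hj : j < n) {u : E4} (hX : zz n ≤ |pX ⊤ j u|) :
    u ∈ VC n j ↔ u ∈ VC ⊤ j := by
  unfold VC
  simp only [Set.mem_ofPred_eq]
  rw [(coord_eq_top hj u).1, (coord_eq_top hj u).2, GG_eq_top hn hX, compareC_opEdge hj]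

theorem VC_high (hn : 1 ≤ n) {j : ℕ} (hj : j < n) {u : E4} (hX : |pX ⊤ j u| ≤ zz n)
    (hY : FF ⊤ (zz n) + zz n ≤ pY ⊤ j u) : u ∈ VC n j ∧ u ∈ VC ⊤ j := by
  obtain ⟨h1, h2, -⟩ := compareC_high hn hX hY
  refine ⟨Or.inl ?_, Or.inl h2⟩
  rw [(coord_eq_top hj u).1, (coord_eq_top hj u).2]
  exact h1

theorem gC_eq_top (hR : 0 < R) (hR' : R ≤ 1 / 8) (hn : 1 ≤ n) {j : ℕ} (hj : j < n) {u : E4}
    (hu : u ∈ VC ⊤ j) (hX : zz n ≤ |pX ⊤ j u|) : gC R n j u = gC R ⊤ j u := by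
  have h := GG_le_pY (N := ⊤) (j := j) le_top hu
  have e : BC R n j u = BC R ⊤ j u := by
    unfold BC
    rw [(coord_eq_top hj u).1, (coord_eq_top hj u).2, bb_eq_top hR hR' hn hX h]
  unfold gC
  rw [e]

theorem compareC_qf {a b s c p q w : ℝ} (hs : 0 < s) (hc : 0 ≤ c) (ha : 0 ≤ a) (h : a ≤ (1 + c) * b)
    (hp : 0 ≤ p) (hq : 0 ≤ q) (hw : 0 ≤ w) :
    w + p + (a / s) ^ 2 * q ≤ (1 + c) ^ 2 * (w + p + (b / s) ^ 2 * q) := by
  have h1 : a / s ≤ (1 + c) * (b / s) := by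
    rw [← mul_div_assoc]
    exact div_le_div_of_nonneg_right h hs.le
  have h2 : (a / s) ^ 2 ≤ ((1 + c) * (b / s)) ^ 2 := pow_le_pow_left₀ (by positivity) h1 2
  have h3 := mul_le_mul_of_nonneg_right h2 hq
  have h4 : (1 : ℝ) ≤ (1 + c) ^ 2 := by nlinarith
  have h5 : w + p ≤ (1 + c) ^ 2 * (w + p) := le_mul_of_one_le_left (by linarith) h4
  nlinarith

theorem gC_compare (hR : 0 < R) (hR' : R ≤ 1 / 8) (hn : 1 ≤ n) {j : ℕ} (hj : j < n) {u : E4}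
    (hX : |pX ⊤ j u| ≤ zz n) (hY : FF ⊤ (zz n) + zz n ≤ pY ⊤ j u) (v : E4) :
    qf (gC R n j u) v ≤ (1 + cc ⊤ n) ^ 2 * qf (gC R ⊤ j u) v ∧
      qf (gC R ⊤ j u) v ≤ (1 + cc ⊤ n) ^ 2 * qf (gC R n j u) v := by
  obtain ⟨h1, h2, h3, h4⟩ := bb_ratio hR hR' hn hX hY
  have hs : 0 < n3 u := n3_pos (N := ⊤) (j := j) le_top h2
  have hb1 := bb_pos hR (compareC_cast hn) h1
  have hb2 := bb_pos hR (le_top : (1 : ℕ∞) ≤ ⊤) h2
  rw [qf_gC R n j hs.ne' v, qf_gC R ⊤ j hs.ne' v, (coord_eq_top hj u).1, (coord_eq_top hj u).2]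
  have hq : 0 ≤ v 1 ^ 2 + v 2 ^ 2 + v 3 ^ 2 -
      ((u 1 * v 1 + u 2 * v 2 + u 3 * v 3) / n3 u) ^ 2 := by
    rw [div_pow, sub_nonneg, div_le_iff₀ (by positivity), n3_sq]
    nlinarith [sq_nonneg (u 1 * v 2 - u 2 * v 1), sq_nonneg (u 1 * v 3 - u 3 * v 1),
      sq_nonneg (u 2 * v 3 - u 3 * v 2)]
  exact ⟨compareC_qf hs (cc_nonneg ⊤ n) hb1.le h3 (sq_nonneg _) hq (sq_nonneg _),
    compareC_qf hs (cc_nonneg ⊤ n) hb2.le h4 (sq_nonneg _) hq (sq_nonneg _)⟩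

end

end Pool.Agent.W_MP_654ec6
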