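import Pool.Agent.W_MP_654ec6.C.BFun

/-!
# Task C9: the coordinates of a patch

`(X, Y) = (OX, OY) + l e + s n` with the orthonormal vectors `e = (1, a)/oj`, `n = (-a, 1)/oj`,
`l = u 0`, `s = n3 u`; `lc, sc` are the inverse coordinates, `sc = (Y - line X)/oj` (`sc_eq`;
for `j < N`, `OX = zz (j+1) = zz (vert N j)`, otherwise `aa = 0`).
`sc_pos`: `line_le_GG`. `isOpen_VC`: the first condition is open (continuity); if `n3 u = 0` and
`opEdge N j (pX u)`, then near `u` either `n3 w = 0` (and `opEdge` is open) or `n3 w > 0` and then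
`pY w > line N j (pX w) = GG N (pX w)` (`GG_eq` on the open edge; `|pX w| = pX w` if `j < N`, and
`line N j` is constant if `j = N`).
`gC_edge`: moreover there `pY w - GG = oj * n3 w ≤ (R/2) (GG - FF)` near `u` (`FF_lt_GG`), so
`bb = n3 w` by `bb_eq_dist` and `BC = 1`.
-/

open scoped ContDiff Topology
open Filter Real

namespace Pool.Agent.W_MP_654ec6

theorem n3_nonneg (u : E4) : 0 ≤ n3 u := Real.sqrt_nonneg _

theorem n3_sq (u : E4) : n3 u ^ 2 = u 1 ^ 2 + u 2 ^ 2 + u 3 ^ 2 := by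
  unfold n3
  exact Real.sq_sqrt (by positivity)

theorem n3_eq_zero {u : E4} : n3 u = 0 ↔ u 1 = 0 ∧ u 2 = 0 ∧ u 3 = 0 := by
  constructor
  · intro h
    have h2 := n3_sq u
    rw [h] at h2
    refine ⟨?_, ?_, ?_⟩
    · have : u 1 ^ 2 = 0 := by nlinarith [sq_nonneg (u 1), sq_nonneg (u 2), sq_nonneg (u 3)]
      exact pow_eq_zero_iff (two_ne_zero) |>.1 this
    · have : u 2 ^ 2 = 0 := by nlinarith [sq_nonneg (u 1), sq_nonneg (u 2), sq_nonneg (u 3)]
      exact pow_eq_zero_iff (two_ne_zero) |>.1 this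
    · have : u 3 ^ 2 = 0 := by nlinarith [sq_nonneg (u 1), sq_nonneg (u 2), sq_nonneg (u 3)]
      exact pow_eq_zero_iff (two_ne_zero) |>.1 this
  · rintro ⟨h1, h2, h3⟩
    unfold n3
    rw [h1, h2, h3]
    simp

theorem continuous_n3 : Continuous n3 := by
  unfold n3
  fun_prop

theorem Coord_sum_ne {u : E4} (h : n3 u ≠ 0) : u 1 ^ 2 + u 2 ^ 2 + u 3 ^ 2 ≠ 0 := by
  intro h0
  apply h
  unfold n3
  rw [h0, Real.sqrt_zero]

theorem Coord_contDiff_coord (i : Fin 4) : ContDiff ℝ ∞ (fun u : E4 => u i) := by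
  fun_prop

theorem contDiffAt_n3 {u : E4} (h : n3 u ≠ 0) : ContDiffAt ℝ ∞ n3 u := by
  unfold n3
  apply ContDiffAt.sqrt
  · have h1 := (Coord_contDiff_coord 1).contDiffAt (x := u)
    have h2 := (Coord_contDiff_coord 2).contDiffAt (x := u)
    have h3 := (Coord_contDiff_coord 3).contDiffAt (x := u)
    exact ((h1.pow 2).add (h2.pow 2)).add (h3.pow 2)
  · exact Coord_sum_ne h

theorem n3_neg (u : E4) : n3 (-u) = n3 u := by
  unfold n3
  simp

theorem n3_mk4 (l : ℝ) {s : ℝ} (hs : 0 ≤ s) {ξ : Fin 3 → ℝ}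
    (hξ : ξ 0 ^ 2 + ξ 1 ^ 2 + ξ 2 ^ 2 = 1) : n3 (mk4 l s ξ) = s := by
  have h : (mk4 l s ξ) 1 ^ 2 + (mk4 l s ξ) 2 ^ 2 + (mk4 l s ξ) 3 ^ 2 = s ^ 2 := by
    have e1 : (mk4 l s ξ) 1 = s * ξ 0 := by simp [mk4]
    have e2 : (mk4 l s ξ) 2 = s * ξ 1 := by simp [mk4]
    have e3 : (mk4 l s ξ) 3 = s * ξ 2 := by simp [mk4]
    rw [e1, e2, e3]
    calc (s * ξ 0) ^ 2 + (s * ξ 1) ^ 2 + (s * ξ 2) ^ 2
        = s ^ 2 * (ξ 0 ^ 2 + ξ 1 ^ 2 + ξ 2 ^ 2) := by ring
      _ = s ^ 2 := by rw [hξ, mul_one]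
  unfold n3
  rw [h]
  exact Real.sqrt_sq hs

/-- Every `u` with `n3 u ≠ 0` is `mk4 (u 0) (n3 u) ξ` with a unit vector `ξ`. -/
theorem mk4_eta {u : E4} (h : n3 u ≠ 0) :
    mk4 (u 0) (n3 u) ![u 1 / n3 u, u 2 / n3 u, u 3 / n3 u] = u ∧
      (u 1 / n3 u) ^ 2 + (u 2 / n3 u) ^ 2 + (u 3 / n3 u) ^ 2 = 1 := by
  constructor
  · ext i
    fin_cases i
    · simp [mk4]
    · simp [mk4]; field_simp
    · simp [mk4]; field_simp
    · simp [mk4]; field_simp
  · have h2 := n3_sq u
    have : (u 1 / n3 u) ^ 2 + (u 2 / n3 u) ^ 2 + (u 3 / n3 u) ^ 2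
        = (u 1 ^ 2 + u 2 ^ 2 + u 3 ^ 2) / n3 u ^ 2 := by
      field_simp
    rw [this, ← h2]
    exact div_self (pow_ne_zero 2 h)

section

variable (N : ℕ∞) (j : ℕ)

theorem Coord_oj_pos : 0 < oj N j := lt_of_lt_of_le one_pos (one_le_oj N j)

theorem continuous_pX : Continuous (pX N j) := by
  have h := continuous_n3
  unfold pX
  have h0 : Continuous (fun u : E4 => u 0) := by fun_prop
  exact continuous_const.add ((h0.sub (continuous_const.mul h)).div_const _)

theorem continuous_pY : Continuous (pY N j) := by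
  have h := continuous_n3
  unfold pY
  have h0 : Continuous (fun u : E4 => u 0) := by fun_prop
  exact continuous_const.add (((continuous_const.mul h0).add h).div_const _)

theorem contDiffAt_pX {u : E4} (h : n3 u ≠ 0) : ContDiffAt ℝ ∞ (pX N j) u := by
  have h3 := contDiffAt_n3 h
  have h0 := (Coord_contDiff_coord 0).contDiffAt (x := u)
  unfold pX
  exact contDiffAt_const.add ((h0.sub (contDiffAt_const.mul h3)).div_const _)

theorem contDiffAt_pY {u : E4} (h : n3 u ≠ 0) : ContDiffAt ℝ ∞ (pY N j) u := by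
  have h3 := contDiffAt_n3 h
  have h0 := (Coord_contDiff_coord 0).contDiffAt (x := u)
  unfold pY
  exact contDiffAt_const.add (((contDiffAt_const.mul h0).add h3).div_const _)

theorem lc_p (u : E4) : lc N j (pX N j u) (pY N j u) = u 0 := by
  have ho := Coord_oj_pos N j
  have h2 := oj_sq N j
  unfold lc pX pY
  have : (OX N j + (u 0 - aa N j * n3 u) / oj N j - OX N j +
      aa N j * (OY N j + (aa N j * u 0 + n3 u) / oj N j - OY N j)) / oj N j
      = (u 0 * (1 + aa N j ^ 2)) / oj N j ^ 2 := by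
    field_simp
    ring
  rw [this, ← h2]
  field_simp

theorem sc_p (u : E4) : sc N j (pX N j u) (pY N j u) = n3 u := by
  have ho := Coord_oj_pos N j
  have h2 := oj_sq N j
  unfold sc pX pY
  have : (OY N j + (aa N j * u 0 + n3 u) / oj N j - OY N j -
      aa N j * (OX N j + (u 0 - aa N j * n3 u) / oj N j - OX N j)) / oj N j
      = (n3 u * (1 + aa N j ^ 2)) / oj N j ^ 2 := by
    field_simp
    ring
  rw [this, ← h2]
  field_simp

theorem sc_eq (X Y : ℝ) : sc N j X Y = (Y - line N j X) / oj N j := by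
  unfold sc line OX OY
  by_cases h : (j : ℕ∞) < N
  · have hv : vert N j = j + 1 := by simp [vert, h]
    rw [if_pos h, hv]
    congr 1
    ring
  · rw [if_neg h, aa_of_not_lt h]
    congr 1
    ring

theorem pX_mk4 {X Y : ℝ} (hs : 0 ≤ sc N j X Y) {ξ : Fin 3 → ℝ}
    (hξ : ξ 0 ^ 2 + ξ 1 ^ 2 + ξ 2 ^ 2 = 1) :
    pX N j (mk4 (lc N j X Y) (sc N j X Y) ξ) = X := by
  have ho := Coord_oj_pos N j
  have h2 := oj_sq N j
  unfold pX
  rw [n3_mk4 _ hs hξ]
  have e0 : (mk4 (lc N j X Y) (sc N j X Y) ξ) 0 = lc N j X Y := by simp [mk4]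
  rw [e0]
  unfold lc sc
  have : OX N j + ((X - OX N j + aa N j * (Y - OY N j)) / oj N j -
      aa N j * ((Y - OY N j - aa N j * (X - OX N j)) / oj N j)) / oj N j
      = OX N j + ((X - OX N j) * (1 + aa N j ^ 2)) / oj N j ^ 2 := by
    field_simp
    ring
  rw [this, ← h2]
  field_simp
  ring

theorem pY_mk4 {X Y : ℝ} (hs : 0 ≤ sc N j X Y) {ξ : Fin 3 → ℝ}
    (hξ : ξ 0 ^ 2 + ξ 1 ^ 2 + ξ 2 ^ 2 = 1) :
    pY N j (mk4 (lc N j X Y) (sc N j X Y) ξ) = Y := by
  have ho := Coord_oj_pos N j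
  have h2 := oj_sq N j
  unfold pY
  rw [n3_mk4 _ hs hξ]
  have e0 : (mk4 (lc N j X Y) (sc N j X Y) ξ) 0 = lc N j X Y := by simp [mk4]
  rw [e0]
  unfold lc sc
  have : OY N j + (aa N j * ((X - OX N j + aa N j * (Y - OY N j)) / oj N j) +
      (Y - OY N j - aa N j * (X - OX N j)) / oj N j) / oj N j
      = OY N j + ((Y - OY N j) * (1 + aa N j ^ 2)) / oj N j ^ 2 := by
    field_simp
    ring
  rw [this, ← h2]
  field_simp
  ring

/-- The euclidean distance in the half plane is preserved. -/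
theorem lc_sc_dist (X Y X' Y' : ℝ) : (lc N j X Y - lc N j X' Y') ^ 2 +
    (sc N j X Y - sc N j X' Y') ^ 2 = (X - X') ^ 2 + (Y - Y') ^ 2 := by
  have ho := Coord_oj_pos N j
  have h2 := oj_sq N j
  unfold lc sc
  have : ((X - OX N j + aa N j * (Y - OY N j)) / oj N j -
      (X' - OX N j + aa N j * (Y' - OY N j)) / oj N j) ^ 2 +
      ((Y - OY N j - aa N j * (X - OX N j)) / oj N j -
      (Y' - OY N j - aa N j * (X' - OX N j)) / oj N j) ^ 2
      = (((X - X') ^ 2 + (Y - Y') ^ 2) * (1 + aa N j ^ 2)) / oj N j ^ 2 := by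
    field_simp
    ring
  rw [this, ← h2]
  field_simp

theorem pY_of_n3_zero {u : E4} (h : n3 u = 0) : pY N j u = line N j (pX N j u) := by
  have h1 := sc_p N j u
  rw [sc_eq, h] at h1
  have ho := Coord_oj_pos N j
  rw [div_eq_zero_iff] at h1
  rcases h1 with h1 | h1
  · linarith
  · exact absurd h1 ho.ne'

end

section

variable {N : ℕ∞} {j : ℕ}

theorem sc_pos (hj : (j : ℕ∞) ≤ N) {X Y : ℝ} (h : GG N X < Y) : 0 < sc N j X Y := by
  rw [sc_eq]
  have ho := Coord_oj_pos N j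
  have := line_le_GG hj X
  exact div_pos (by linarith) ho

theorem n3_pos (hj : (j : ℕ∞) ≤ N) {u : E4} (h : GG N (pX N j u) < pY N j u) : 0 < n3 u := by
  rw [← sc_p N j u]
  exact sc_pos hj h

/-- In a patch, `|X|` may be replaced by `X` in the equation of the line. -/
theorem Coord_line_abs {X : ℝ} (h : opEdge N j X) : line N j |X| = line N j X := by
  by_cases hj : (j : ℕ∞) < N
  · have h1 := h.2.1 hj
    have h2 := zz_pos (j + 1)
    rw [abs_of_pos (by linarith)]
  · unfold line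
    rw [aa_of_not_lt hj]
    ring

/-- On an open edge the line is the graph of `GG`. -/
theorem GG_eq_of_opEdge {X : ℝ} (h : opEdge N j X) : GG N X = line N j X := by
  rw [GG_eq (inEdge_of_opEdge h), Coord_line_abs h]

/-- The points of `VC` lie in the closed polygon. -/
theorem GG_le_pY (hj : (j : ℕ∞) ≤ N) {u : E4} (h : u ∈ VC N j) :
    GG N (pX N j u) ≤ pY N j u := by
  rcases h with h | ⟨h0, h1⟩
  · exact h.le
  · rw [GG_eq_of_opEdge h1, pY_of_n3_zero N j h0]

theorem mem_VC_of_n3 (hj : (j : ℕ∞) ≤ N) {u : E4} (h : u ∈ VC N j) (h0 : n3 u ≠ 0) :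
    GG N (pX N j u) < pY N j u := by
  rcases h with h | ⟨h1, _⟩
  · exact h
  · exact absurd h1 h0

/-- Open edges are open. -/
theorem Coord_isOpen_opEdge : IsOpen {X : ℝ | opEdge N j X} := by
  by_cases hN : (j : ℕ∞) ≤ N
  · have : {X : ℝ | opEdge N j X} = {X : ℝ | ((j : ℕ∞) < N → zz (j + 1) < X)} ∩
        ({X : ℝ | (¬ (j : ℕ∞) < N → -zz j < X)} ∩ {X : ℝ | (j = 0 ∨ X < zz j)}) := by
      ext X
      simp only [opEdge, Set.mem_ofPred_eq, Set.mem_inter_iff, hN, true_and]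
    rw [this]
    refine IsOpen.inter ?_ (IsOpen.inter ?_ ?_)
    · by_cases h : (j : ℕ∞) < N
      · simp only [h, forall_const]
        exact isOpen_Ioi
      · simp only [h, IsEmpty.forall_iff, Set.ofPred_true, isOpen_univ]
    · by_cases h : (j : ℕ∞) < N
      · simp only [h, not_true_eq_false, IsEmpty.forall_iff, Set.ofPred_true, isOpen_univ]
      · simp only [h, not_false_eq_true, forall_const]
        exact isOpen_Ioi
    · by_cases h : j = 0
      · simp only [h, true_or, Set.ofPred_true, isOpen_univ]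
      · simp only [h, false_or]
        exact isOpen_Iio
  · have : {X : ℝ | opEdge N j X} = ∅ := by
      ext X
      simp only [opEdge, Set.mem_ofPred_eq, hN, false_and, Set.mem_empty_iff_false]
    rw [this]
    exact isOpen_empty

/-- Near a point over an open edge. -/
theorem Coord_near {u : E4} (h1 : opEdge N j (pX N j u)) :
    ∀ᶠ w in 𝓝 u, opEdge N j (pX N j w) := by
  have h := (continuous_pX N j).continuousAt (x := u)
  exact h.eventually (Coord_isOpen_opEdge.mem_nhds h1)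

/-- Over an open edge. -/
theorem Coord_pY_sub {w : E4} (h1 : opEdge N j (pX N j w)) :
    pY N j w - GG N (pX N j w) = oj N j * n3 w := by
  rw [GG_eq_of_opEdge h1]
  have h := sc_p N j w
  rw [sc_eq] at h
  have ho := Coord_oj_pos N j
  rw [← h]
  field_simp

theorem Coord_mem_VC {w : E4} (h1 : opEdge N j (pX N j w)) : w ∈ VC N j := by
  rcases (n3_nonneg w).eq_or_lt with h | h
  · exact Or.inr ⟨h.symm, h1⟩
  · left
    have h2 := Coord_pY_sub h1
    have ho := Coord_oj_pos N j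
    have : 0 < oj N j * n3 w := mul_pos ho h
    linarith

theorem isOpen_VC (hN : 1 ≤ N) (hj : (j : ℕ∞) ≤ N) : IsOpen (VC N j) := by
  rw [isOpen_iff_mem_nhds]
  intro u hu
  rcases hu with hu | ⟨h0, h1⟩
  · have hc : Continuous (fun w : E4 => GG N (pX N j w)) :=
      (GG_continuous N hN).comp (continuous_pX N j)
    have ho : IsOpen {w : E4 | GG N (pX N j w) < pY N j w} :=
      isOpen_lt hc (continuous_pY N j)
    exact Filter.mem_of_superset (ho.mem_nhds hu) (fun w hw => Or.inl hw)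
  · filter_upwards [Coord_near h1] with w hw
    exact Coord_mem_VC hw

/-- `opEdge` is stable under the absolute value. -/
theorem Coord_opEdge_abs {X : ℝ} (h : opEdge N j X) : opEdge N j |X| := by
  by_cases hj : (j : ℕ∞) < N
  · have h1 := h.2.1 hj
    have h2 := zz_pos (j + 1)
    rwa [abs_of_pos (by linarith)]
  · refine ⟨h.1, fun h' => absurd h' hj, fun _ => ?_, ?_⟩
    · have := h.2.2.1 hj
      have h3 := le_abs_self X
      linarith
    · rcases h.2.2.2 with h0 | h0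
      · exact Or.inl h0
      · right
        have := h.2.2.1 hj
        exact abs_lt.2 ⟨this, h0⟩

/-- The metric is euclidean where `bb = n3`. -/
theorem Coord_gC_one {R : ℝ} {w : E4}
    (h : n3 w ≠ 0 → bb R N (pX N j w) (pY N j w) = n3 w) : gC R N j w = 1 := by
  have hB : BC R N j w = 1 := by
    unfold BC
    by_cases h0 : n3 w = 0
    · rw [if_pos h0]
    · rw [if_neg h0, h h0, div_self h0, one_pow]
  ext i k
  simp only [gC, Matrix.of_apply, hB, sub_self, zero_mul, add_zero, Matrix.one_apply]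

theorem gC_edge {R : ℝ} (hR : 0 < R) (hN : 1 ≤ N) (hj : (j : ℕ∞) ≤ N) {u : E4} (h0 : n3 u = 0)
    (h1 : opEdge N j (pX N j u)) : ∀ᶠ w in 𝓝 u, w ∈ VC N j ∧ gC R N j w = 1 ∧
      (n3 w ≠ 0 → bb R N (pX N j w) (pY N j w) = n3 w) := by
  have hsag : 0 < GG N (pX N j u) - FF N (pX N j u) := by
    have := FF_lt_GG hN h1
    linarith
  have hcont : Continuous (fun w : E4 => R / 2 * (GG N (pX N j w) - FF N (pX N j w)) -
      oj N j * n3 w) := by
    have hc : Continuous (fun w : E4 => GG N (pX N j w)) :=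
      (GG_continuous N hN).comp (continuous_pX N j)
    have hf : Continuous (fun w : E4 => FF N (pX N j w)) :=
      (FF_contDiff N).continuous.comp (continuous_pX N j)
    exact (continuous_const.mul (hc.sub hf)).sub (continuous_const.mul continuous_n3)
  have hpos : 0 < R / 2 * (GG N (pX N j u) - FF N (pX N j u)) - oj N j * n3 u := by
    rw [h0, mul_zero, sub_zero]
    exact mul_pos (by linarith) hsag
  have hev := hcont.continuousAt.eventually (lt_mem_nhds hpos)
  filter_upwards [Coord_near h1, hev] with w hw hw2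
  have hsub := Coord_pY_sub hw
  have ho := Coord_oj_pos N j
  have hn := n3_nonneg w
  have hbb : n3 w ≠ 0 → bb R N (pX N j w) (pY N j w) = n3 w := by
    intro _
    have hle : GG N (pX N j w) ≤ pY N j w := by
      have : 0 ≤ oj N j * n3 w := mul_nonneg ho.le hn
      linarith
    rw [bb_eq_dist hR hN (Coord_opEdge_abs hw) hle ?_, hsub]
    · field_simp
    · rw [hsub]
      have h3 : R / 2 * (GG N (pX N j w) - FF N (pX N j w)) ≤
          R / 2 * (pY N j w - FF N (pX N j w)) := by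
        apply mul_le_mul_of_nonneg_left _ (by linarith)
        linarith
      linarith
  exact ⟨Coord_mem_VC hw, Coord_gC_one hbb, hbb⟩

/-- An explicit flat ball around the middle of the middle edge. -/
theorem gC_mid {R : ℝ} (hR : 0 < R) (hR' : R ≤ 1 / 8) {n : ℕ} (hn : 1 ≤ n) {u : E4}
    (h : u 0 ^ 2 + n3 u ^ 2 ≤ (R * cc n n * zz n / 32) ^ 2) : u ∈ VC n n ∧ gC R n n u = 1 := by
  have hz := zz_pos n
  have hc0 : 0 < cc n n := cc_pos (N := (n : ℕ∞)) (k := n) le_rfl
  have hc1 : cc n n ≤ 1 / 10 := cc_le (n : ℕ∞) n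
  have hN : (1 : ℕ∞) ≤ (n : ℕ∞) := by exact_mod_cast hn
  have hnl : ¬ ((n : ℕ) : ℕ∞) < (n : ℕ∞) := lt_irrefl _
  have ha : aa (n : ℕ∞) n = 0 := aa_of_not_lt hnl
  have hoj : oj (n : ℕ∞) n = 1 := by
    unfold oj
    rw [ha]
    simp
  have hOX : OX (n : ℕ∞) n = 0 := by
    unfold OX
    rw [if_neg hnl]
  have hpX : pX (n : ℕ∞) n u = u 0 := by
    unfold pX
    rw [ha, hoj, hOX]
    ring
  have hr : 0 ≤ R * cc n n * zz n / 32 := by positivity
  have hu0 : |u 0| ≤ R * cc n n * zz n / 32 := by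
    apply abs_le_of_sq_le_sq _ hr
    nlinarith [sq_nonneg (n3 u)]
  have hn3 : n3 u ≤ R * cc n n * zz n / 32 := by
    apply le_of_sq_le_sq _ hr
    nlinarith [sq_nonneg (u 0)]
  have hsmall : R * cc n n * zz n / 32 ≤ zz n / 2 := by
    have h1 : R * cc n n ≤ 1 := by nlinarith
    nlinarith
  have hop : opEdge (n : ℕ∞) n (pX (n : ℕ∞) n u) := by
    rw [hpX]
    refine ⟨le_rfl, fun h' => absurd h' hnl, fun _ => ?_, Or.inr ?_⟩
    · have := neg_abs_le (u 0)
      linarith
    · have := le_abs_self (u 0)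
      linarith
  have hsub := Coord_pY_sub hop
  rw [hoj, one_mul] at hsub
  refine ⟨Coord_mem_VC hop, Coord_gC_one fun _ => ?_⟩
  have hn0 := n3_nonneg u
  rw [bb_eq_dist hR hN (Coord_opEdge_abs hop) (by linarith) ?_, hsub, hoj, div_one]
  rw [hsub]
  have hsag := sag_mid hn (X := u 0) (by linarith)
  rw [hpX] at hsub ⊢
  have h3 : cc n n / 8 * (zz n / 2) ≤ pY (n : ℕ∞) n u - FF (n : ℕ∞) (u 0) := by
    have h4 : cc n n / 8 * (zz n / 2) ≤ cc n n / 8 * (zz n - |u 0|) := by
      apply mul_le_mul_of_nonneg_left _ (by positivity)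
      linarith
    linarith
  calc n3 u ≤ R * cc n n * zz n / 32 := hn3
    _ = R / 2 * (cc n n / 8 * (zz n / 2)) := by ring
    _ ≤ R / 2 * (pY (n : ℕ∞) n u - FF (n : ℕ∞) (u 0)) :=
        mul_le_mul_of_nonneg_left h3 (by positivity)

end

end Pool.Agent.W_MP_654ec6
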