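import Pool.Agent.W_MP_654ec6.Stmt

/-!
# Part C (the ambient space): definitions

`N : ℕ∞` with `2 ≤ N`. The vertices are `x_k = (zz k, FF N (zz k))`, `1 ≤ k ≤ N`, and their mirror
images; the edges are numbered by `j ≤ N` (`j = 0` is the unbounded edge, `j = N` the middle edge
if `N` is finite); `{GG N X ≤ Y}` is the convex polygon, `bb R N X Y` the radius of the fibre.
-/

open scoped ContDiff Topology
open Filter Real

namespace Pool.Agent.W_MP_654ec6

/-- `kap x = x - ∫_0^x S(u - 1/2) du`, where `S = Real.smoothTransition`. -/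
noncomputable def kap (x : ℝ) : ℝ := x - ∫ u in (0 : ℝ)..x, Real.smoothTransition (u - 1 / 2)

/-- The concave, `1`-homogeneous function `mm u v = v kap (u / v)`. -/
noncomputable def mm (u v : ℝ) : ℝ := v * kap (u / v)

/-- The abscissas of the vertices. -/
noncomputable def zz (k : ℕ) : ℝ := (1 / 2) ^ k

open Classical in
/-- The slopes of `FF` near the vertices. -/
noncomputable def cc (N : ℕ∞) (k : ℕ) : ℝ := if (k : ℕ∞) ≤ N then (1 / 2) ^ (k ^ 2) / 10 else 0

/-- The odd step function with transitions on `± [5/8 zz k, 7/8 zz k]`. -/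
noncomputable def hh (k : ℕ) (X : ℝ) : ℝ :=
  Real.smoothTransition (2 ^ (k + 2) * X - 5 / 2) - Real.smoothTransition (-(2 ^ (k + 2) * X) - 5 / 2)

/-- The derivative of `FF`. -/
noncomputable def phi (N : ℕ∞) (X : ℝ) : ℝ :=
  ∑' k : ℕ, (cc N (k + 1) - cc N (k + 2)) * hh (k + 1) X

/-- The smooth even convex function `F`. -/
noncomputable def FF (N : ℕ∞) (X : ℝ) : ℝ := ∫ u in (1 : ℝ)..X, phi N u

open Classical in
/-- The slopes of the edges. -/
noncomputable def aa (N : ℕ∞) (j : ℕ) : ℝ :=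
  if (j : ℕ∞) < N then (cc N j + cc N (j + 1)) / 2 else 0

open Classical in
/-- The index of a vertex of the edge `j`. -/
noncomputable def vert (N : ℕ∞) (j : ℕ) : ℕ := if (j : ℕ∞) < N then j + 1 else j

/-- The affine function whose graph is the line through the edge `j`. -/
noncomputable def line (N : ℕ∞) (j : ℕ) (X : ℝ) : ℝ :=
  FF N (zz (vert N j)) + aa N j * (X - zz (vert N j))

/-- `X ≥ 0` is the abscissa of a point of the (closed) edge `j`. -/
def inEdge (N : ℕ∞) (j : ℕ) (X : ℝ) : Prop :=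
  (j : ℕ∞) ≤ N ∧ ((j : ℕ∞) < N → zz (j + 1) ≤ X) ∧ (j = 0 ∨ X ≤ zz j)

/-- `X` is the abscissa of a point of the open edge `j` (for `j = N` the whole middle edge). -/
def opEdge (N : ℕ∞) (j : ℕ) (X : ℝ) : Prop :=
  (j : ℕ∞) ≤ N ∧ ((j : ℕ∞) < N → zz (j + 1) < X) ∧ (¬ (j : ℕ∞) < N → -zz j < X) ∧
    (j = 0 ∨ X < zz j)

open Classical in
/-- The even convex piecewise affine function whose graph is the boundary of the polygon. -/
noncomputable def GG (N : ℕ∞) (X : ℝ) : ℝ :=
  if h : ∃ j, inEdge N j |X| then line N (Classical.choose h) |X| else FF N X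

open Classical in
/-- The length factor of the edge above `X`. -/
noncomputable def om (N : ℕ∞) (X : ℝ) : ℝ :=
  if h : ∃ j, inEdge N j |X| then Real.sqrt (1 + aa N (Classical.choose h) ^ 2) else 1

/-- The radius of the fibre over `(X, Y)`. -/
noncomputable def bb (R : ℝ) (N : ℕ∞) (X Y : ℝ) : ℝ :=
  mm ((Y - GG N X) / om N X) (R * (Y - FF N X))

/-- The norm of the last three coordinates. -/
noncomputable def n3 (u : E4) : ℝ := Real.sqrt (u 1 ^ 2 + u 2 ^ 2 + u 3 ^ 2)

/-- The length factor of the edge `j`. -/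
noncomputable def oj (N : ℕ∞) (j : ℕ) : ℝ := Real.sqrt (1 + aa N j ^ 2)

open Classical in
/-- Abscissa of the origin on the line `j`. -/
noncomputable def OX (N : ℕ∞) (j : ℕ) : ℝ := if (j : ℕ∞) < N then zz (j + 1) else 0

/-- Ordinate of the origin on the line `j`. -/
noncomputable def OY (N : ℕ∞) (j : ℕ) : ℝ := FF N (zz (vert N j))

/-- Abscissa of the point of the half plane represented by `u` in the patch `j`. -/
noncomputable def pX (N : ℕ∞) (j : ℕ) (u : E4) : ℝ := OX N j + (u 0 - aa N j * n3 u) / oj N j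

/-- Ordinate of the point of the half plane represented by `u` in the patch `j`. -/
noncomputable def pY (N : ℕ∞) (j : ℕ) (u : E4) : ℝ := OY N j + (aa N j * u 0 + n3 u) / oj N j

/-- Coordinate along the line `j`. -/
noncomputable def lc (N : ℕ∞) (j : ℕ) (X Y : ℝ) : ℝ :=
  ((X - OX N j) + aa N j * (Y - OY N j)) / oj N j

/-- Signed distance to the line `j`. -/
noncomputable def sc (N : ℕ∞) (j : ℕ) (X Y : ℝ) : ℝ :=
  ((Y - OY N j) - aa N j * (X - OX N j)) / oj N j

open Classical in
/-- The ratio `(b / s)²`, `s = n3 u`. -/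
noncomputable def BC (R : ℝ) (N : ℕ∞) (j : ℕ) (u : E4) : ℝ :=
  if n3 u = 0 then 1 else (bb R N (pX N j u) (pY N j u) / n3 u) ^ 2

/-- The ambient metric in the coordinates of the patch `j`:
`dl² + ds² + b² dξ²`, `u = (l, s ξ)`. -/
noncomputable def gC (R : ℝ) (N : ℕ∞) (j : ℕ) : Met := fun u => Matrix.of fun i k =>
  (if i = k then 1 else 0) + (BC R N j u - 1) *
    (if i = 0 ∨ k = 0 then 0 else (if i = k then 1 else 0) - u i * u k / n3 u ^ 2)

/-- The domain of the patch `j`. -/
def VC (N : ℕ∞) (j : ℕ) : Set E4 :=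
  {u | GG N (pX N j u) < pY N j u ∨ (n3 u = 0 ∧ opEdge N j (pX N j u))}

/-- The point `(l, s ξ)`. -/
noncomputable def mk4 (l s : ℝ) (ξ : Fin 3 → ℝ) : E4 :=
  WithLp.toLp 2 ![l, s * ξ 0, s * ξ 1, s * ξ 2]

/-- The function `f` of the link at a vertex with slopes `al < c < ar`: `b = r f(φ)`. -/
noncomputable def linkf (R al c ar φ : ℝ) : ℝ :=
  mm (if φ ≤ π / 2 then (Real.sin φ - ar * Real.cos φ) / Real.sqrt (1 + ar ^ 2)
      else (Real.sin φ - al * Real.cos φ) / Real.sqrt (1 + al ^ 2))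
    (R * (Real.sin φ - c * Real.cos φ))

end Pool.Agent.W_MP_654ec6
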