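import Pool.Agent.W_MP_654ec6.C.Phi

/-!
# Task C4: the function `FF`

`FF N X = ∫_1^X phi N`. `FF_edge`: `∫_{z_{j+1}}^{z_j} phi` is computed with `phi_symm` (change of
variables `X ↦ z_j + z_{j+1} - X`). `FF_vertex`, `FF_far`: `phi` is constant there
(`phi_vertex`, `phi_far`). `FF_convex`: the derivative is monotone. `FF_eq_top`: the integrands
agree between `|X|` and `1`. `FF_close_top`: both values lie between `FF (z_n) - cc n * z_n` and
`FF (z_n)`. `FF_mid`: for `7/8 z_n ≤ |X| ≤ z_n` the difference is `cc n n (z_n - |X|)`; for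
`|X| ≤ 7/8 z_n` it is at least `cc n n z_n / 8`.
-/

open scoped ContDiff Topology
open Filter Real

namespace Pool.Agent.W_MP_654ec6

theorem FFun_cont (N : ℕ∞) : Continuous (phi N) := (phi_contDiff N).continuous

theorem FFun_int (N : ℕ∞) (a b : ℝ) : IntervalIntegrable (phi N) MeasureTheory.volume a b :=
  (FFun_cont N).intervalIntegrable a b

theorem hasDerivAt_FF (N : ℕ∞) (X : ℝ) : HasDerivAt (FF N) (phi N X) X := by
  exact intervalIntegral.integral_hasDerivAt_right (FFun_int N 1 X)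
    ((FFun_cont N).stronglyMeasurableAtFilter _ _) (FFun_cont N).continuousAt

theorem deriv_FF (N : ℕ∞) : deriv (FF N) = phi N := by
  funext X
  exact (hasDerivAt_FF N X).deriv

theorem FF_contDiff (N : ℕ∞) : ContDiff ℝ ∞ (FF N) := by
  rw [contDiff_infty_iff_deriv]
  refine ⟨fun X => (hasDerivAt_FF N X).differentiableAt, ?_⟩
  rw [deriv_FF]
  exact phi_contDiff N

theorem FFun_sub (N : ℕ∞) (X X' : ℝ) : FF N X' - FF N X = ∫ u in X..X', phi N u := by
  unfold FF
  exact intervalIntegral.integral_interval_sub_left (FFun_int N 1 X') (FFun_int N 1 X)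

theorem FF_neg (N : ℕ∞) (X : ℝ) : FF N (-X) = FF N X := by
  have h : ∀ Y, HasDerivAt (fun Y => FF N (-Y) - FF N Y) 0 Y := by
    intro Y
    have h1 := ((hasDerivAt_FF N (-Y)).comp Y (hasDerivAt_neg Y)).sub (hasDerivAt_FF N Y)
    have h2 : phi N (-Y) * -1 - phi N Y = 0 := by
      rw [phi_neg]; ring
    rw [h2] at h1
    exact h1
  have h3 := is_const_of_deriv_eq_zero (fun Y => (h Y).differentiableAt)
    (fun Y => (h Y).deriv) X 0
  simp only [neg_zero, sub_self] at h3
  linarith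

theorem FF_abs (N : ℕ∞) (X : ℝ) : FF N |X| = FF N X := by
  rcases abs_choice X with h | h
  · rw [h]
  · rw [h, FF_neg]

theorem FF_mono (N : ℕ∞) {X X' : ℝ} (h0 : 0 ≤ X) (h : X ≤ X') : FF N X ≤ FF N X' := by
  have h1 := FFun_sub N X X'
  have h2 : 0 ≤ ∫ u in X..X', phi N u := by
    apply intervalIntegral.integral_nonneg h
    intro u hu
    exact phi_nonneg N (h0.trans hu.1)
  linarith

theorem FF_zero_le (N : ℕ∞) (X : ℝ) : FF N 0 ≤ FF N X := by
  rw [← FF_abs N X]
  exact FF_mono N le_rfl (abs_nonneg X)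

theorem FF_convex (N : ℕ∞) : ConvexOn ℝ Set.univ (FF N) := by
  apply Monotone.convexOn_univ_of_deriv (fun X => (hasDerivAt_FF N X).differentiableAt)
  rw [deriv_FF]
  exact phi_mono N

theorem deriv2_FF_nonneg (N : ℕ∞) (X : ℝ) : 0 ≤ deriv (deriv (FF N)) X := by
  rw [deriv_FF]
  exact (phi_mono N).deriv_nonneg

theorem FF_edge (N : ℕ∞) {j : ℕ} (hj : 1 ≤ j) :
    FF N (zz j) - FF N (zz (j + 1)) = (cc N j + cc N (j + 1)) / 2 * (zz j - zz (j + 1)) := by
  rw [FFun_sub]
  have hle : zz (j + 1) ≤ zz j := zz_anti (Nat.le_succ j)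
  have h1 : (∫ u in zz (j + 1)..zz j, phi N (zz j + zz (j + 1) - u))
      = ∫ u in zz (j + 1)..zz j, phi N u := by
    rw [intervalIntegral.integral_comp_sub_left (fun u => phi N u) (zz j + zz (j + 1))]
    congr 1 <;> ring
  have h2 : (∫ u in zz (j + 1)..zz j, (phi N u + phi N (zz j + zz (j + 1) - u)))
      = ∫ u in zz (j + 1)..zz j, (cc N j + cc N (j + 1)) := by
    apply intervalIntegral.integral_congr
    intro u hu
    rw [Set.uIcc_of_le hle] at hu
    exact phi_symm hj hu.1 hu.2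
  have h3 : IntervalIntegrable (fun u => phi N (zz j + zz (j + 1) - u))
      MeasureTheory.volume (zz (j + 1)) (zz j) := by
    apply Continuous.intervalIntegrable
    exact (FFun_cont N).comp (continuous_const.sub continuous_id)
  rw [intervalIntegral.integral_add (FFun_int N _ _) h3, h1,
    intervalIntegral.integral_const, smul_eq_mul] at h2
  linarith

/-- Where `phi` is constant, `FF` is affine. -/
theorem FFun_const (N : ℕ∞) {c X X' : ℝ} (h : ∀ u ∈ Set.uIcc X X', phi N u = c) :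
    FF N X' - FF N X = c * (X' - X) := by
  rw [FFun_sub, intervalIntegral.integral_congr (g := fun _ => c) (fun u hu => h u hu),
    intervalIntegral.integral_const, smul_eq_mul, mul_comm]

theorem FF_vertex (N : ℕ∞) {k : ℕ} {X : ℝ} (hk : 1 ≤ k) (h : |X - zz k| ≤ zz k / 8) :
    FF N X = FF N (zz k) + cc N k * (X - zz k) := by
  have hz := zz_pos k
  have h1 := FFun_const N (c := cc N k) (X := zz k) (X' := X) (by
    intro u hu
    rw [abs_le] at h
    rcases Set.mem_uIcc.1 hu with hu | hu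
    · exact phi_vertex hk (by linarith [hu.1, hu.2]) (by linarith [hu.1, hu.2])
    · exact phi_vertex hk (by linarith [hu.1, hu.2]) (by linarith [hu.1, hu.2]))
  linarith

theorem FF_far (N : ℕ∞) {X : ℝ} (h : 7 / 16 ≤ X) :
    FF N X = FF N (zz 1) + cc N 1 * (X - zz 1) := by
  have hz := zz_one
  have h1 := FFun_const N (c := cc N 1) (X := zz 1) (X' := X) (by
    intro u hu
    rcases Set.mem_uIcc.1 hu with hu | hu
    · exact phi_far (by linarith [hu.1, hu.2])
    · exact phi_far (by linarith [hu.1, hu.2]))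
  linarith

theorem FF_sub_le (N : ℕ∞) {k : ℕ} {X X' : ℝ} (hk : 1 ≤ k) (h0 : 0 ≤ X) (h : X ≤ X')
    (h' : X' ≤ 5 / 4 * zz k) : FF N X' - FF N X ≤ cc N k * (X' - X) := by
  rw [FFun_sub]
  have h1 : (∫ u in X..X', phi N u) ≤ ∫ _u in X..X', cc N k := by
    apply intervalIntegral.integral_mono_on h (FFun_int N _ _) intervalIntegrable_const
    intro u hu
    exact phi_le hk (hu.2.trans h')
  rw [intervalIntegral.integral_const, smul_eq_mul] at h1
  linarith

theorem le_FF_sub (N : ℕ∞) {k : ℕ} {X X' : ℝ} (hk : 1 ≤ k) (h0 : 7 / 8 * zz k ≤ X)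
    (h : X ≤ X') : cc N k * (X' - X) ≤ FF N X' - FF N X := by
  rw [FFun_sub]
  have h1 : (∫ _u in X..X', cc N k) ≤ ∫ u in X..X', phi N u := by
    apply intervalIntegral.integral_mono_on h intervalIntegrable_const (FFun_int N _ _)
    intro u hu
    exact le_phi hk (h0.trans hu.1)
  rw [intervalIntegral.integral_const, smul_eq_mul] at h1
  linarith

theorem FF_lip (N : ℕ∞) (X X' : ℝ) : |FF N X - FF N X'| ≤ 1 / 20 * |X - X'| := by
  rw [FFun_sub]
  have h := intervalIntegral.norm_integral_le_of_norm_le_const (a := X') (b := X)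
    (f := phi N) (C := 1 / 20) (fun u _ => by
      rw [Real.norm_eq_abs]; exact abs_phi_le N u)
  rw [Real.norm_eq_abs] at h
  exact h

theorem FF_mid {n : ℕ} (hn : 1 ≤ n) {X : ℝ} (h : |X| ≤ zz n) :
    cc n n / 8 * (zz n - |X|) ≤ FF n (zz n) - FF n X := by
  have hz := zz_pos n
  have hc : 0 ≤ cc n n := cc_nonneg _ _
  have ha := abs_nonneg X
  rw [← FF_abs (n : ℕ∞) X]
  by_cases h7 : 7 / 8 * zz n ≤ |X|
  · have h1 := le_FF_sub (n : ℕ∞) hn h7 h
    have h2 : 0 ≤ cc n n * (zz n - |X|) := mul_nonneg hc (by linarith)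
    linarith
  · push Not at h7
    have h1 := le_FF_sub (n : ℕ∞) (k := n) (X := 7 / 8 * zz n) (X' := zz n) hn le_rfl (by linarith)
    have h2 := FF_mono (n : ℕ∞) ha h7.le
    have h3 : cc n n / 8 * (zz n - |X|) ≤ cc n n / 8 * zz n :=
      mul_le_mul_of_nonneg_left (by linarith) (by linarith)
    linarith

theorem FF_eq_top {n : ℕ} (hn : 1 ≤ n) {X : ℝ} (h : 7 / 8 * zz n ≤ |X|) :
    FF n X = FF ⊤ X := by
  have hz := zz_pos n
  have hz1 := zz_le_one n
  rw [← FF_abs (n : ℕ∞) X, ← FF_abs ⊤ X]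
  unfold FF
  apply intervalIntegral.integral_congr
  intro u hu
  have hu1 : 7 / 8 * zz n ≤ u := by
    rcases Set.mem_uIcc.1 hu with hu | hu
    · linarith [hu.1]
    · linarith [hu.1]
  apply phi_eq_top hn
  rw [abs_of_nonneg (by linarith : (0 : ℝ) ≤ u)]
  exact hu1

theorem FF_close_top {n : ℕ} (hn : 1 ≤ n) {X : ℝ} (h : |X| ≤ zz n) :
    |FF n X - FF ⊤ X| ≤ cc ⊤ n * zz n := by
  have hz := zz_pos n
  have ha := abs_nonneg X
  have hcn : cc n n = cc ⊤ n := cc_eq_top le_rfl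
  have hc : 0 ≤ cc ⊤ n := cc_nonneg _ _
  have he : FF n (zz n) = FF ⊤ (zz n) := FF_eq_top hn (by
    rw [abs_of_pos hz]; linarith)
  have h1 := FF_sub_le (n : ℕ∞) hn ha h (by linarith)
  have h2 := FF_sub_le ⊤ hn ha h (by linarith)
  have h3 := FF_mono (n : ℕ∞) ha h
  have h4 := FF_mono ⊤ ha h
  rw [FF_abs] at h1 h2 h3 h4
  rw [hcn] at h1
  have h5 : cc ⊤ n * (zz n - |X|) ≤ cc ⊤ n * zz n :=
    mul_le_mul_of_nonneg_left (by linarith) hc
  rw [abs_le]
  constructor <;> linarith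

/-- Near `0` the function `FF ⊤` grows slower than any linear function. -/
theorem FF_top_small {ε : ℝ} (hε : 0 < ε) :
    ∃ r > (0 : ℝ), ∀ X, |X| < r → FF ⊤ X - FF ⊤ 0 ≤ ε * |X| := by
  have h0 : phi ⊤ 0 = 0 := by
    have := phi_neg ⊤ 0
    rw [neg_zero] at this
    linarith
  have h1 := hasDerivAt_FF ⊤ 0
  rw [h0, hasDerivAt_iff_isLittleO] at h1
  have h2 := h1.def hε
  rw [Metric.eventually_nhds_iff] at h2
  obtain ⟨r, hr, h3⟩ := h2
  refine ⟨r, hr, fun X hX => ?_⟩
  have h4 := h3 (y := X) (by rw [Real.dist_eq, sub_zero]; exact hX)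
  simp only [sub_zero, smul_zero, Real.norm_eq_abs] at h4
  exact (le_abs_self _).trans h4

end Pool.Agent.W_MP_654ec6
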