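import Pool.Agent.W_MP_654ec6.C.Line

/-!
# Task C6: convexity of `GG` and estimates of `GG - FF`

`GG_convex`: `GG` is, at every point, attained by an affine minorant (`X ↦ line j X` or
`X ↦ line j (-X)`, `line_le_GG`), except at `0` for `N = ⊤` where it equals `FF`, a convex
minorant (`FF_convex`, `FF_le_GG`). `GG_lip`: the affine minorants have slopes in
`[-1/10, 1/10]` and are attained (at `0`, `N = ⊤`: use `FF_lip`); a convex function which at each
point has a supporting line with slope in `[-1/10, 1/10]` is `1/10`-Lipschitz.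
`sag_edge`: on `[z_{j+1}, z_j]` the function `GG - FF` vanishes at the ends, is concave, and equals
`(cc j - cc (j+1)) / 2 * (X - z_{j+1})` on `[z_{j+1}, 5/4 z_{j+1}]`, similarly on the other side
(`[7/8 z_j, z_j]`).
`sag_mid`: `FF_mid, GG_mid`. `FF_lt_GG`: `sag_edge, sag_far, sag_mid`.
`sag_upper`: `GG - FF = ∫_{z_{j+1}}^X (aa j - phi) ≤ aa j * X ≤ cc j * X` (`j ≥ 1`), `sag_far`
(`j = 0`). `GG_top_small`: for `|X| ∈ [zz (j+1), zz j]`,
`GG ⊤ X ≤ FF ⊤ (zz j) ≤ FF ⊤ 0 + cc ⊤ j zz j ≤ FF ⊤ 0 + 2 cc ⊤ j |X|`.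
-/

open scoped ContDiff Topology
open Filter Real

namespace Pool.Agent.W_MP_654ec6

theorem GFun_line {N : ℕ∞} {j : ℕ} (hj : (j : ℕ∞) < N) (X : ℝ) :
    line N j X = FF N (zz (j + 1)) + aa N j * (X - zz (j + 1)) := by
  have h1 := line_sub N j X (zz (j + 1))
  have h2 := line_at_left hj
  linarith

theorem GFun_support (N : ℕ∞) (hN : 1 ≤ N) (X : ℝ) :
    ∃ m : ℝ, |m| ≤ 1 / 10 ∧ (0 ≤ X → 0 ≤ m) ∧ ∀ Y, GG N X + m * (Y - X) ≤ GG N Y := by
  by_cases h : ∃ j, inEdge N j |X|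
  · obtain ⟨j, hj⟩ := h
    have h1 := GG_eq hj
    have ha0 := aa_nonneg N j
    have ha1 := aa_le N j
    rcases le_or_gt 0 X with hX | hX
    · rw [abs_of_nonneg hX] at h1
      refine ⟨aa N j, by rw [abs_of_nonneg ha0]; exact ha1, fun _ => ha0, fun Y => ?_⟩
      have h2 := line_le_GG hj.1 Y
      have h3 := line_sub N j Y X
      linarith
    · rw [abs_of_neg hX] at h1
      refine ⟨-aa N j, by rw [abs_neg, abs_of_nonneg ha0]; exact ha1,
        fun h => absurd h (not_le.2 hX), fun Y => ?_⟩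
      have h2 := line_le_GG hj.1 (-Y)
      have h3 := line_sub N j (-Y) (-X)
      rw [GG_neg] at h2
      nlinarith
  · have h' : X = 0 ∧ N = ⊤ := by
      by_contra hc
      apply h
      apply exists_inEdge (abs_nonneg X)
      by_cases hX : X = 0
      · right
        intro hT
        exact hc ⟨hX, hT⟩
      · left
        exact abs_ne_zero.2 hX
    obtain ⟨rfl, rfl⟩ := h'
    refine ⟨0, by norm_num, fun _ => le_rfl, fun Y => ?_⟩
    have h2 := FF_zero_le ⊤ Y
    have h3 := FF_le_GG ⊤ hN Y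
    rw [GG_top_zero]
    linarith

theorem GG_convex (N : ℕ∞) (hN : 1 ≤ N) : ConvexOn ℝ Set.univ (GG N) := by
  refine ⟨convex_univ, fun x _ y _ a b ha hb hab => ?_⟩
  obtain ⟨m, -, -, hm⟩ := GFun_support N hN (a • x + b • y)
  have h1 := hm x
  have h2 := hm y
  simp only [smul_eq_mul] at *
  have h3 := mul_le_mul_of_nonneg_left h1 ha
  have h4 := mul_le_mul_of_nonneg_left h2 hb
  have hb' : b = 1 - a := by linarith
  subst hb'
  nlinarith

theorem GG_lip (N : ℕ∞) (hN : 1 ≤ N) (X X' : ℝ) : |GG N X - GG N X'| ≤ 1 / 10 * |X - X'| := by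
  have key : ∀ X X' : ℝ, GG N X - GG N X' ≤ 1 / 10 * |X - X'| := by
    intro X X'
    obtain ⟨m, hm1, -, hm⟩ := GFun_support N hN X
    have h1 := hm X'
    have h2 : m * (X - X') ≤ |m| * |X - X'| := by
      rw [← abs_mul]
      exact le_abs_self _
    have h3 : |m| * |X - X'| ≤ 1 / 10 * |X - X'| :=
      mul_le_mul_of_nonneg_right hm1 (abs_nonneg _)
    linarith
  rw [abs_sub_le_iff]
  refine ⟨key X X', ?_⟩
  have := key X' X
  rwa [abs_sub_comm] at this

theorem GG_continuous (N : ℕ∞) (hN : 1 ≤ N) : Continuous (GG N) := by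
  have h : LipschitzWith (1 / 10) (GG N) := by
    apply LipschitzWith.of_dist_le_mul
    intro X X'
    rw [Real.dist_eq, Real.dist_eq]
    have := GG_lip N hN X X'
    simpa using this
  exact h.continuous

theorem GG_mono (N : ℕ∞) (hN : 1 ≤ N) {X X' : ℝ} (h0 : 0 ≤ X) (h : X ≤ X') :
    GG N X ≤ GG N X' := by
  obtain ⟨m, -, hm0, hm⟩ := GFun_support N hN X
  have h1 := hm X'
  have h2 := mul_nonneg (hm0 h0) (sub_nonneg.2 h)
  linarith

theorem sag_upper {N : ℕ∞} {j : ℕ} {X : ℝ} (hj : (j : ℕ∞) < N) (h : inEdge N j |X|) :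
    GG N X - FF N X ≤ cc N j * |X| := by
  have h1 := GG_eq h
  rw [GFun_line hj] at h1
  have h2 := h.2.1 hj
  have hz := zz_pos (j + 1)
  have h3 := FF_mono N hz.le h2
  rw [FF_abs] at h3
  have h4 := (aa_lt (le_of_lt hj)).le
  have h5 := aa_nonneg N j
  have h6 : aa N j * (|X| - zz (j + 1)) ≤ aa N j * |X| :=
    mul_le_mul_of_nonneg_left (by linarith) h5
  have h7 : aa N j * |X| ≤ cc N j * |X| := mul_le_mul_of_nonneg_right h4 (abs_nonneg X)
  linarith

theorem GFun_inEdge {N : ℕ∞} {j : ℕ} {X : ℝ} (hj : (j : ℕ∞) < N)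
    (hX : zz (j + 1) ≤ X) (hX' : X ≤ zz j) : inEdge N j |X| := by
  have h0 : 0 ≤ X := (zz_pos (j + 1)).le.trans hX
  rw [abs_of_nonneg h0]
  exact ⟨hj.le, fun _ => hX, Or.inr hX'⟩

theorem sag_edge {N : ℕ∞} {j : ℕ} {X : ℝ} (h1 : 1 ≤ j) (hj : (j : ℕ∞) < N)
    (hX : zz (j + 1) ≤ X) (hX' : X ≤ zz j) :
    (cc N j - cc N (j + 1)) / 4 * min (X - zz (j + 1)) (zz j - X) ≤ GG N X - FF N X := by
  have hw := zz_pos (j + 1)
  have h2w : zz j = 2 * zz (j + 1) := by
    rw [zz_succ]; ring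
  have h0 : 0 ≤ X := hw.le.trans hX
  have hG : GG N X = line N j X := by
    have := GG_eq (GFun_inEdge hj hX hX')
    rwa [abs_of_nonneg h0] at this
  have hL := GFun_line hj X
  have haa := aa_of_lt hj
  have hcc : cc N (j + 1) ≤ cc N j := cc_anti N (Nat.le_succ j)
  have hR : line N j X = FF N (zz j) + aa N j * (X - zz j) := by
    have e1 := line_sub N j X (zz j)
    have e2 := line_at_right h1 hj.le
    linarith
  -- lower bounds near the two ends
  have hleft : ∀ Y, zz (j + 1) ≤ Y → Y ≤ 5 / 4 * zz (j + 1) →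
      (cc N j - cc N (j + 1)) / 2 * (Y - zz (j + 1)) ≤ line N j Y - FF N Y := by
    intro Y hY hY'
    have e1 := FF_sub_le N (k := j + 1) (by omega) hw.le hY hY'
    have e2 := GFun_line hj Y
    rw [e2, haa]
    linarith
  have hright : ∀ Y, 7 / 8 * zz j ≤ Y → Y ≤ zz j →
      (cc N j - cc N (j + 1)) / 2 * (zz j - Y) ≤ line N j Y - FF N Y := by
    intro Y hY hY'
    have e1 := le_FF_sub N (k := j) h1 hY hY'
    have e2 := line_sub N j Y (zz j)
    have e3 := line_at_right h1 hj.le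
    rw [haa] at e2
    linarith
  have hmin1 : min (X - zz (j + 1)) (zz j - X) ≤ X - zz (j + 1) := min_le_left _ _
  have hmin2 : min (X - zz (j + 1)) (zz j - X) ≤ zz j - X := min_le_right _ _
  have hmin0 : 0 ≤ min (X - zz (j + 1)) (zz j - X) := le_min (by linarith) (by linarith)
  rw [hG]
  rcases le_or_gt X (5 / 4 * zz (j + 1)) with hc | hc
  · refine le_trans ?_ (hleft X hX hc)
    have : 0 ≤ (cc N j - cc N (j + 1)) := by linarith
    calc (cc N j - cc N (j + 1)) / 4 * min (X - zz (j + 1)) (zz j - X)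
        ≤ (cc N j - cc N (j + 1)) / 4 * (X - zz (j + 1)) := by gcongr
      _ ≤ (cc N j - cc N (j + 1)) / 2 * (X - zz (j + 1)) := by
          have h3 : 0 ≤ X - zz (j + 1) := by linarith
          nlinarith
  rcases le_or_gt (7 / 8 * zz j) X with hd | hd
  · refine le_trans ?_ (hright X hd hX')
    have : 0 ≤ (cc N j - cc N (j + 1)) := by linarith
    calc (cc N j - cc N (j + 1)) / 4 * min (X - zz (j + 1)) (zz j - X)
        ≤ (cc N j - cc N (j + 1)) / 4 * (zz j - X) := by gcongr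
      _ ≤ (cc N j - cc N (j + 1)) / 2 * (zz j - X) := by
          have h3 : 0 ≤ zz j - X := by linarith
          nlinarith
  -- the middle part, by convexity
  have hl := hleft (5 / 4 * zz (j + 1)) (by linarith) le_rfl
  have hr := hright (7 / 8 * zz j) le_rfl (by linarith)
  set w := zz (j + 1) with hwdef
  rw [h2w] at hr hd hX' hmin1 hmin2 hmin0 ⊢
  set D := (cc N j - cc N (j + 1)) with hD
  have hD0 : 0 ≤ D := by rw [hD]; linarith
  obtain ⟨t, ht0, ht1, htX⟩ : ∃ t : ℝ, 0 ≤ t ∧ t ≤ 1 ∧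
      X = (1 - t) * (5 / 4 * w) + t * (7 / 8 * (2 * w)) := by
    refine ⟨(X - 5 / 4 * w) / (w / 2), by apply div_nonneg <;> linarith, ?_, ?_⟩
    · rw [div_le_one (by linarith)]; linarith
    · field_simp
      ring
  have hconv := (FF_convex N).2 (Set.mem_univ (5 / 4 * w)) (Set.mem_univ (7 / 8 * (2 * w)))
    (sub_nonneg.2 ht1) ht0 (by ring)
  simp only [smul_eq_mul] at hconv
  rw [← htX] at hconv
  have hlineX : line N j X = (1 - t) * line N j (5 / 4 * w) + t * line N j (7 / 8 * (2 * w)) := by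
    rw [GFun_line hj, GFun_line hj (5 / 4 * w), GFun_line hj (7 / 8 * (2 * w)), htX]
    ring
  have e1 : (1 - t) * (D / 2 * (5 / 4 * w - w))
      ≤ (1 - t) * (line N j (5 / 4 * w) - FF N (5 / 4 * w)) :=
    mul_le_mul_of_nonneg_left hl (sub_nonneg.2 ht1)
  have e2 : t * (D / 2 * (2 * w - 7 / 8 * (2 * w)))
      ≤ t * (line N j (7 / 8 * (2 * w)) - FF N (7 / 8 * (2 * w))) :=
    mul_le_mul_of_nonneg_left hr ht0
  have e3 : D / 8 * w ≤ line N j X - FF N X := by
    rw [hlineX]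
    nlinarith
  have e4 : min (X - w) (2 * w - X) ≤ w / 2 := by
    have : min (X - w) (2 * w - X) + min (X - w) (2 * w - X) ≤ (X - w) + (2 * w - X) :=
      add_le_add (min_le_left _ _) (min_le_right _ _)
    linarith
  calc D / 4 * min (X - w) (2 * w - X) ≤ D / 4 * (w / 2) := by gcongr
    _ = D / 8 * w := by ring
    _ ≤ _ := e3

theorem sag_far {N : ℕ∞} (hN : 1 ≤ N) {X : ℝ} (h : zz 1 ≤ X) :
    GG N X - FF N X = (aa N 0 - cc N 1) * (X - zz 1) := by
  have h1 := GG_far hN h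
  have h2 := FF_far N (X := X) (by rw [zz_one] at h; linarith)
  rw [h1, h2]
  ring

theorem sag_mid {n : ℕ} (hn : 1 ≤ n) {X : ℝ} (h : |X| ≤ zz n) :
    cc n n / 8 * (zz n - |X|) ≤ GG n X - FF n X := by
  have h1 := GG_mid hn h
  have h2 := FF_mid hn h
  rw [h1]
  exact h2

theorem FF_lt_GG {N : ℕ∞} (hN : 1 ≤ N) {j : ℕ} {X : ℝ} (h : opEdge N j X) : FF N X < GG N X := by
  obtain ⟨h1, h2, h3, h4⟩ := h
  by_cases hj : (j : ℕ∞) < N
  · have h5 := h2 hj
    rcases Nat.eq_zero_or_pos j with hj0 | hj0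
    · subst hj0
      have e := sag_far hN (X := X) (by simpa using h5.le)
      have e1 := lt_aa hj
      have e2 : 0 < (aa N 0 - cc N 1) * (X - zz 1) := by
        apply mul_pos
        · simpa using sub_pos.2 e1
        · simpa using sub_pos.2 h5
      linarith
    · have h6 : X < zz j := by
        rcases h4 with h4 | h4
        · omega
        · exact h4
      have e := sag_edge hj0 hj h5.le h6.le
      have e1 := cc_succ_lt (N := N) hj.le
      have e2 : 0 < (cc N j - cc N (j + 1)) / 4 * min (X - zz (j + 1)) (zz j - X) := by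
        apply mul_pos (by linarith)
        exact lt_min (by linarith) (by linarith)
      linarith
  · have hNj : N = (j : ℕ∞) := le_antisymm (not_lt.1 hj) h1
    subst hNj
    have hj1 : 1 ≤ j := by exact_mod_cast hN
    have h6 : X < zz j := by
      rcases h4 with h4 | h4
      · omega
      · exact h4
    have h5 := h3 hj
    have h7 : |X| < zz j := abs_lt.2 ⟨h5, h6⟩
    have e := sag_mid hj1 h7.le
    have e1 := cc_pos (N := (j : ℕ∞)) (k := j) le_rfl
    have e2 : 0 < cc j j / 8 * (zz j - |X|) := by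
      apply mul_pos (by linarith) (by linarith)
    linarith

theorem GG_eq_top {n : ℕ} (hn : 1 ≤ n) {X : ℝ} (h : zz n ≤ |X|) : GG n X = GG ⊤ X := by
  have hX : |X| ≠ 0 := ((zz_pos n).trans_le h).ne'
  obtain ⟨j, hjn, hj1, hj2⟩ : ∃ j, j < n ∧ zz (j + 1) ≤ |X| ∧ (j = 0 ∨ |X| ≤ zz j) := by
    obtain ⟨j, hj⟩ := exists_inEdge (N := ⊤) (abs_nonneg X) (Or.inl hX)
    have e1 : zz (j + 1) ≤ |X| := hj.2.1 (ENat.natCast_lt_top j)
    rcases lt_or_ge j n with hc | hc
    · exact ⟨j, hc, e1, hj.2.2⟩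
    · have e2 : |X| ≤ zz j := by
        rcases hj.2.2 with h | h
        · omega
        · exact h
      have e3 := zz_anti hc
      obtain ⟨m, rfl⟩ : ∃ m, n = m + 1 := ⟨n - 1, by omega⟩
      refine ⟨m, by omega, h, Or.inr ?_⟩
      exact (e2.trans e3).trans (zz_anti (Nat.le_succ m))
  have hjn' : (j : ℕ∞) < (n : ℕ∞) := by exact_mod_cast hjn
  have hE1 : inEdge n j |X| := ⟨hjn'.le, fun _ => hj1, hj2⟩
  have hE2 : inEdge ⊤ j |X| := ⟨le_top, fun _ => hj1, hj2⟩
  rw [GG_eq hE1, GG_eq hE2, GFun_line hjn', GFun_line (ENat.natCast_lt_top j), aa_eq_top hjn']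
  have hFF : FF n (zz (j + 1)) = FF ⊤ (zz (j + 1)) := by
    apply FF_eq_top hn
    rw [abs_of_pos (zz_pos _)]
    have e1 := zz_anti (show j + 1 ≤ n by omega)
    have e2 := zz_pos n
    linarith
  rw [hFF]

theorem GG_top_le {n : ℕ} (hn : 1 ≤ n) {X : ℝ} (h : |X| ≤ zz n) : GG ⊤ X ≤ FF ⊤ (zz n) := by
  have h1 := GG_mono ⊤ le_top (abs_nonneg X) h
  rw [GG_abs, GG_vertex hn le_top] at h1
  exact h1

/-- Near `0` the function `GG ⊤` grows slower than any linear function. -/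
theorem GG_top_small {ε : ℝ} (hε : 0 < ε) :
    ∃ r > (0 : ℝ), ∀ X, |X| < r → GG ⊤ X - FF ⊤ 0 ≤ ε * |X| := by
  have h1 := (cc_tendsto ⊤).eventually (gt_mem_nhds (show (0 : ℝ) < ε / 2 by linarith))
  obtain ⟨J, hJ⟩ := Filter.eventually_atTop.1 h1
  refine ⟨zz (J + 1), zz_pos _, fun X hX => ?_⟩
  by_cases hX0 : X = 0
  · subst hX0
    rw [GG_top_zero]
    simp
  obtain ⟨j, hj⟩ := exists_inEdge (N := ⊤) (abs_nonneg X) (Or.inl (abs_ne_zero.2 hX0))
  have e1 : zz (j + 1) ≤ |X| := hj.2.1 (ENat.natCast_lt_top j)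
  have hjJ : J + 1 ≤ j := by
    by_contra hc
    have e2 : j + 1 ≤ J + 1 := by omega
    have e3 := zz_anti e2
    linarith
  have e2 : |X| ≤ zz j := by
    rcases hj.2.2 with h | h
    · omega
    · exact h
  have hj1 : 1 ≤ j := by omega
  have e3 := GG_top_le hj1 e2
  have hzj := zz_pos j
  have e4 := FF_sub_le ⊤ (k := j) hj1 le_rfl hzj.le (by linarith)
  have e5 : zz j = 2 * zz (j + 1) := by rw [zz_succ]; ring
  have e6 : cc ⊤ j < ε / 2 := hJ j (by omega)
  have e7 := cc_nonneg ⊤ j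
  have e8 : cc ⊤ j * (zz j - 0) ≤ ε / 2 * (2 * |X|) := by
    apply mul_le_mul e6.le _ (by linarith) (by linarith)
    linarith
  linarith

end Pool.Agent.W_MP_654ec6
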