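import Pool.Agent.W_MP_654ec6.C.FFun

/-!
# Task C5: edges, lines and the polygon function `GG`

`line_at_left, line_at_right`: the line `j` passes through the vertices `j` (if `1 ≤ j`) and `j + 1`
(if `j < N`), by `FF_edge`. `line_unique`: two different closed edges containing `X` are
`j, j + 1` with `X = zz (j + 1)`.
`line_le_GG`: `line i - line (i + 1) = (aa i - aa (i + 1)) (X - zz (i + 1))`, so on the edge `i`
the line `i` is the largest one; for `X < 0` use `aa ≥ 0`; for `X = 0`, `N = ⊤`,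
`line j 0 ≤ line i 0 ≤ FF (zz (i + 1)) → FF 0`.
`FF_le_GG`: `FF` is convex and `line` interpolates it at the ends of the edge (on the unbounded
edge `aa 0 > cc 1`, on the middle edge `FF` is smaller than at its ends).
`GG_right, GG_left, GG_far, GG_mid`: name the edge and use `GG_eq`.
-/

open scoped ContDiff Topology
open Filter Real

namespace Pool.Agent.W_MP_654ec6

theorem Line_succ_le {N : ℕ∞} {j : ℕ} (h : (j : ℕ∞) < N) : ((j + 1 : ℕ) : ℕ∞) ≤ N := by
  rw [Nat.cast_add, Nat.cast_one]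
  exact Order.add_one_le_of_lt h

theorem Line_lt_of_lt {N : ℕ∞} {i j : ℕ} (h : i < j) (hj : (j : ℕ∞) ≤ N) : (i : ℕ∞) < N :=
  lt_of_lt_of_le (Nat.cast_lt.2 h) hj

theorem exists_inEdge {N : ℕ∞} {X : ℝ} (h0 : 0 ≤ X) (h : X ≠ 0 ∨ N ≠ ⊤) : ∃ j, inEdge N j X := by
  classical
  have hex : ∃ j : ℕ, N ≤ (j : ℕ∞) ∨ zz (j + 1) ≤ X := by
    rcases h with h | h
    · have hX : 0 < X := lt_of_le_of_ne h0 (Ne.symm h)
      have h1 := zz_tendsto.eventually (gt_mem_nhds hX)
      rw [eventually_atTop] at h1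
      obtain ⟨j, hj⟩ := h1
      exact ⟨j, Or.inr (hj (j + 1) (Nat.le_succ j)).le⟩
    · lift N to ℕ using h
      exact ⟨N, Or.inl le_rfl⟩
  obtain ⟨m, hm, hmin⟩ : ∃ m : ℕ, (N ≤ (m : ℕ∞) ∨ zz (m + 1) ≤ X) ∧
      ∀ l < m, ¬ (N ≤ (l : ℕ∞) ∨ zz (l + 1) ≤ X) :=
    ⟨Nat.find hex, Nat.find_spec hex, fun l hl => Nat.find_min hex hl⟩
  refine ⟨m, ?_, ?_, ?_⟩
  · rcases Nat.eq_zero_or_pos m with h2 | h2
    · rw [h2, Nat.cast_zero]
      exact zero_le
    · obtain ⟨l, rfl⟩ : ∃ l, m = l + 1 := ⟨m - 1, by omega⟩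
      have h3 := hmin l (Nat.lt_succ_self l)
      push Not at h3
      exact Line_succ_le h3.1
  · intro hlt
    rcases hm with h1 | h1
    · exact absurd hlt (not_lt.2 h1)
    · exact h1
  · rcases Nat.eq_zero_or_pos m with h2 | h2
    · exact Or.inl h2
    · right
      obtain ⟨l, rfl⟩ : ∃ l, m = l + 1 := ⟨m - 1, by omega⟩
      have h3 := hmin l (Nat.lt_succ_self l)
      push Not at h3
      exact h3.2.le

theorem Line_abs_of_lt {N : ℕ∞} {j : ℕ} {X : ℝ} (h : opEdge N j X) (hj : (j : ℕ∞) < N) :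
    |X| = X :=
  abs_of_pos ((zz_pos (j + 1)).trans (h.2.1 hj))

theorem inEdge_of_opEdge {N : ℕ∞} {j : ℕ} {X : ℝ} (h : opEdge N j X) : inEdge N j |X| := by
  by_cases hj : (j : ℕ∞) < N
  · rw [Line_abs_of_lt h hj]
    exact ⟨h.1, fun h' => (h.2.1 h').le, h.2.2.2.imp id le_of_lt⟩
  · refine ⟨h.1, fun h' => absurd h' hj, ?_⟩
    rcases h.2.2.2 with h1 | h1
    · exact Or.inl h1
    · right
      rw [abs_le]
      exact ⟨(h.2.2.1 hj).le, h1.le⟩

/-- An open edge is the only closed edge above its abscissas. -/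
theorem opEdge_unique {N : ℕ∞} {i j : ℕ} {X : ℝ} (h : opEdge N j X) (h' : inEdge N i |X|) :
    i = j := by
  rcases lt_trichotomy i j with hij | hij | hij
  · exfalso
    have h1 := h'.2.1 (Line_lt_of_lt hij h.1)
    have h2 : X < zz j := by
      rcases h.2.2.2 with h3 | h3
      · omega
      · exact h3
    have h3 : zz j ≤ zz (i + 1) := zz_anti hij
    have h4 : |X| < zz j := by
      by_cases hj : (j : ℕ∞) < N
      · rw [Line_abs_of_lt h hj]; exact h2
      · rw [abs_lt]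
        exact ⟨h.2.2.1 hj, h2⟩
    linarith
  · exact hij
  · exfalso
    have hj : (j : ℕ∞) < N := Line_lt_of_lt hij h'.1
    have h1 := h.2.1 hj
    rw [Line_abs_of_lt h hj] at h'
    have h2 : X ≤ zz i := by
      rcases h'.2.2 with h3 | h3
      · omega
      · exact h3
    have h3 : zz i ≤ zz (j + 1) := zz_anti hij
    linarith

/-- Every abscissa belongs (up to sign) to an open edge, or to a vertex, or is `0` with
`N = ⊤`. -/
theorem edge_or_vertex (N : ℕ∞) (hN : 1 ≤ N) (X : ℝ) : (∃ j, opEdge N j |X|) ∨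
    (∃ k : ℕ, 1 ≤ k ∧ (k : ℕ∞) ≤ N ∧ |X| = zz k) ∨ (X = 0 ∧ N = ⊤) := by
  by_cases h0 : X = 0 ∧ N = ⊤
  · exact Or.inr (Or.inr h0)
  · have h1 : |X| ≠ 0 ∨ N ≠ ⊤ := by
      by_contra hc
      push Not at hc
      exact h0 ⟨abs_eq_zero.1 hc.1, hc.2⟩
    obtain ⟨j, hj1, hj2, hj3⟩ := exists_inEdge (abs_nonneg X) h1
    by_cases h2 : (j : ℕ∞) < N ∧ |X| = zz (j + 1)
    · exact Or.inr (Or.inl ⟨j + 1, Nat.succ_le_succ (Nat.zero_le j), Line_succ_le h2.1, h2.2⟩)
    · by_cases h3 : j ≠ 0 ∧ |X| = zz j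
      · exact Or.inr (Or.inl ⟨j, Nat.one_le_iff_ne_zero.2 h3.1, hj1, h3.2⟩)
      · left
        refine ⟨j, hj1, ?_, ?_, ?_⟩
        · intro hlt
          refine lt_of_le_of_ne (hj2 hlt) ?_
          intro he
          exact h2 ⟨hlt, he.symm⟩
        · intro _
          have := zz_pos j
          have := abs_nonneg X
          linarith
        · rcases hj3 with h4 | h4
          · exact Or.inl h4
          · by_cases h5 : j = 0
            · exact Or.inl h5
            · right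
              refine lt_of_le_of_ne h4 ?_
              intro he
              exact h3 ⟨h5, he⟩

theorem line_vert (N : ℕ∞) (j : ℕ) : line N j (zz (vert N j)) = FF N (zz (vert N j)) := by
  unfold line
  ring

theorem Line_vert_lt {N : ℕ∞} {j : ℕ} (hj : (j : ℕ∞) < N) : vert N j = j + 1 := by
  unfold vert
  rw [if_pos hj]

theorem Line_vert_not {N : ℕ∞} {j : ℕ} (hj : ¬ (j : ℕ∞) < N) : vert N j = j := by
  unfold vert
  rw [if_neg hj]

theorem line_at_left {N : ℕ∞} {j : ℕ} (hj : (j : ℕ∞) < N) :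
    line N j (zz (j + 1)) = FF N (zz (j + 1)) := by
  have h := line_vert N j
  rw [Line_vert_lt hj] at h
  exact h

theorem line_sub (N : ℕ∞) (j : ℕ) (X X' : ℝ) : line N j X - line N j X' = aa N j * (X - X') := by
  unfold line
  ring

theorem line_at_right {N : ℕ∞} {j : ℕ} (h1 : 1 ≤ j) (hj : (j : ℕ∞) ≤ N) :
    line N j (zz j) = FF N (zz j) := by
  by_cases hlt : (j : ℕ∞) < N
  · have h2 := line_sub N j (zz j) (zz (j + 1))
    have h3 := line_at_left hlt
    have h4 := FF_edge N h1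
    rw [aa_of_lt hlt] at h2
    linarith
  · have h := line_vert N j
    rw [Line_vert_not hlt] at h
    exact h

theorem Line_unique_aux {N : ℕ∞} {i j : ℕ} {X : ℝ} (hij : i < j) (hi : inEdge N i X)
    (hj : inEdge N j X) : line N i X = line N j X := by
  have hlt : (i : ℕ∞) < N := Line_lt_of_lt hij hj.1
  have h1 := hi.2.1 hlt
  have h2 : X ≤ zz j := by
    rcases hj.2.2 with h3 | h3
    · omega
    · exact h3
  have h3 : zz j ≤ zz (i + 1) := zz_anti hij
  have h4 : j = i + 1 := zz_inj (le_antisymm h3 (h1.trans h2))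
  subst h4
  have h5 : X = zz (i + 1) := le_antisymm h2 h1
  rw [h5, line_at_left hlt, line_at_right (by omega) hj.1]

theorem line_unique {N : ℕ∞} {i j : ℕ} {X : ℝ} (hX : 0 ≤ X) (hi : inEdge N i X)
    (hj : inEdge N j X) : line N i X = line N j X := by
  have _ := hX
  rcases lt_trichotomy i j with hij | hij | hij
  · exact Line_unique_aux hij hi hj
  · rw [hij]
  · exact (Line_unique_aux hij hj hi).symm

theorem GG_eq {N : ℕ∞} {j : ℕ} {X : ℝ} (h : inEdge N j |X|) : GG N X = line N j |X| := by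
  have hex : ∃ j, inEdge N j |X| := ⟨j, h⟩
  unfold GG
  rw [dif_pos hex]
  exact line_unique (abs_nonneg X) (Classical.choose_spec hex) h

theorem GG_neg (N : ℕ∞) (X : ℝ) : GG N (-X) = GG N X := by
  unfold GG
  rw [abs_neg, FF_neg]

theorem GG_abs (N : ℕ∞) (X : ℝ) : GG N |X| = GG N X := by
  rcases abs_choice X with h | h
  · rw [h]
  · rw [h, GG_neg]

theorem GG_top_zero : GG ⊤ 0 = FF ⊤ 0 := by
  unfold GG
  rw [dif_neg]
  rintro ⟨j, hj⟩
  have h1 := hj.2.1 (ENat.natCast_lt_top j)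
  rw [abs_zero] at h1
  exact absurd (zz_pos (j + 1)) (not_lt.2 h1)

theorem Line_step {N : ℕ∞} {i : ℕ} (h : (i : ℕ∞) < N) (X : ℝ) :
    line N i X - line N (i + 1) X = (aa N i - aa N (i + 1)) * (X - zz (i + 1)) := by
  have h1 := line_sub N i X (zz (i + 1))
  have h2 := line_sub N (i + 1) X (zz (i + 1))
  rw [line_at_left h] at h1
  rw [line_at_right (by omega) (Line_succ_le h)] at h2
  linarith

theorem Line_step_le {N : ℕ∞} {i : ℕ} {X : ℝ} (h : (i : ℕ∞) < N) (hX : X ≤ zz (i + 1)) :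
    line N i X ≤ line N (i + 1) X := by
  have h1 := Line_step h X
  have h2 := aa_anti N (Nat.le_succ i)
  have h3 : (aa N i - aa N (i + 1)) * (X - zz (i + 1)) ≤ 0 :=
    mul_nonpos_of_nonneg_of_nonpos (by linarith) (by linarith)
  linarith

theorem Line_step_ge {N : ℕ∞} {i : ℕ} {X : ℝ} (h : (i : ℕ∞) < N) (hX : zz (i + 1) ≤ X) :
    line N (i + 1) X ≤ line N i X := by
  have h1 := Line_step h X
  have h2 := aa_anti N (Nat.le_succ i)
  have h3 : 0 ≤ (aa N i - aa N (i + 1)) * (X - zz (i + 1)) :=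
    mul_nonneg (by linarith) (by linarith)
  linarith

/-- For `X ≤ zz i`, `line j X ≤ line i X` if `j ≤ i`. -/
theorem Line_le_up {N : ℕ∞} {j : ℕ} (i : ℕ) {X : ℝ} (hji : j ≤ i) (hi : (i : ℕ∞) ≤ N)
    (hX : i = j ∨ X ≤ zz i) : line N j X ≤ line N i X := by
  induction i, hji using Nat.le_induction with
  | base => exact le_rfl
  | succ i hji ih =>
    have hX' : X ≤ zz (i + 1) := by
      rcases hX with h | h
      · omega
      · exact h
    have hlt : (i : ℕ∞) < N := Line_lt_of_lt (Nat.lt_succ_self i) hi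
    have h1 := ih hlt.le (Or.inr (hX'.trans (zz_anti (Nat.le_succ i))))
    exact h1.trans (Line_step_le hlt hX')

/-- For `X ≥ zz (i + 1)`, `line j X ≤ line i X` if `i ≤ j`. -/
theorem Line_le_down {N : ℕ∞} {i : ℕ} (j : ℕ) {X : ℝ} (hij : i ≤ j) (hj : (j : ℕ∞) ≤ N)
    (hX : (i : ℕ∞) < N → zz (i + 1) ≤ X) : line N j X ≤ line N i X := by
  induction j, hij using Nat.le_induction with
  | base => exact le_rfl
  | succ j hij ih =>
    have hlt : (j : ℕ∞) < N := Line_lt_of_lt (Nat.lt_succ_self j) hj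
    have hltN : (i : ℕ∞) < N := Line_lt_of_lt (Nat.lt_succ_of_le hij) hj
    have h1 := ih hlt.le
    have h2 : zz (j + 1) ≤ X := (zz_anti (Nat.succ_le_succ hij)).trans (hX hltN)
    exact (Line_step_ge hlt h2).trans h1

theorem Line_le_inEdge {N : ℕ∞} {i j : ℕ} {X : ℝ} (hj : (j : ℕ∞) ≤ N) (hi : inEdge N i X) :
    line N j X ≤ line N i X := by
  rcases le_total j i with h | h
  · apply Line_le_up i h hi.1
    rcases hi.2.2 with h1 | h1
    · left; omega
    · exact Or.inr h1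
  · exact Line_le_down j h hj hi.2.1

theorem line_le_GG {N : ℕ∞} {j : ℕ} (hj : (j : ℕ∞) ≤ N) (X : ℝ) : line N j X ≤ GG N X := by
  have h0 : line N j X ≤ line N j |X| := by
    have h1 := line_sub N j |X| X
    have h2 : 0 ≤ aa N j * (|X| - X) :=
      mul_nonneg (aa_nonneg N j) (by linarith [le_abs_self X])
    linarith
  refine h0.trans ?_
  by_cases h : X = 0 ∧ N = ⊤
  · obtain ⟨rfl, rfl⟩ := h
    rw [GG_top_zero, abs_zero]
    have h1 : Tendsto (fun i : ℕ => FF ⊤ (zz (i + 1))) atTop (𝓝 (FF ⊤ 0)) :=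
      (((FF_contDiff ⊤).continuous.tendsto 0).comp zz_tendsto).comp (tendsto_add_atTop_nat 1)
    refine ge_of_tendsto h1 ?_
    filter_upwards [eventually_ge_atTop j] with i hi
    have h2 : line ⊤ j 0 ≤ line ⊤ i 0 := Line_le_up i hi le_top (Or.inr (zz_pos i).le)
    have h3 := line_sub ⊤ i 0 (zz (i + 1))
    rw [line_at_left (ENat.natCast_lt_top i)] at h3
    have h4 : 0 ≤ aa ⊤ i * zz (i + 1) := mul_nonneg (aa_nonneg _ _) (zz_pos _).le
    linarith
  · have h1 : |X| ≠ 0 ∨ N ≠ ⊤ := by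
      by_contra hc
      push Not at hc
      exact h ⟨abs_eq_zero.1 hc.1, hc.2⟩
    obtain ⟨i, hi⟩ := exists_inEdge (abs_nonneg X) h1
    rw [GG_eq hi]
    exact Line_le_inEdge hj hi

theorem FF_le_GG (N : ℕ∞) (hN : 1 ≤ N) (X : ℝ) : FF N X ≤ GG N X := by
  by_cases h : X = 0 ∧ N = ⊤
  · obtain ⟨rfl, rfl⟩ := h
    rw [GG_top_zero]
  · have h1 : |X| ≠ 0 ∨ N ≠ ⊤ := by
      by_contra hc
      push Not at hc
      exact h ⟨abs_eq_zero.1 hc.1, hc.2⟩
    obtain ⟨i, hi⟩ := exists_inEdge (abs_nonneg X) h1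
    rw [GG_eq hi, ← FF_abs N X]
    have ha := abs_nonneg X
    rcases Nat.eq_zero_or_pos i with h0 | h0
    · subst h0
      have hlt : ((0 : ℕ) : ℕ∞) < N := by
        rw [Nat.cast_zero]
        exact lt_of_lt_of_le zero_lt_one hN
      have h2 := hi.2.1 hlt
      have h3 := line_sub N 0 |X| (zz (0 + 1))
      rw [line_at_left hlt] at h3
      have h4 : FF N |X| = FF N (zz 1) + cc N 1 * (|X| - zz 1) :=
        FF_far N (by rw [zero_add] at h2; rw [zz_one] at h2; linarith)
      have h5 := lt_aa hlt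
      rw [zero_add] at h2 h3 h5
      have h6 : cc N 1 * (|X| - zz 1) ≤ aa N 0 * (|X| - zz 1) :=
        mul_le_mul_of_nonneg_right h5.le (by linarith)
      linarith
    · have hX : |X| ≤ zz i := by
        rcases hi.2.2 with h3 | h3
        · omega
        · exact h3
      by_cases hlt : (i : ℕ∞) < N
      · have h2 := hi.2.1 hlt
        have h3 := line_at_left hlt
        have h4 := line_at_right h0 hi.1
        have hz : zz (i + 1) < zz i := by
          rw [zz_succ]
          linarith [zz_pos i]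
        have hd : 0 < zz i - zz (i + 1) := by linarith
        have hs : (zz i - |X|) / (zz i - zz (i + 1)) +
            (|X| - zz (i + 1)) / (zz i - zz (i + 1)) = 1 := by
          rw [← add_div, div_eq_one_iff_eq hd.ne']
          ring
        have hconv := (FF_convex N).2 (Set.mem_univ (zz (i + 1))) (Set.mem_univ (zz i))
          (div_nonneg (by linarith) hd.le) (div_nonneg (by linarith) hd.le) hs
        have he : ((zz i - |X|) / (zz i - zz (i + 1))) • zz (i + 1) +
            ((|X| - zz (i + 1)) / (zz i - zz (i + 1))) • zz i = |X| := by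
          simp only [smul_eq_mul]
          field_simp
          ring
        rw [he] at hconv
        refine hconv.trans (le_of_eq ?_)
        rw [← h3, ← h4]
        unfold line
        simp only [smul_eq_mul]
        field_simp
        ring
      · have h2 : line N i |X| = FF N (zz i) := by
          unfold line
          rw [Line_vert_not hlt, aa_of_not_lt hlt]
          ring
        rw [h2]
        exact FF_mono N ha hX

theorem Line_inEdge_vertex {N : ℕ∞} {k : ℕ} (hkN : (k : ℕ∞) ≤ N) : inEdge N k (zz k) :=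
  ⟨hkN, fun _ => zz_anti (Nat.le_succ k), Or.inr le_rfl⟩

theorem GG_vertex {N : ℕ∞} {k : ℕ} (hk : 1 ≤ k) (hkN : (k : ℕ∞) ≤ N) :
    GG N (zz k) = FF N (zz k) := by
  have ha : |zz k| = zz k := abs_of_pos (zz_pos k)
  have h : inEdge N k |zz k| := by
    rw [ha]
    exact Line_inEdge_vertex hkN
  rw [GG_eq h, ha, line_at_right hk hkN]

theorem GG_right {N : ℕ∞} {k : ℕ} {X : ℝ} (hk : 1 ≤ k) (hkN : (k : ℕ∞) ≤ N) (h1 : zz k ≤ X)
    (h2 : X ≤ 9 / 8 * zz k) : GG N X = FF N (zz k) + aa N (k - 1) * (X - zz k) := by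
  obtain ⟨m, rfl⟩ : ∃ m, k = m + 1 := ⟨k - 1, by omega⟩
  have hz := zz_pos (m + 1)
  have ha : |X| = X := abs_of_pos (lt_of_lt_of_le hz h1)
  have hlt : (m : ℕ∞) < N := Line_lt_of_lt (Nat.lt_succ_self m) hkN
  have h : inEdge N m |X| := by
    rw [ha]
    refine ⟨hlt.le, fun _ => h1, Or.inr ?_⟩
    have := zz_succ m
    linarith
  rw [GG_eq h, ha]
  have h3 := line_sub N m X (zz (m + 1))
  rw [line_at_left hlt] at h3
  rw [Nat.add_sub_cancel]
  linarith

theorem GG_left {N : ℕ∞} {k : ℕ} {X : ℝ} (hk : 1 ≤ k) (hkN : (k : ℕ∞) ≤ N)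
    (h1 : 7 / 8 * zz k ≤ X) (h2 : X ≤ zz k) :
    GG N X = FF N (zz k) + aa N k * (X - zz k) := by
  have hz := zz_pos k
  have ha : |X| = X := abs_of_pos (by linarith)
  have h : inEdge N k |X| := by
    rw [ha]
    refine ⟨hkN, fun _ => ?_, Or.inr h2⟩
    have := zz_succ k
    linarith
  rw [GG_eq h, ha]
  have h3 := line_sub N k X (zz k)
  rw [line_at_right hk hkN] at h3
  linarith

theorem GG_far {N : ℕ∞} (hN : 1 ≤ N) {X : ℝ} (h : zz 1 ≤ X) :
    GG N X = FF N (zz 1) + aa N 0 * (X - zz 1) := by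
  have hz := zz_pos 1
  have ha : |X| = X := abs_of_pos (by linarith)
  have hlt : ((0 : ℕ) : ℕ∞) < N := by
    rw [Nat.cast_zero]
    exact lt_of_lt_of_le zero_lt_one hN
  have h1 : inEdge N 0 |X| := by
    rw [ha]
    exact ⟨hlt.le, fun _ => h, Or.inl rfl⟩
  rw [GG_eq h1, ha]
  have h3 := line_sub N 0 X (zz (0 + 1))
  rw [line_at_left hlt] at h3
  rw [zero_add] at h3
  linarith

theorem GG_mid {n : ℕ} (hn : 1 ≤ n) {X : ℝ} (h : |X| ≤ zz n) : GG n X = FF n (zz n) := by
  have _ := hn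
  have h1 : inEdge n n |X| := ⟨le_rfl, fun h' => absurd h' (lt_irrefl _), Or.inr h⟩
  rw [GG_eq h1]
  unfold line
  rw [Line_vert_not (lt_irrefl _), aa_of_not_lt (lt_irrefl _)]
  ring

theorem one_le_om (N : ℕ∞) (X : ℝ) : 1 ≤ om N X := by
  unfold om
  split_ifs with h
  · exact one_le_oj N _
  · exact le_rfl

theorem om_le (N : ℕ∞) (X : ℝ) : om N X ≤ 101 / 100 := by
  unfold om
  split_ifs with h
  · exact oj_le N _
  · norm_num

theorem om_neg (N : ℕ∞) (X : ℝ) : om N (-X) = om N X := by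
  unfold om
  rw [abs_neg]

theorem om_eq {N : ℕ∞} {j : ℕ} {X : ℝ} (h : opEdge N j |X|) : om N X = oj N j := by
  have h1 := inEdge_of_opEdge h
  rw [abs_abs] at h1
  have hex : ∃ j, inEdge N j |X| := ⟨j, h1⟩
  unfold om
  rw [dif_pos hex]
  have h2 : Classical.choose hex = j :=
    opEdge_unique h (by rw [abs_abs]; exact Classical.choose_spec hex)
  rw [h2]
  rfl

end Pool.Agent.W_MP_654ec6
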