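import Pool.Agent.W_MP_654ec6.A.Defs
import Pool.Agent.W_MP_654ec6.C.BLoc
import Pool.Agent.W_MP_654ec6.C.Coord

/-!
# Task C10: the metric `gC` is a smooth Riemannian metric; its form in polar coordinates

`qf_gC`: expand the sums. `goodMet_gC`: at a point with `n3 u ≠ 0` the coefficients are smooth
(`contDiffAt_n3`, `bb_contDiffAt` composed with `contDiffAt_pX, contDiffAt_pY`); at a point with
`n3 u = 0` use `gC_edge` (the metric is constant near the point). Positivity: `qf_gC` with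
`bb > 0` and `(y·w)²/|y|² ≤ |w|²`.
`qf_gC_comp`: for a map `θ = (l, s ξ)`: `dl² + ds² = dX² + dY²` (the coordinates `(l, s)` and
`(X, Y)` differ by a rotation and a translation: `pX, pY`), and `|d(s ξ)|² = ds² + s² |dξ|²`.
-/

open scoped ContDiff Topology
open Filter Real

namespace Pool.Agent.W_MP_654ec6

theorem qf_gC_zero (R : ℝ) (N : ℕ∞) (j : ℕ) {u : E4} (h : n3 u = 0) (v : E4) :
    qf (gC R N j u) v = v 0 ^ 2 + v 1 ^ 2 + v 2 ^ 2 + v 3 ^ 2 := by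
  have hB : BC R N j u = 1 := if_pos h
  simp only [qf, gC, hB, sub_self, zero_mul, add_zero, Matrix.of_apply, Fin.sum_univ_four]
  simp
  ring

theorem qf_gC (R : ℝ) (N : ℕ∞) (j : ℕ) {u : E4} (h : n3 u ≠ 0) (v : E4) :
    qf (gC R N j u) v = v 0 ^ 2 + ((u 1 * v 1 + u 2 * v 2 + u 3 * v 3) / n3 u) ^ 2 +
      (bb R N (pX N j u) (pY N j u) / n3 u) ^ 2 * (v 1 ^ 2 + v 2 ^ 2 + v 3 ^ 2 -
        ((u 1 * v 1 + u 2 * v 2 + u 3 * v 3) / n3 u) ^ 2) := by
  have hB : BC R N j u = (bb R N (pX N j u) (pY N j u) / n3 u) ^ 2 := if_neg h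
  simp only [qf, gC, hB, Matrix.of_apply, Fin.sum_univ_four]
  generalize (bb R N (pX N j u) (pY N j u) / n3 u) ^ 2 = B
  simp
  ring

theorem MetC_cs (a b c x y z : ℝ) :
    (a * x + b * y + c * z) ^ 2 ≤ (a ^ 2 + b ^ 2 + c ^ 2) * (x ^ 2 + y ^ 2 + z ^ 2) := by
  nlinarith [sq_nonneg (a * y - b * x), sq_nonneg (a * z - c * x), sq_nonneg (b * z - c * y)]

theorem MetC_cs' {u : E4} (h : n3 u ≠ 0) (v : E4) :
    ((u 1 * v 1 + u 2 * v 2 + u 3 * v 3) / n3 u) ^ 2 ≤ v 1 ^ 2 + v 2 ^ 2 + v 3 ^ 2 := by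
  have h0 : 0 < n3 u ^ 2 := by positivity
  rw [div_pow, div_le_iff₀ h0, n3_sq]
  have h1 := MetC_cs (u 1) (u 2) (u 3) (v 1) (v 2) (v 3)
  linarith [mul_comm (u 1 ^ 2 + u 2 ^ 2 + u 3 ^ 2) (v 1 ^ 2 + v 2 ^ 2 + v 3 ^ 2)]

theorem MetC_ne {v : E4} (hv : v ≠ 0) : 0 < v 0 ^ 2 + v 1 ^ 2 + v 2 ^ 2 + v 3 ^ 2 := by
  by_contra h
  apply hv
  have h0 := sq_nonneg (v 0)
  have h1 := sq_nonneg (v 1)
  have h2 := sq_nonneg (v 2)
  have h3 := sq_nonneg (v 3)
  ext i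
  fin_cases i
  · exact pow_eq_zero_iff (two_ne_zero) |>.1 (by linarith : v 0 ^ 2 = 0)
  · exact pow_eq_zero_iff (two_ne_zero) |>.1 (by linarith : v 1 ^ 2 = 0)
  · exact pow_eq_zero_iff (two_ne_zero) |>.1 (by linarith : v 2 ^ 2 = 0)
  · exact pow_eq_zero_iff (two_ne_zero) |>.1 (by linarith : v 3 ^ 2 = 0)

theorem MetC_coord (i : Fin 4) : ContDiff ℝ ∞ fun u : E4 => u i := by
  fun_prop

theorem MetC_BC {R : ℝ} {N : ℕ∞} {j : ℕ} (hR : 0 < R) (hR' : R ≤ 1 / 8) (hN : 1 ≤ N)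
    (hj : (j : ℕ∞) ≤ N) {u : E4} (hu : u ∈ VC N j) (h : n3 u ≠ 0) :
    ContDiffAt ℝ ∞ (BC R N j) u := by
  have h1 : ContDiffAt ℝ ∞ (fun q : ℝ × ℝ => bb R N q.1 q.2) (pX N j u, pY N j u) :=
    bb_contDiffAt hR hR' hN (mem_VC_of_n3 hj hu h)
  have h2 : ContDiffAt ℝ ∞ (fun w : E4 => (pX N j w, pY N j w)) u :=
    (contDiffAt_pX N j h).prodMk (contDiffAt_pY N j h)
  have h3 : ContDiffAt ℝ ∞ (fun w : E4 => bb R N (pX N j w) (pY N j w)) u :=
    ContDiffAt.comp (f := fun w : E4 => (pX N j w, pY N j w)) u h1 h2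
  have h4 : ContDiffAt ℝ ∞ (fun w : E4 => (bb R N (pX N j w) (pY N j w) / n3 w) ^ 2) u :=
    (h3.div (contDiffAt_n3 h) h).pow 2
  refine h4.congr_of_eventuallyEq ?_
  filter_upwards [continuous_n3.continuousAt.eventually_ne h] with w hw
  exact if_neg hw

theorem MetC_smooth {R : ℝ} {N : ℕ∞} {j : ℕ} (hR : 0 < R) (hR' : R ≤ 1 / 8) (hN : 1 ≤ N)
    (hj : (j : ℕ∞) ≤ N) {u : E4} (hu : u ∈ VC N j) (i k : Fin 4) :
    ContDiffAt ℝ ∞ (fun x => gC R N j x i k) u := by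
  by_cases h : n3 u = 0
  · have h1 : opEdge N j (pX N j u) := by
      rcases hu with h1 | h1
      · exact absurd h (n3_pos hj h1).ne'
      · exact h1.2
    have h2 : ContDiffAt ℝ ∞ (fun _ : E4 => (1 : Matrix (Fin 4) (Fin 4) ℝ) i k) u :=
      contDiffAt_const
    refine h2.congr_of_eventuallyEq ?_
    filter_upwards [gC_edge hR hN hj h h1] with w hw
    rw [hw.2.1]
  · have h1 : ContDiffAt ℝ ∞ (fun w : E4 => w i * w k / n3 w ^ 2) u :=
      (((MetC_coord i).contDiffAt).mul ((MetC_coord k).contDiffAt)).div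
        ((contDiffAt_n3 h).pow 2) (pow_ne_zero 2 h)
    have h2 := MetC_BC hR hR' hN hj hu h
    have h3 : ContDiffAt ℝ ∞ (fun w : E4 => (if i = k then (1 : ℝ) else 0) + (BC R N j w - 1) *
      (if i = 0 ∨ k = 0 then 0 else (if i = k then 1 else 0) - w i * w k / n3 w ^ 2)) u := by
      by_cases hik : i = 0 ∨ k = 0
      · simp only [if_pos hik, mul_zero, add_zero]
        exact contDiffAt_const
      · simp only [if_neg hik]
        exact contDiffAt_const.add ((h2.sub contDiffAt_const).mul (contDiffAt_const.sub h1))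
    exact h3

theorem goodMet_gC {R : ℝ} {N : ℕ∞} {j : ℕ} (hR : 0 < R) (hR' : R ≤ 1 / 8) (hN : 1 ≤ N)
    (hj : (j : ℕ∞) ≤ N) : GoodMet (gC R N j) (VC N j) where
  smooth i k := fun u hu => (MetC_smooth hR hR' hN hj hu i k).contDiffWithinAt
  symm := by
    intro u _ i k
    simp only [gC, Matrix.of_apply]
    simp only [mul_comm (u i) (u k), or_comm (a := i = 0) (b := k = 0), eq_comm (a := i) (b := k)]
  pos := by
    intro u hu v hv
    have hv' := MetC_ne hv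
    by_cases h : n3 u = 0
    · rw [qf_gC_zero R N j h]
      exact hv'
    · rw [qf_gC R N j h]
      have h1 : 0 < bb R N (pX N j u) (pY N j u) / n3 u :=
        div_pos (bb_pos hR hN (mem_VC_of_n3 hj hu h))
          (lt_of_le_of_ne (n3_nonneg u) (Ne.symm h))
      have h2 := MetC_cs' h v
      set t := (u 1 * v 1 + u 2 * v 2 + u 3 * v 3) / n3 u
      set B := bb R N (pX N j u) (pY N j u) / n3 u
      have h3 : 0 ≤ B ^ 2 * (v 1 ^ 2 + v 2 ^ 2 + v 3 ^ 2 - t ^ 2) :=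
        mul_nonneg (sq_nonneg _) (by linarith)
      have h4 : 0 ≤ v 0 ^ 2 := sq_nonneg _
      have h5 : 0 ≤ t ^ 2 := sq_nonneg _
      by_contra hc
      have h6 : B ^ 2 * (v 1 ^ 2 + v 2 ^ 2 + v 3 ^ 2 - t ^ 2) = 0 := by linarith
      have h7 : v 0 ^ 2 = 0 := by linarith
      have h8 : t ^ 2 = 0 := by linarith
      have h9 : v 1 ^ 2 + v 2 ^ 2 + v 3 ^ 2 - t ^ 2 = 0 := by
        rcases mul_eq_zero.1 h6 with h10 | h10
        · exact absurd h10 (pow_pos h1 2).ne'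
        · exact h10
      linarith

theorem MetC_line {F : Type*} [NormedAddCommGroup F] [NormedSpace ℝ F] {f : E4 → F} {x : E4}
    (hf : DifferentiableAt ℝ f x) (v : E4) :
    HasDerivAt (fun s : ℝ => f (x + s • v)) (fderiv ℝ f x v) 0 :=
  hf.hasFDerivAt.hasLineDerivAt v

theorem MetC_line_coord {θ : E4 → E4} {x : E4} (hθ : DifferentiableAt ℝ θ x) (v : E4)
    (i : Fin 4) : HasDerivAt (fun s : ℝ => θ (x + s • v) i) (fderiv ℝ θ x v i) 0 :=
  ((EuclideanSpace.proj i : E4 →L[ℝ] ℝ).hasFDerivAt).comp_hasDerivAt 0 (MetC_line hθ v)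

theorem MetC_line_n3 {θ : E4 → E4} {x : E4} (hθ : DifferentiableAt ℝ θ x) (h : n3 (θ x) ≠ 0)
    (v : E4) : HasDerivAt (fun s : ℝ => n3 (θ (x + s • v)))
      ((θ x 1 * fderiv ℝ θ x v 1 + θ x 2 * fderiv ℝ θ x v 2 + θ x 3 * fderiv ℝ θ x v 3) /
        n3 (θ x)) 0 := by
  have h1 := MetC_line_coord hθ v 1
  have h2 := MetC_line_coord hθ v 2
  have h3 := MetC_line_coord hθ v 3
  have e0 : x + (0 : ℝ) • v = x := by rw [zero_smul, add_zero]
  have h4 := ((h1.pow 2).add (h2.pow 2)).add (h3.pow 2)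
  have h5 : n3 (θ x) ^ 2 ≠ 0 := pow_ne_zero 2 h
  have h6 := h4.sqrt (by
    simp only [Pi.add_apply, Pi.pow_apply, e0]
    rw [← n3_sq]
    exact h5)
  refine h6.congr_deriv ?_
  simp only [Pi.add_apply, Pi.pow_apply, e0]
  have h7 : Real.sqrt (θ x 1 ^ 2 + θ x 2 ^ 2 + θ x 3 ^ 2) = n3 (θ x) := rfl
  rw [h7]
  field_simp
  ring

/-- The pull-back of the ambient metric by an arbitrary map. -/
theorem qf_gC_comp (R : ℝ) (N : ℕ∞) (j : ℕ) {θ : E4 → E4} {x : E4}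
    (hθ : DifferentiableAt ℝ θ x) (h : n3 (θ x) ≠ 0) (v : E4) :
    qf (gC R N j (θ x)) (fderiv ℝ θ x v) =
      (fderiv ℝ (fun y => pX N j (θ y)) x v) ^ 2 + (fderiv ℝ (fun y => pY N j (θ y)) x v) ^ 2 +
      bb R N (pX N j (θ x)) (pY N j (θ x)) ^ 2 *
        ((fderiv ℝ (fun y => θ y 1 / n3 (θ y)) x v) ^ 2 +
          (fderiv ℝ (fun y => θ y 2 / n3 (θ y)) x v) ^ 2 +
          (fderiv ℝ (fun y => θ y 3 / n3 (θ y)) x v) ^ 2) := by
  have e0 : x + (0 : ℝ) • v = x := by rw [zero_smul, add_zero]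
  have hn := MetC_line_n3 hθ h v
  have hnd : DifferentiableAt ℝ (fun y => n3 (θ y)) x :=
    ((contDiffAt_n3 h).differentiableAt (by simp)).comp x hθ
  set t := (θ x 1 * fderiv ℝ θ x v 1 + θ x 2 * fderiv ℝ θ x v 2 + θ x 3 * fderiv ℝ θ x v 3) /
        n3 (θ x) with ht
  have hX : fderiv ℝ (fun y => pX N j (θ y)) x v = (fderiv ℝ θ x v 0 - aa N j * t) / oj N j := by
    have h1 : DifferentiableAt ℝ (fun y => pX N j (θ y)) x :=
      ((contDiffAt_pX N j h).differentiableAt (by simp)).comp x hθ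
    have h2 := MetC_line h1 v
    have h3 := (((MetC_line_coord hθ v 0).sub (hn.const_mul (aa N j))).div_const
      (oj N j)).const_add (OX N j)
    exact h2.unique h3
  have hY : fderiv ℝ (fun y => pY N j (θ y)) x v = (aa N j * fderiv ℝ θ x v 0 + t) / oj N j := by
    have h1 : DifferentiableAt ℝ (fun y => pY N j (θ y)) x :=
      ((contDiffAt_pY N j h).differentiableAt (by simp)).comp x hθ
    have h2 := MetC_line h1 v
    have h3 := ((((MetC_line_coord hθ v 0).const_mul (aa N j)).add hn).div_const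
      (oj N j)).const_add (OY N j)
    exact h2.unique h3
  have hc : ∀ i : Fin 4, fderiv ℝ (fun y => θ y i / n3 (θ y)) x v =
      (fderiv ℝ θ x v i * n3 (θ x) - θ x i * t) / n3 (θ x) ^ 2 := by
    intro i
    have h0 : DifferentiableAt ℝ (fun y => θ y i) x :=
      ((MetC_coord i).differentiable (by simp)).differentiableAt.comp x hθ
    have h1 : DifferentiableAt ℝ (fun y => θ y i / n3 (θ y)) x := by
      have h1' := DifferentiableAt.fun_mul h0 (hnd.inv h)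
      simp only [div_eq_mul_inv]
      exact h1'
    have h2 := MetC_line h1 v
    have h3 := (MetC_line_coord hθ v i).div hn (by rw [e0]; exact h)
    have h4 := h2.unique h3
    rw [e0] at h4
    exact h4
  have hoj : oj N j ^ 2 = 1 + aa N j ^ 2 := by
    unfold oj
    exact Real.sq_sqrt (by positivity)
  have hoj0 : oj N j ≠ 0 := by
    intro h1
    rw [h1] at hoj
    nlinarith [sq_nonneg (aa N j)]
  rw [qf_gC R N j h, hX, hY, hc, hc, hc, ← ht]
  have hs := n3_sq (θ x)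
  have ht' : t * n3 (θ x) = θ x 1 * fderiv ℝ θ x v 1 + θ x 2 * fderiv ℝ θ x v 2 +
      θ x 3 * fderiv ℝ θ x v 3 := by
    rw [ht, div_mul_cancel₀ _ h]
  generalize bb R N (pX N j (θ x)) (pY N j (θ x)) = B
  generalize fderiv ℝ θ x v 0 = w0 at *
  generalize fderiv ℝ θ x v 1 = w1 at *
  generalize fderiv ℝ θ x v 2 = w2 at *
  generalize fderiv ℝ θ x v 3 = w3 at *
  generalize θ x 1 = u1 at *
  generalize θ x 2 = u2 at *
  generalize θ x 3 = u3 at *
  generalize n3 (θ x) = r at *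
  generalize oj N j = o at *
  generalize aa N j = a at *
  clear_value t
  have k1 : ((w0 - a * t) / o) ^ 2 + ((a * w0 + t) / o) ^ 2 = w0 ^ 2 + t ^ 2 := by
    field_simp
    rw [hoj]
    ring
  have k2 : ((w1 * r - u1 * t) / r ^ 2) ^ 2 + ((w2 * r - u2 * t) / r ^ 2) ^ 2 +
      ((w3 * r - u3 * t) / r ^ 2) ^ 2 = (w1 ^ 2 + w2 ^ 2 + w3 ^ 2 - t ^ 2) / r ^ 2 := by
    field_simp
    have k3 : (w1 * r - u1 * t) ^ 2 + (w2 * r - u2 * t) ^ 2 + (w3 * r - u3 * t) ^ 2 =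
        (w1 ^ 2 + w2 ^ 2 + w3 ^ 2) * r ^ 2 - 2 * (r * t) * (u1 * w1 + u2 * w2 + u3 * w3) +
          (u1 ^ 2 + u2 ^ 2 + u3 ^ 2) * t ^ 2 := by ring
    linear_combination k3 + 2 * (r * t) * ht' - t ^ 2 * hs
  rw [k1, k2]
  ring

end Pool.Agent.W_MP_654ec6
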