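import Pool.Agent.W_MP_654ec6.C.Seq

/-!
# Task C3: the function `phi`

`0 ≤ cc N (k+1) - cc N (k+2) ≤ (1/2)^((k+1)^2)`.
`phi_contDiff`: `contDiff_tsum`: the `m`-th derivative of `hh k` is bounded by
`2 * (2 ^ (k + 2)) ^ m * C m` with `C m` a bound of the `m`-th derivative of
`Real.smoothTransition` (constant outside `[0, 1]`, so the derivatives of order `≥ 1` have compact
support), and `∑ (1/2)^(k^2) (2 ^ (k+2))^m < ∞`.
`phi_vertex`: for `7/8 zz k ≤ X ≤ 5/4 zz k = 5/8 zz (k-1)` the terms with index `i ≥ k` have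
`hh i X = 1`, the others vanish, and the sum telescopes to `cc N k` (`cc_tendsto`).
`phi_symm`: put `X' = zz j + zz (j+1) - X = 3/2 zz j - X`; `hh j X + hh j X' = 1` by
`hh_symm`, `hh i X = hh i X' = 1` for `i > j` and `= 0` for `i < j`.
-/

open scoped ContDiff Topology
open Filter Real

namespace Pool.Agent.W_MP_654ec6

theorem Phi_diff_nonneg (N : ℕ∞) (k : ℕ) : 0 ≤ cc N (k + 1) - cc N (k + 2) :=
  sub_nonneg.2 (cc_anti N (Nat.le_succ (k + 1)))

theorem Phi_diff_le (N : ℕ∞) (k : ℕ) : cc N (k + 1) - cc N (k + 2) ≤ (1 / 2) ^ ((k + 1) ^ 2) := by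
  have h1 := cc_le' N (k + 1)
  have h2 := cc_nonneg N (k + 2)
  have h3 : (0 : ℝ) ≤ (1 / 2) ^ ((k + 1) ^ 2) := by positivity
  linarith

theorem Phi_pow_le (m k : ℕ) :
    ((1 : ℝ) / 2) ^ ((k + 1) ^ 2) * (2 ^ (k + 3)) ^ m ≤ 2 ^ (m ^ 2 + 3 * m) * (1 / 2) ^ k := by
  have h1 : (2 : ℝ) ^ ((k + 3) * m + k) ≤ 2 ^ (m ^ 2 + 3 * m + (k + 1) ^ 2) := by
    apply pow_le_pow_right₀ (by norm_num)
    have : k * m ≤ m ^ 2 + k ^ 2 := by
      rcases le_total k m with h | h
      · nlinarith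
      · nlinarith
    nlinarith
  rw [pow_add, pow_add] at h1
  have h2 : ((1 : ℝ) / 2) ^ ((k + 1) ^ 2) = (2 ^ ((k + 1) ^ 2))⁻¹ := by
    rw [one_div, inv_pow]
  have h3 : ((1 : ℝ) / 2) ^ k = (2 ^ k)⁻¹ := by
    rw [one_div, inv_pow]
  rw [h2, h3, ← pow_mul]
  have p1 : (0 : ℝ) < 2 ^ ((k + 1) ^ 2) := by positivity
  have p2 : (0 : ℝ) < 2 ^ k := by positivity
  rw [inv_mul_le_iff₀ p1, ← mul_assoc, le_mul_inv_iff₀ p2]
  linarith

theorem Phi_summable_bound (N : ℕ∞) (m : ℕ) (C : ℝ) (hC : 0 ≤ C) :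
    Summable fun k : ℕ => (cc N (k + 1) - cc N (k + 2)) * ((2 ^ (k + 3)) ^ m * C) := by
  have hs : Summable fun k : ℕ => (2 ^ (m ^ 2 + 3 * m) * C) * ((1 : ℝ) / 2) ^ k :=
    (summable_geometric_of_lt_one (by norm_num) (by norm_num)).mul_left _
  refine Summable.of_nonneg_of_le (fun k => ?_) (fun k => ?_) hs
  · have := Phi_diff_nonneg N k
    positivity
  · have h1 := Phi_diff_le N k
    have h2 := Phi_pow_le m k
    calc (cc N (k + 1) - cc N (k + 2)) * ((2 ^ (k + 3)) ^ m * C)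
        ≤ (1 / 2) ^ ((k + 1) ^ 2) * ((2 ^ (k + 3)) ^ m * C) :=
          mul_le_mul_of_nonneg_right h1 (by positivity)
      _ = ((1 / 2) ^ ((k + 1) ^ 2) * (2 ^ (k + 3)) ^ m) * C := by ring
      _ ≤ (2 ^ (m ^ 2 + 3 * m) * (1 / 2) ^ k) * C := mul_le_mul_of_nonneg_right h2 hC
      _ = (2 ^ (m ^ 2 + 3 * m) * C) * (1 / 2) ^ k := by ring

theorem phi_summable (N : ℕ∞) (X : ℝ) :
    Summable fun k : ℕ => (cc N (k + 1) - cc N (k + 2)) * hh (k + 1) X := by
  have h := Phi_summable_bound N 0 1 zero_le_one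
  refine Summable.of_norm_bounded h (fun k => ?_)
  have h1 := Phi_diff_nonneg N k
  rw [norm_mul, Real.norm_eq_abs, Real.norm_eq_abs, abs_of_nonneg h1]
  have h2 := abs_hh_le (k + 1) X
  apply mul_le_mul_of_nonneg_left _ h1
  simpa using h2

/-- The model of the step functions. -/
noncomputable def PhiG (y : ℝ) : ℝ :=
  Real.smoothTransition (y - 5 / 2) - Real.smoothTransition (-y - 5 / 2)

theorem Phi_hh_eq (k : ℕ) : hh k = fun X => PhiG (2 ^ (k + 2) * X) := rfl

theorem PhiG_contDiff {n : ℕ∞} : ContDiff ℝ n PhiG := by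
  unfold PhiG
  exact (Real.smoothTransition.contDiff.comp (contDiff_id.sub contDiff_const)).sub
    (Real.smoothTransition.contDiff.comp (contDiff_id.neg.sub contDiff_const))

theorem PhiG_of_ge {y : ℝ} (h : 7 / 2 ≤ y) : PhiG y = 1 := by
  unfold PhiG
  rw [Real.smoothTransition.one_of_one_le (by linarith),
    Real.smoothTransition.zero_of_nonpos (by linarith), sub_zero]

theorem PhiG_of_le {y : ℝ} (h : y ≤ -(7 / 2)) : PhiG y = -1 := by
  unfold PhiG
  rw [Real.smoothTransition.zero_of_nonpos (by linarith),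
    Real.smoothTransition.one_of_one_le (by linarith), zero_sub]

theorem PhiG_abs_le (y : ℝ) : |PhiG y| ≤ 1 := by
  unfold PhiG
  rw [abs_le]
  have h1 := Real.smoothTransition.nonneg (y - 5 / 2)
  have h2 := Real.smoothTransition.nonneg (-y - 5 / 2)
  have h3 := Real.smoothTransition.le_one (y - 5 / 2)
  have h4 := Real.smoothTransition.le_one (-y - 5 / 2)
  constructor <;> linarith

theorem PhiG_bound (m : ℕ) : ∃ C : ℝ, 0 ≤ C ∧ ∀ y, ‖iteratedDeriv m PhiG y‖ ≤ C := by
  rcases Nat.eq_zero_or_pos m with rfl | hm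
  · refine ⟨1, zero_le_one, fun y => ?_⟩
    rw [iteratedDeriv_zero, Real.norm_eq_abs]
    exact PhiG_abs_le y
  · have hc : Continuous (iteratedDeriv m PhiG) :=
      (PhiG_contDiff (n := m)).continuous_iteratedDeriv m le_rfl
    obtain ⟨C, hC⟩ := (isCompact_Icc (a := (-4 : ℝ)) (b := 4)).exists_bound_of_continuousOn
      hc.continuousOn
    refine ⟨max C 0, le_max_right _ _, fun y => ?_⟩
    by_cases hy : y ∈ Set.Icc (-4 : ℝ) 4
    · exact (hC y hy).trans (le_max_left _ _)
    · have hz : iteratedDeriv m PhiG y = 0 := by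
        rw [Set.mem_Icc, not_and_or, not_le, not_le] at hy
        rcases hy with hy | hy
        · have he : PhiG =ᶠ[𝓝 y] fun _ => (-1 : ℝ) := by
            filter_upwards [Iio_mem_nhds hy] with z hz
            exact PhiG_of_le (by have : z < -4 := hz; linarith)
          rw [he.iteratedDeriv_eq]
          simp [iteratedDeriv_const, hm.ne']
        · have he : PhiG =ᶠ[𝓝 y] fun _ => (1 : ℝ) := by
            filter_upwards [Ioi_mem_nhds hy] with z hz
            exact PhiG_of_ge (by have : (4 : ℝ) < z := hz; linarith)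
          rw [he.iteratedDeriv_eq]
          simp [iteratedDeriv_const, hm.ne']
      rw [hz, norm_zero]
      exact le_max_right _ _

theorem phi_contDiff (N : ℕ∞) : ContDiff ℝ ∞ (phi N) := by
  choose C hC0 hC using PhiG_bound
  have key := contDiff_tsum (𝕜 := ℝ) (N := (⊤ : ℕ∞))
    (f := fun (k : ℕ) (X : ℝ) => (cc N (k + 1) - cc N (k + 2)) * hh (k + 1) X)
    (v := fun m k => (cc N (k + 1) - cc N (k + 2)) * ((2 ^ (k + 3)) ^ m * C m))
    (fun k => contDiff_const.mul (hh_contDiff (k + 1)))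
    (fun m _ => Phi_summable_bound N m (C m) (hC0 m))
    (fun m k X _ => by
      have h0 : ContDiffAt ℝ m (fun X => PhiG (2 ^ (k + 1 + 2) * X)) X :=
        (PhiG_contDiff.comp (contDiff_const.mul contDiff_id)).contDiffAt
      rw [norm_iteratedFDeriv_eq_norm_iteratedDeriv, Phi_hh_eq]
      have h1 : iteratedDeriv m (fun X => (cc N (k + 1) - cc N (k + 2)) *
          PhiG (2 ^ (k + 1 + 2) * X)) X =
          (cc N (k + 1) - cc N (k + 2)) * ((2 ^ (k + 1 + 2)) ^ m *
            iteratedDeriv m PhiG (2 ^ (k + 1 + 2) * X)) := by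
        rw [iteratedDeriv_const_mul (cc N (k + 1) - cc N (k + 2)) h0]
        rw [iteratedDeriv_comp_const_mul PhiG_contDiff]
      show ‖iteratedDeriv m (fun X => (cc N (k + 1) - cc N (k + 2)) *
          PhiG (2 ^ (k + 1 + 2) * X)) X‖ ≤ _
      rw [h1, norm_mul, norm_mul]
      have h2 := Phi_diff_nonneg N k
      rw [Real.norm_of_nonneg h2, Real.norm_of_nonneg (by positivity :
        (0 : ℝ) ≤ (2 ^ (k + 1 + 2)) ^ m)]
      exact mul_le_mul_of_nonneg_left (mul_le_mul_of_nonneg_left (hC m _) (by positivity)) h2)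
  exact key

theorem phi_neg (N : ℕ∞) (X : ℝ) : phi N (-X) = -phi N X := by
  unfold phi
  rw [← tsum_neg]
  congr 1
  funext k
  rw [hh_neg]
  ring

theorem phi_mono (N : ℕ∞) : Monotone (phi N) := by
  intro X Y h
  exact (phi_summable N X).tsum_le_tsum
    (fun k => mul_le_mul_of_nonneg_left (hh_mono (k + 1) h) (Phi_diff_nonneg N k))
    (phi_summable N Y)

theorem Phi_hh_zero (k : ℕ) : hh k 0 = 0 := by
  apply hh_eq_zero
  rw [abs_zero]
  have := zz_pos k
  positivity

theorem phi_nonneg (N : ℕ∞) {X : ℝ} (h : 0 ≤ X) : 0 ≤ phi N X := by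
  apply tsum_nonneg
  intro k
  apply mul_nonneg (Phi_diff_nonneg N k)
  rw [← Phi_hh_zero (k + 1)]
  exact hh_mono (k + 1) h

theorem Phi_tel (N : ℕ∞) {k : ℕ} (hk : 1 ≤ k) :
    HasSum (fun n : ℕ => if k ≤ n + 1 then cc N (n + 1) - cc N (n + 2) else 0) (cc N k) := by
  rw [hasSum_iff_tendsto_nat_of_nonneg]
  · have h1 : ∀ n : ℕ, ∑ i ∈ Finset.range n,
        (if k ≤ i + 1 then cc N (i + 1) - cc N (i + 2) else 0) =
        cc N k - cc N (max k (n + 1)) := by
      intro n
      induction n with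
      | zero => simp [max_eq_left hk]
      | succ n ih =>
        rw [Finset.sum_range_succ, ih]
        split_ifs with h
        · rw [max_eq_right h, max_eq_right (h.trans (Nat.le_succ _))]
          ring
        · rw [max_eq_left (by omega), max_eq_left (by omega)]
          ring
    simp_rw [h1]
    have h2 : Tendsto (fun n : ℕ => cc N (max k (n + 1))) atTop (𝓝 0) := by
      refine (cc_tendsto N).comp ?_
      refine tendsto_atTop_mono (fun n => ?_) (tendsto_add_atTop_nat 1)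
      exact le_max_right _ _
    simpa using tendsto_const_nhds.sub h2
  · intro n
    split_ifs
    · exact Phi_diff_nonneg N n
    · exact le_rfl

theorem phi_vertex {N : ℕ∞} {k : ℕ} {X : ℝ} (hk : 1 ≤ k) (h1 : 7 / 8 * zz k ≤ X)
    (h2 : X ≤ 5 / 4 * zz k) : phi N X = cc N k := by
  rw [← (Phi_tel N hk).tsum_eq]
  unfold phi
  congr 1
  funext n
  have hz := zz_pos k
  split_ifs with h
  · rw [hh_eq_one, mul_one]
    have := zz_anti h
    linarith
  · rw [hh_eq_zero, mul_zero]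
    rw [abs_of_nonneg (by linarith)]
    have h3 : n + 1 + 1 ≤ k := by omega
    have h4 := zz_anti h3
    rw [zz_succ] at h4
    linarith

theorem phi_far {N : ℕ∞} {X : ℝ} (h : 7 / 16 ≤ X) : phi N X = cc N 1 := by
  rw [← (Phi_tel N le_rfl).tsum_eq]
  unfold phi
  congr 1
  funext n
  rw [if_pos (by omega), hh_eq_one, mul_one]
  have h1 := zz_anti (show 1 ≤ n + 1 by omega)
  rw [zz_one] at h1
  linarith

theorem phi_le {N : ℕ∞} {k : ℕ} {X : ℝ} (hk : 1 ≤ k) (h : X ≤ 5 / 4 * zz k) :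
    phi N X ≤ cc N k := by
  have hz := zz_pos k
  exact (phi_mono N h).trans (phi_vertex hk (by linarith) le_rfl).le

theorem le_phi {N : ℕ∞} {k : ℕ} {X : ℝ} (hk : 1 ≤ k) (h : 7 / 8 * zz k ≤ X) :
    cc N k ≤ phi N X := by
  have hz := zz_pos k
  exact (phi_vertex (N := N) hk le_rfl (by linarith)).ge.trans (phi_mono N h)

theorem Phi_le_aux (N : ℕ∞) (X : ℝ) : phi N X ≤ 1 / 20 :=
  (phi_mono N (le_max_left X (7 / 16))).trans
    ((phi_far (le_max_right X (7 / 16))).le.trans (cc_succ_le' N 0))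

theorem abs_phi_le (N : ℕ∞) (X : ℝ) : |phi N X| ≤ 1 / 20 := by
  rw [abs_le]
  have h1 := Phi_le_aux N X
  have h2 := Phi_le_aux N (-X)
  rw [phi_neg] at h2
  constructor <;> linarith

theorem phi_eq_zero {n : ℕ} {X : ℝ} (h : |X| ≤ 5 / 8 * zz n) : phi n X = 0 := by
  unfold phi
  have : ∀ k : ℕ, (cc n (k + 1) - cc n (k + 2)) * hh (k + 1) X = 0 := by
    intro k
    by_cases hk : k + 1 ≤ n
    · rw [hh_eq_zero, mul_zero]
      have := zz_anti hk
      linarith
    · rw [cc_of_not_le, cc_of_not_le, sub_zero, zero_mul]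
      · exact_mod_cast (by omega : ¬ (k + 2 ≤ n))
      · exact_mod_cast hk
  simp_rw [this]
  exact tsum_zero

theorem Phi_eq_top_aux {n : ℕ} (hn : 1 ≤ n) {X : ℝ} (h : 7 / 8 * zz n ≤ X) :
    phi n X = phi ⊤ X := by
  have key : ∀ N : ℕ∞, phi N X = cc N n +
      ∑' k : ℕ, (if n ≤ k + 1 then 0 else (cc N (k + 1) - cc N (k + 2)) * hh (k + 1) X) := by
    intro N
    have hs : Summable fun k : ℕ =>
        (if n ≤ k + 1 then 0 else (cc N (k + 1) - cc N (k + 2)) * hh (k + 1) X) := by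
      refine Summable.of_norm_bounded (phi_summable N X).norm (fun k => ?_)
      split_ifs
      · rw [norm_zero]
        exact norm_nonneg _
      · exact le_rfl
    rw [← (Phi_tel N hn).tsum_eq, ← (Phi_tel N hn).summable.tsum_add hs]
    unfold phi
    congr 1
    funext k
    split_ifs with hk
    · rw [hh_eq_one]
      · ring
      · have := zz_anti hk
        linarith
    · ring
  rw [key, key, cc_eq_top (N := (n : ℕ∞)) (k := n) le_rfl]
  congr 2
  funext k
  split_ifs with hk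
  · rfl
  · rw [cc_eq_top (N := (n : ℕ∞)) (k := k + 1) (by exact_mod_cast (by omega : k + 1 ≤ n)),
      cc_eq_top (N := (n : ℕ∞)) (k := k + 2) (by exact_mod_cast (by omega : k + 2 ≤ n))]

theorem phi_eq_top {n : ℕ} (hn : 1 ≤ n) {X : ℝ} (h : 7 / 8 * zz n ≤ |X|) :
    phi n X = phi ⊤ X := by
  rcases le_total 0 X with hX | hX
  · rw [abs_of_nonneg hX] at h
    exact Phi_eq_top_aux hn h
  · rw [abs_of_nonpos hX] at h
    have := Phi_eq_top_aux hn h
    rw [phi_neg, phi_neg, neg_inj] at this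
    exact this

theorem phi_symm {N : ℕ∞} {j : ℕ} {X : ℝ} (hj : 1 ≤ j) (h1 : zz (j + 1) ≤ X) (h2 : X ≤ zz j) :
    phi N X + phi N (zz j + zz (j + 1) - X) = cc N j + cc N (j + 1) := by
  have hz := zz_pos j
  have hs := zz_succ j
  rw [← (Phi_tel N hj).tsum_eq, ← (Phi_tel N (Nat.le_add_left 1 j)).tsum_eq,
    ← (Phi_tel N hj).summable.tsum_add (Phi_tel N (Nat.le_add_left 1 j)).summable]
  unfold phi
  rw [← (phi_summable N X).tsum_add (phi_summable N _)]
  congr 1
  funext i
  rcases lt_trichotomy (i + 1) j with h | h | h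
  · rw [if_neg (by omega), if_neg (by omega), hh_eq_zero, hh_eq_zero]
    · ring
    · rw [abs_of_nonneg (by linarith)]
      have h3 := zz_anti (show i + 1 + 1 ≤ j by omega)
      rw [zz_succ (i + 1)] at h3
      have := zz_pos (i + 1)
      linarith
    · rw [abs_of_nonneg (by linarith)]
      have h3 := zz_anti (show i + 1 + 1 ≤ j by omega)
      rw [zz_succ (i + 1)] at h3
      have := zz_pos (i + 1)
      linarith
  · rw [if_pos (by omega), if_neg (by omega), h]
    have h3 : zz j + zz (j + 1) - X = 3 / 2 * zz j - X := by rw [hs]; ring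
    have h4 := hh_symm (k := j) (X := X) (by linarith) (by linarith)
    rw [h3, ← mul_add, h4]
    ring
  · rw [if_pos (by omega), if_pos (by omega), hh_eq_one, hh_eq_one]
    · ring
    · have h3 := zz_anti (show j + 1 ≤ i + 1 by omega)
      linarith
    · have h3 := zz_anti (show j + 1 ≤ i + 1 by omega)
      have := zz_pos (j + 1)
      linarith

end Pool.Agent.W_MP_654ec6
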