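import Pool.Agent.W_MP_654ec6.A.Warp
import Pool.Agent.W_MP_654ec6.C.BLoc

/-!
# Task C11: the ambient metric in spherical coordinates has `Ric ≥ 0`

In the coordinates `(l, s, θ, φ)` the ambient metric is `warpMet 1 b`, `b l s = bt R N j l s`.
By `ricq_warp` with `A = 1`:
`Ric(v,v) = -(2/b) (b_tt v0² + 2 b_tx v0 v1 + b_xx v1²) + Rss (...)`,
`Rss = -(b_tt + b_xx)/b + (1 - b_t² - b_x²)/b² ≥ 0`; the Hessian of `b` is nonpositive by `bb_hess`
(the second derivative along the line with direction `(v, w)` in the coordinates `(l, s)` is the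
second derivative of `bb` along the line with direction
`((v - a w)/oj, (a v + w)/oj)`), the gradient has norm `≤ 1` by `bb_grad` (apply it to the
directions `(1, -a)/oj`... or: a linear form `L` on `ℝ²` with `L(v,w)² ≤ v² + w²` for all
`(v, w)`, composed with a rotation, has coefficients with `L₁² + L₂² ≤ 1`: take
`(v, w) = (L₁, L₂)`).
-/

open scoped ContDiff Topology
open Filter Real

namespace Pool.Agent.W_MP_654ec6

/-- The fibre radius in the coordinates `(l, s)`. -/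
noncomputable def bt (R : ℝ) (N : ℕ∞) (j : ℕ) (l s : ℝ) : ℝ :=
  bb R N (OX N j + (l - aa N j * s) / oj N j) (OY N j + (aa N j * l + s) / oj N j)

/-- The domain of the coordinates `(l, s)`. -/
def UC (N : ℕ∞) (j : ℕ) : Set (ℝ × ℝ) :=
  {q | 0 < q.2 ∧ GG N (OX N j + (q.1 - aa N j * q.2) / oj N j) <
    OY N j + (aa N j * q.1 + q.2) / oj N j}

/-- The affine map from the coordinates `(l, s)` to the coordinates `(X, Y)`. -/
noncomputable def WarpC_map (N : ℕ∞) (j : ℕ) (q : ℝ × ℝ) : ℝ × ℝ :=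
  (OX N j + (q.1 - aa N j * q.2) / oj N j, OY N j + (aa N j * q.1 + q.2) / oj N j)

theorem WarpC_map_contDiff (N : ℕ∞) (j : ℕ) : ContDiff ℝ ∞ (WarpC_map N j) := by
  unfold WarpC_map
  refine ContDiff.prodMk ?_ ?_
  · exact contDiff_const.add ((contDiff_fst.sub (contDiff_const.mul contDiff_snd)).div_const _)
  · exact contDiff_const.add (((contDiff_const.mul contDiff_fst).add contDiff_snd).div_const _)

theorem WarpC_oj_pos (N : ℕ∞) (j : ℕ) : 0 < oj N j := by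
  unfold oj
  positivity

theorem WarpC_oj_sq (N : ℕ∞) (j : ℕ) : oj N j ^ 2 = 1 + aa N j ^ 2 := by
  unfold oj
  rw [Real.sq_sqrt (by positivity)]

/-- The rotated direction. -/
noncomputable def WarpC_dir (N : ℕ∞) (j : ℕ) (v w : ℝ) : ℝ × ℝ :=
  ((v - aa N j * w) / oj N j, (aa N j * v + w) / oj N j)

theorem WarpC_dir_norm (N : ℕ∞) (j : ℕ) (v w : ℝ) :
    (WarpC_dir N j v w).1 ^ 2 + (WarpC_dir N j v w).2 ^ 2 = v ^ 2 + w ^ 2 := by
  have h0 := WarpC_oj_pos N j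
  have h1 := WarpC_oj_sq N j
  simp only [WarpC_dir]
  rw [div_pow, div_pow, ← add_div, div_eq_iff (by positivity), h1]
  ring

theorem WarpC_map_line (N : ℕ∞) (j : ℕ) (q : ℝ × ℝ) (v w r : ℝ) :
    WarpC_map N j (q.1 + r * v, q.2 + r * w) =
      ((WarpC_map N j q).1 + r * (WarpC_dir N j v w).1,
        (WarpC_map N j q).2 + r * (WarpC_dir N j v w).2) := by
  simp only [WarpC_map, WarpC_dir]
  refine Prod.ext ?_ ?_
  · simp only
    ring
  · simp only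
    ring

theorem WarpC_map_deriv (N : ℕ∞) (j : ℕ) (q : ℝ × ℝ) (v w : ℝ) :
    fderiv ℝ (WarpC_map N j) q (v, w) = WarpC_dir N j v w := by
  have h1 : DifferentiableAt ℝ (WarpC_map N j) q :=
    (WarpC_map_contDiff N j).contDiffAt.differentiableAt (by simp)
  have h2 : HasDerivAt (fun r : ℝ => ((q.1 + r * v, q.2 + r * w) : ℝ × ℝ)) (v, w) 0 := by
    refine HasDerivAt.prodMk ?_ ?_
    · simpa using ((hasDerivAt_id (0 : ℝ)).mul_const v).const_add q.1
    · simpa using ((hasDerivAt_id (0 : ℝ)).mul_const w).const_add q.2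
  have h0 : (fun r : ℝ => ((q.1 + r * v, q.2 + r * w) : ℝ × ℝ)) 0 = q := by simp
  have h3 : HasDerivAt (fun r : ℝ => WarpC_map N j (q.1 + r * v, q.2 + r * w))
      (fderiv ℝ (WarpC_map N j) q (v, w)) 0 := by
    have := h1.hasFDerivAt
    rw [← h0] at this
    have h4 := this.comp_hasDerivAt (0 : ℝ) h2
    rw [h0] at h4
    exact h4
  have h5 : HasDerivAt (fun r : ℝ => WarpC_map N j (q.1 + r * v, q.2 + r * w))
      (WarpC_dir N j v w) 0 := by
    have h6 : (fun r : ℝ => WarpC_map N j (q.1 + r * v, q.2 + r * w)) = fun r =>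
      ((WarpC_map N j q).1 + r * (WarpC_dir N j v w).1,
        (WarpC_map N j q).2 + r * (WarpC_dir N j v w).2) := by
      funext r
      exact WarpC_map_line N j q v w r
    rw [h6]
    refine HasDerivAt.prodMk (f₁ := fun r : ℝ => (WarpC_map N j q).1 + r * (WarpC_dir N j v w).1)
      (f₁' := (WarpC_dir N j v w).1) ?_ ?_
    · simpa using ((hasDerivAt_id (0 : ℝ)).mul_const (WarpC_dir N j v w).1).const_add
        (WarpC_map N j q).1
    · change HasDerivAt (fun r : ℝ => (WarpC_map N j q).2 + r * (WarpC_dir N j v w).2)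
        (WarpC_dir N j v w).2 0
      simpa using ((hasDerivAt_id (0 : ℝ)).mul_const (WarpC_dir N j v w).2).const_add
        (WarpC_map N j q).2
  exact h3.unique h5

theorem WarpC_mem {N : ℕ∞} {j : ℕ} {q : ℝ × ℝ} (hq : q ∈ UC N j) :
    GG N (WarpC_map N j q).1 < (WarpC_map N j q).2 := hq.2

theorem WarpC_contDiffAt {R : ℝ} {N : ℕ∞} (hR : 0 < R) (hR' : R ≤ 1 / 8) (hN : 1 ≤ N) (j : ℕ)
    {q : ℝ × ℝ} (hq : q ∈ UC N j) :
    ContDiffAt ℝ ∞ (fun q : ℝ × ℝ => bt R N j q.1 q.2) q := by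
  have h1 := bb_contDiffAt hR hR' hN (WarpC_mem hq)
  exact h1.comp q (WarpC_map_contDiff N j).contDiffAt

/-- The second derivative along a line. -/
theorem WarpC_second {f : ℝ → ℝ → ℝ} {q : ℝ × ℝ}
    (hf : ContDiffAt ℝ ∞ (fun p : ℝ × ℝ => f p.1 p.2) q) (v w : ℝ) :
    deriv (deriv fun r : ℝ => f (q.1 + r * v) (q.2 + r * w)) 0 =
      dT (dT f) q.1 q.2 * v ^ 2 + 2 * dT (dX f) q.1 q.2 * v * w +
      dX (dX f) q.1 q.2 * w ^ 2 := by
  have hline : ∀ r : ℝ, HasDerivAt (fun r : ℝ => ((q.1 + r * v, q.2 + r * w) : ℝ × ℝ)) (v, w) r := by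
    intro r
    refine HasDerivAt.prodMk ?_ ?_
    · simpa using ((hasDerivAt_id r).mul_const v).const_add q.1
    · simpa using ((hasDerivAt_id r).mul_const w).const_add q.2
  have h0 : (fun r : ℝ => ((q.1 + r * v, q.2 + r * w) : ℝ × ℝ)) 0 = q := by simp
  -- derivative of a function along the line
  have key : ∀ (g : ℝ → ℝ → ℝ) (p : ℝ × ℝ), DifferentiableAt ℝ (fun p : ℝ × ℝ => g p.1 p.2) p →
      ∀ r : ℝ, (q.1 + r * v, q.2 + r * w) = p →
      HasDerivAt (fun r : ℝ => g (q.1 + r * v) (q.2 + r * w))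
        (dT g p.1 p.2 * v + dX g p.1 p.2 * w) r := by
    intro g p hg r hr
    have hT : dT g p.1 p.2 = fderiv ℝ (fun p : ℝ × ℝ => g p.1 p.2) p (1, 0) := by
      have h2 : HasDerivAt (fun s : ℝ => ((s, p.2) : ℝ × ℝ)) (1, 0) p.1 :=
        (hasDerivAt_id p.1).prodMk (hasDerivAt_const p.1 p.2)
      have h3 := hg.hasFDerivAt.comp_hasDerivAt p.1 h2
      exact h3.deriv
    have hX : dX g p.1 p.2 = fderiv ℝ (fun p : ℝ × ℝ => g p.1 p.2) p (0, 1) := by
      have h2 : HasDerivAt (fun s : ℝ => ((p.1, s) : ℝ × ℝ)) (0, 1) p.2 :=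
        (hasDerivAt_const p.2 p.1).prodMk (hasDerivAt_id p.2)
      have h3 := hg.hasFDerivAt.comp_hasDerivAt p.2 h2
      exact h3.deriv
    have h4 : fderiv ℝ (fun p : ℝ × ℝ => g p.1 p.2) p (v, w) =
        dT g p.1 p.2 * v + dX g p.1 p.2 * w := by
      rw [hT, hX]
      have : ((v, w) : ℝ × ℝ) = v • (1, 0) + w • (0, 1) := by simp
      rw [this, map_add, map_smul, map_smul]
      simp only [smul_eq_mul]
      ring
    rw [← h4]
    have h5 := hg.hasFDerivAt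
    subst hr
    exact h5.comp_hasDerivAt r (hline r)
  have hev : ∀ᶠ p in 𝓝 q, DifferentiableAt ℝ (fun p : ℝ × ℝ => f p.1 p.2) p := by
    have := (hf.of_le (m := 1) (by exact_mod_cast le_top)).eventually (by simp)
    filter_upwards [this] with p hp
    exact hp.differentiableAt (by simp)
  have htend : Tendsto (fun r : ℝ => ((q.1 + r * v, q.2 + r * w) : ℝ × ℝ)) (𝓝 0) (𝓝 q) := by
    have := (hline 0).continuousAt
    have h0' : ((q.1 + 0 * v, q.2 + 0 * w) : ℝ × ℝ) = q := h0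
    rw [ContinuousAt, h0'] at this
    exact this
  have h1 : deriv (fun r : ℝ => f (q.1 + r * v) (q.2 + r * w)) =ᶠ[𝓝 0]
      fun r => dT f (q.1 + r * v) (q.2 + r * w) * v + dX f (q.1 + r * v) (q.2 + r * w) * w := by
    filter_upwards [htend.eventually hev] with r hr
    exact (key f _ hr r rfl).deriv
  rw [h1.deriv_eq]
  have h2 := key (dT f) q ((warp_contDiffAt_dT hf).differentiableAt (by simp)) 0 h0
  have h3 := key (dX f) q ((warp_contDiffAt_dX hf).differentiableAt (by simp)) 0 h0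
  have h4 := (h2.mul_const v).add (h3.mul_const w)
  have h5 := h4.deriv
  have hm : dX (dT f) q.1 q.2 = dT (dX f) q.1 q.2 := warp_mixed (t := q.1) (x := q.2) hf
  rw [hm] at h5
  refine (show _ = _ from h5).trans ?_
  ring

theorem isOpen_UC {N : ℕ∞} (hN : 1 ≤ N) (j : ℕ) : IsOpen (UC N j) := by
  have hc : Continuous (WarpC_map N j) := (WarpC_map_contDiff N j).continuous
  have h1 : IsOpen {q : ℝ × ℝ | 0 < q.2} := isOpen_lt continuous_const continuous_snd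
  have h2 : IsOpen {q : ℝ × ℝ | GG N (WarpC_map N j q).1 < (WarpC_map N j q).2} :=
    isOpen_lt ((GG_continuous N hN).comp (continuous_fst.comp hc)) (continuous_snd.comp hc)
  exact h1.inter h2

theorem bt_smooth {R : ℝ} {N : ℕ∞} (hR : 0 < R) (hR' : R ≤ 1 / 8) (hN : 1 ≤ N) (j : ℕ) :
    ContDiffOn ℝ ∞ (fun q : ℝ × ℝ => bt R N j q.1 q.2) (UC N j) := by
  intro q hq
  exact (WarpC_contDiffAt hR hR' hN j hq).contDiffWithinAt

theorem bt_grad {R : ℝ} {N : ℕ∞} (hR : 0 < R) (hR' : R ≤ 1 / 8) (hN : 1 ≤ N) (j : ℕ)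
    {q : ℝ × ℝ} (hq : q ∈ UC N j) :
    dT (bt R N j) q.1 q.2 ^ 2 + dX (bt R N j) q.1 q.2 ^ 2 ≤ 1 := by
  have hc := WarpC_contDiffAt hR hR' hN j hq
  have h1 : ∀ v w : ℝ, (fderiv ℝ (fun q : ℝ × ℝ => bt R N j q.1 q.2) q (v, w)) ^ 2 ≤
      v ^ 2 + w ^ 2 := by
    intro v w
    have h2 := bb_contDiffAt hR hR' hN (WarpC_mem hq)
    have h3 : fderiv ℝ (fun q : ℝ × ℝ => bt R N j q.1 q.2) q =
        (fderiv ℝ (fun q : ℝ × ℝ => bb R N q.1 q.2) (WarpC_map N j q)).comp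
          (fderiv ℝ (WarpC_map N j) q) := by
      have := fderiv_comp q (h2.differentiableAt (by simp))
        ((WarpC_map_contDiff N j).contDiffAt.differentiableAt (x := q) (by simp))
      exact this
    rw [h3, ContinuousLinearMap.comp_apply, WarpC_map_deriv, ← WarpC_dir_norm N j v w]
    exact bb_grad hR hR' hN (WarpC_mem hq) _ _
  have hT : dT (bt R N j) q.1 q.2 = fderiv ℝ (fun q : ℝ × ℝ => bt R N j q.1 q.2) q (1, 0) :=
    (warp_dT_eq hc).eq_of_nhds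
  have hX : dX (bt R N j) q.1 q.2 = fderiv ℝ (fun q : ℝ × ℝ => bt R N j q.1 q.2) q (0, 1) :=
    (warp_dX_eq hc).eq_of_nhds
  have h2 := h1 (dT (bt R N j) q.1 q.2) (dX (bt R N j) q.1 q.2)
  have h3 : fderiv ℝ (fun q : ℝ × ℝ => bt R N j q.1 q.2) q
      (dT (bt R N j) q.1 q.2, dX (bt R N j) q.1 q.2) =
      dT (bt R N j) q.1 q.2 ^ 2 + dX (bt R N j) q.1 q.2 ^ 2 := by
    have : ((dT (bt R N j) q.1 q.2, dX (bt R N j) q.1 q.2) : ℝ × ℝ) =
        (dT (bt R N j) q.1 q.2) • (1, 0) + (dX (bt R N j) q.1 q.2) • (0, 1) := by simp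
    rw [this, map_add, map_smul, map_smul, ← hT, ← hX]
    simp only [smul_eq_mul]
    ring
  rw [h3] at h2
  nlinarith [sq_nonneg (dT (bt R N j) q.1 q.2), sq_nonneg (dX (bt R N j) q.1 q.2)]

theorem bt_hess {R : ℝ} {N : ℕ∞} (hR : 0 < R) (hR' : R ≤ 1 / 8) (hN : 1 ≤ N) (j : ℕ)
    {q : ℝ × ℝ} (hq : q ∈ UC N j) (v w : ℝ) :
    dT (dT (bt R N j)) q.1 q.2 * v ^ 2 + 2 * dT (dX (bt R N j)) q.1 q.2 * v * w +
      dX (dX (bt R N j)) q.1 q.2 * w ^ 2 ≤ 0 := by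
  rw [← WarpC_second (WarpC_contDiffAt hR hR' hN j hq) v w]
  have h1 : (fun r : ℝ => bt R N j (q.1 + r * v) (q.2 + r * w)) = fun r =>
      bb R N ((WarpC_map N j q).1 + r * (WarpC_dir N j v w).1)
        ((WarpC_map N j q).2 + r * (WarpC_dir N j v w).2) := by
    funext r
    have h2 := WarpC_map_line N j q v w r
    have h3 := congrArg Prod.fst h2
    have h4 := congrArg Prod.snd h2
    simp only at h3 h4
    rw [← h3, ← h4]
    rfl
  rw [h1]
  exact bb_hess hR hR' hN (WarpC_mem hq) _ _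

theorem ricGE_warp_C {R : ℝ} {N : ℕ∞} (hR : 0 < R) (hR' : R ≤ 1 / 8) (hN : 1 ≤ N) (j : ℕ)
    {y : E4} (hq : (y 0, y 1) ∈ UC N j) (hs : Real.sin (y 2) ≠ 0) :
    RicGE (warpMet (fun _ _ => 1) (bt R N j)) 0 y := by
  have hc := WarpC_contDiffAt hR hR' hN j hq
  have hb0 : 0 < bt R N j (y 0) (y 1) := bb_pos hR hN (WarpC_mem hq)
  have hg := bt_grad hR hR' hN j hq
  have hh := bt_hess hR hR' hN j hq
  simp only at hg hh
  have hA : ContDiffAt ℝ ∞ (fun p : ℝ × ℝ => (fun _ _ : ℝ => (1 : ℝ)) p.1 p.2) (y 0, y 1) :=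
    contDiffAt_const
  have d1 : dT (fun _ _ : ℝ => (1 : ℝ)) = fun _ _ => 0 := by
    funext t x
    simp [dT]
  have d2 : dX (fun _ _ : ℝ => (1 : ℝ)) = fun _ _ => 0 := by
    funext t x
    simp [dX]
  have d3 : dT (dT (fun _ _ : ℝ => (1 : ℝ))) (y 0) (y 1) = 0 := by
    rw [d1]
    simp [dT]
  intro v
  rw [zero_mul]
  have key := ricq_warp (A := fun _ _ => 1) (b := bt R N j) (y := y) hA hc one_ne_zero hb0.ne' hs
    (a0 := 1) (at_ := 0) (ax := 0) (att := 0) rfl (by rw [d1]) (by rw [d2]) d3 rfl rfl rfl rfl rfl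
    rfl rfl rfl rfl rfl v
  rw [key]
  obtain ⟨b0, hb00⟩ : ∃ b0, bt R N j (y 0) (y 1) = b0 := ⟨_, rfl⟩
  obtain ⟨t, ht⟩ : ∃ t, dT (bt R N j) (y 0) (y 1) = t := ⟨_, rfl⟩
  obtain ⟨x, hx⟩ : ∃ x, dX (bt R N j) (y 0) (y 1) = x := ⟨_, rfl⟩
  obtain ⟨tt, htt⟩ : ∃ tt, dT (dT (bt R N j)) (y 0) (y 1) = tt := ⟨_, rfl⟩
  obtain ⟨tx, htx⟩ : ∃ tx, dT (dX (bt R N j)) (y 0) (y 1) = tx := ⟨_, rfl⟩
  obtain ⟨xx, hxx⟩ : ∃ xx, dX (dX (bt R N j)) (y 0) (y 1) = xx := ⟨_, rfl⟩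
  rw [ht, hx] at hg
  rw [htt, htx, hxx] at hh
  rw [hb00] at hb0
  rw [hb00, ht, hx, htt, htx, hxx]
  have e1 : tt ≤ 0 := by
    have := hh 1 0
    simpa using this
  have e2 : xx ≤ 0 := by
    have := hh 0 1
    simpa using this
  have e3 := hh (v 0) (v 1)
  have hbi : 0 < b0⁻¹ := by positivity
  have r1 : 0 ≤ -tt / b0 - (0 * t / (1 * b0) + (xx - 0 * x / 1) / (1 ^ 2 * b0)) +
      (1 - t ^ 2 - x ^ 2 / 1 ^ 2) / b0 ^ 2 := by
    have f1 : 0 ≤ -tt / b0 := div_nonneg (by linarith) hb0.le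
    have f2 : 0 ≤ -xx / b0 := div_nonneg (by linarith) hb0.le
    have f3 : 0 ≤ (1 - t ^ 2 - x ^ 2) / b0 ^ 2 := div_nonneg (by linarith) (by positivity)
    have f4 : -tt / b0 - (0 * t / (1 * b0) + (xx - 0 * x / 1) / (1 ^ 2 * b0)) +
      (1 - t ^ 2 - x ^ 2 / 1 ^ 2) / b0 ^ 2 = -tt / b0 + -xx / b0 + (1 - t ^ 2 - x ^ 2) / b0 ^ 2 := by
      ring
    rw [f4]
    linarith
  have r2 : 0 ≤ (b0 * v 2) ^ 2 + (b0 * Real.sin (y 2) * v 3) ^ 2 := by positivity
  have r3 := mul_nonneg r1 r2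
  have r4 : 0 ≤ (-2 / b0) * (tt * v 0 ^ 2 + 2 * tx * v 0 * v 1 + xx * v 1 ^ 2) :=
    mul_nonneg_of_nonpos_of_nonpos (by rw [div_nonpos_iff]; right; exact ⟨by norm_num, hb0.le⟩) e3
  have r5 : (-0 / 1 - 2 * tt / b0) * v 0 ^ 2 + 2 * (-2 * (tx - 0 * x / 1) / (1 * b0)) * v 0 *
      (1 * v 1) + (-0 / 1 - 2 * (0 * t / (1 * b0) + (xx - 0 * x / 1) / (1 ^ 2 * b0))) *
        (1 * v 1) ^ 2 = (-2 / b0) * (tt * v 0 ^ 2 + 2 * tx * v 0 * v 1 + xx * v 1 ^ 2) := by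
    ring
  rw [r5]
  linarith

end Pool.Agent.W_MP_654ec6
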