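import Pool.Agent.W_MP_654ec6.A.Natural
import Pool.Agent.W_MP_654ec6.C.MetC
import Pool.Agent.W_MP_654ec6.C.WarpC

/-!
# Task C12: the ambient space has `Ric ≥ 0`

Parametrise by `wQ (l, s, θ, φ) = (l, s sin θ cos φ, s sin θ sin φ, s cos θ)`, with
`s > 0`, `sin θ ≠ 0`; the metric `gC` becomes `warpMet 1 (bt R N j)`
(`qf_gC_comp`: `|dξ|² = dθ² + sin² θ dφ²`, `dX² + dY² = dl² + ds²`).
The image of the parametrisation is dense in `VC N j` (it contains all points with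
`(u 1, u 2) ≠ (0, 0)` and `n3 u > 0`: polar coordinates; every open subset of `E4` contains points
with `u 1 ≠ 0`), use `ricGE_of_param` and `ricGE_warp_C`.
-/

open scoped ContDiff Topology
open Filter Real

namespace Pool.Agent.W_MP_654ec6

/-- Spherical coordinates. -/
noncomputable def wQ (w : E4) : E4 :=
  mk4 (w 0) (w 1) ![Real.sin (w 2) * Real.cos (w 3), Real.sin (w 2) * Real.sin (w 3),
    Real.cos (w 2)]

theorem ricC_wQ_0 (y : E4) : wQ y 0 = y 0 := rfl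
theorem ricC_wQ_1 (y : E4) : wQ y 1 = y 1 * (sin (y 2) * cos (y 3)) := rfl
theorem ricC_wQ_2 (y : E4) : wQ y 2 = y 1 * (sin (y 2) * sin (y 3)) := rfl
theorem ricC_wQ_3 (y : E4) : wQ y 3 = y 1 * cos (y 2) := rfl

theorem ricC_contDiff_wQ : ContDiff ℝ ∞ wQ := by
  have h (i : Fin 4) : ContDiff ℝ ∞ (fun y : E4 => y i) :=
    (EuclideanSpace.proj i : E4 →L[ℝ] ℝ).contDiff
  rw [contDiff_euclidean]
  intro i
  fin_cases i
  · exact h 0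
  · exact (h 1).mul ((h 2).sin.mul (h 3).cos)
  · exact (h 1).mul ((h 2).sin.mul (h 3).sin)
  · exact (h 1).mul (h 2).cos

theorem ricC_n3_wQ {y : E4} (hy : 0 ≤ y 1) : n3 (wQ y) = y 1 := by
  unfold wQ
  apply n3_mk4 _ hy
  change (sin (y 2) * cos (y 3)) ^ 2 + (sin (y 2) * sin (y 3)) ^ 2 + cos (y 2) ^ 2 = 1
  have e2 := sin_sq_add_cos_sq (y 2)
  have e3 := sin_sq_add_cos_sq (y 3)
  linear_combination sin (y 2) ^ 2 * e3 + e2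

/-- The derivative of `wQ`. -/
theorem ricC_fderiv_wQ (y w : E4) :
    fderiv ℝ wQ y w 0 = w 0 ∧
    fderiv ℝ wQ y w 1 = w 1 * (sin (y 2) * cos (y 3)) +
      y 1 * (cos (y 2) * w 2 * cos (y 3) - sin (y 2) * (sin (y 3) * w 3)) ∧
    fderiv ℝ wQ y w 2 = w 1 * (sin (y 2) * sin (y 3)) +
      y 1 * (cos (y 2) * w 2 * sin (y 3) + sin (y 2) * (cos (y 3) * w 3)) ∧
    fderiv ℝ wQ y w 3 = w 1 * cos (y 2) - y 1 * (sin (y 2) * w 2) := by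
  have hd : DifferentiableAt ℝ wQ y := ricC_contDiff_wQ.differentiable (by simp) y
  have h (i : Fin 4) : HasFDerivAt (fun y : E4 => y i) (EuclideanSpace.proj i : E4 →L[ℝ] ℝ) y :=
    (EuclideanSpace.proj i : E4 →L[ℝ] ℝ).hasFDerivAt
  have h0 : HasFDerivAt (fun y : E4 => wQ y 0) _ y := h 0
  have h1 : HasFDerivAt (fun y : E4 => wQ y 1) _ y := (h 1).mul ((h 2).sin.mul (h 3).cos)
  have h2 : HasFDerivAt (fun y : E4 => wQ y 2) _ y := (h 1).mul ((h 2).sin.mul (h 3).sin)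
  have h3 : HasFDerivAt (fun y : E4 => wQ y 3) _ y := (h 1).mul (h 2).cos
  refine ⟨?_, ?_, ?_, ?_⟩
  · rw [← trans_fderiv_coord hd, h0.fderiv]
    simp
  · rw [← trans_fderiv_coord hd, h1.fderiv]
    simp
    ring
  · rw [← trans_fderiv_coord hd, h2.fderiv]
    simp
    ring
  · rw [← trans_fderiv_coord hd, h3.fderiv]
    simp
    ring

theorem ricC_inner_wQ (y w : E4) :
    wQ y 1 * fderiv ℝ wQ y w 1 + wQ y 2 * fderiv ℝ wQ y w 2 + wQ y 3 * fderiv ℝ wQ y w 3 =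
      y 1 * w 1 := by
  obtain ⟨-, h1, h2, h3⟩ := ricC_fderiv_wQ y w
  rw [h1, h2, h3, ricC_wQ_1, ricC_wQ_2, ricC_wQ_3]
  have e2 := sin_sq_add_cos_sq (y 2)
  have e3 := sin_sq_add_cos_sq (y 3)
  obtain ⟨s2, hs2⟩ : ∃ s, s = sin (y 2) := ⟨_, rfl⟩
  obtain ⟨c2, hc2⟩ : ∃ s, s = cos (y 2) := ⟨_, rfl⟩
  obtain ⟨s3, hs3⟩ : ∃ s, s = sin (y 3) := ⟨_, rfl⟩
  obtain ⟨c3, hc3⟩ : ∃ s, s = cos (y 3) := ⟨_, rfl⟩
  rw [← hs2, ← hc2] at e2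
  rw [← hs3, ← hc3] at e3
  rw [← hs2, ← hc2, ← hs3, ← hc3]
  linear_combination (y 1 * w 1 * s2 ^ 2 + y 1 * s2 * (y 1 * c2 * w 2)) * e3 + (y 1 * w 1) * e2

theorem ricC_normSq_wQ (y w : E4) :
    fderiv ℝ wQ y w 1 ^ 2 + fderiv ℝ wQ y w 2 ^ 2 + fderiv ℝ wQ y w 3 ^ 2 =
    w 1 ^ 2 + y 1 ^ 2 * w 2 ^ 2 + y 1 ^ 2 * sin (y 2) ^ 2 * w 3 ^ 2 := by
  obtain ⟨-, h1, h2, h3⟩ := ricC_fderiv_wQ y w
  rw [h1, h2, h3]
  have e2 := sin_sq_add_cos_sq (y 2)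
  have e3 := sin_sq_add_cos_sq (y 3)
  obtain ⟨s2, hs2⟩ : ∃ s, s = sin (y 2) := ⟨_, rfl⟩
  obtain ⟨c2, hc2⟩ : ∃ s, s = cos (y 2) := ⟨_, rfl⟩
  obtain ⟨s3, hs3⟩ : ∃ s, s = sin (y 3) := ⟨_, rfl⟩
  obtain ⟨c3, hc3⟩ : ∃ s, s = cos (y 3) := ⟨_, rfl⟩
  rw [← hs2, ← hc2] at e2
  rw [← hs3, ← hc3] at e3
  rw [← hs2, ← hc2, ← hs3, ← hc3]
  linear_combination ((w 1 * s2 + y 1 * c2 * w 2) ^ 2 + (y 1 * s2 * w 3) ^ 2) * e3 +
    (w 1 ^ 2 + (y 1 * w 2) ^ 2) * e2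

theorem ricC_qf_warp (b : ℝ → ℝ → ℝ) (y w : E4) :
    qf (warpMet (fun _ _ => 1) b y) w = w 0 ^ 2 + w 1 ^ 2 + b (y 0) (y 1) ^ 2 * w 2 ^ 2 +
      b (y 0) (y 1) ^ 2 * sin (y 2) ^ 2 * w 3 ^ 2 := by
  unfold qf warpMet
  simp [Fin.sum_univ_four]
  ring

theorem ricC_qf_wQ (R : ℝ) (N : ℕ∞) (j : ℕ) {z : E4} (hz : 0 < z 1) (w : E4) :
    qf (gC R N j (wQ z)) (fderiv ℝ wQ z w) = qf (warpMet (fun _ _ => 1) (bt R N j) z) w := by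
  have hn := ricC_n3_wQ hz.le
  have hb : bb R N (pX N j (wQ z)) (pY N j (wQ z)) = bt R N j (z 0) (z 1) := by
    unfold pX pY bt
    rw [hn, ricC_wQ_0]
  rw [qf_gC R N j (by rw [hn]; exact hz.ne') (fderiv ℝ wQ z w), ricC_inner_wQ, ricC_normSq_wQ,
    hb, hn, (ricC_fderiv_wQ z w).1, ricC_qf_warp]
  have h1 : z 1 ≠ 0 := hz.ne'
  field_simp
  ring

theorem isoAt_wQ {R : ℝ} {N : ℕ∞} (hR : 0 < R) (hR' : R ≤ 1 / 8) (hN : 1 ≤ N) {j : ℕ}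
    (hj : (j : ℕ∞) ≤ N) {y : E4} (hq : (y 0, y 1) ∈ UC N j) (hs : Real.sin (y 2) ≠ 0) :
    wQ y ∈ VC N j ∧ IsoAt (warpMet (fun _ _ => 1) (bt R N j)) (gC R N j) wQ y := by
  have hy1 : 0 < y 1 := hq.1
  refine ⟨Or.inl ?_, ricC_contDiff_wQ.contDiffAt, ?_⟩
  · unfold pX pY
    rw [ricC_n3_wQ hy1.le, ricC_wQ_0]
    exact hq.2
  · have hc : Continuous fun y : E4 => y 1 := (EuclideanSpace.proj 1 : E4 →L[ℝ] ℝ).continuous
    filter_upwards [hc.continuousAt.eventually (lt_mem_nhds hy1)] with z hz w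
    exact ricC_qf_wQ R N j hz w

/-- Spherical coordinates of a point off the plane `u 1 = u 2 = 0`. -/
theorem ricC_exists_wQ {u : E4} (hu : u 1 ^ 2 + u 2 ^ 2 ≠ 0) :
    ∃ y : E4, y 0 = u 0 ∧ y 1 = n3 u ∧ sin (y 2) ≠ 0 ∧ wQ y = u := by
  have hpos : 0 < u 1 ^ 2 + u 2 ^ 2 := lt_of_le_of_ne (by positivity) (Ne.symm hu)
  obtain ⟨ρ, hρ, hρ2⟩ : ∃ ρ : ℝ, 0 < ρ ∧ ρ ^ 2 = u 1 ^ 2 + u 2 ^ 2 :=
    ⟨√(u 1 ^ 2 + u 2 ^ 2), Real.sqrt_pos.2 hpos, Real.sq_sqrt hpos.le⟩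
  obtain ⟨r, hr, hr2, hrn⟩ : ∃ r : ℝ, 0 < r ∧ r ^ 2 = u 1 ^ 2 + u 2 ^ 2 + u 3 ^ 2 ∧ r = n3 u :=
    ⟨√(u 1 ^ 2 + u 2 ^ 2 + u 3 ^ 2), Real.sqrt_pos.2 (by positivity),
      Real.sq_sqrt (by positivity), rfl⟩
  have polar : ∀ a b c : ℝ, 0 < c → a ^ 2 + b ^ 2 = c ^ 2 →
      ∃ θ : ℝ, c * cos θ = a ∧ c * sin θ = b := by
    intro a b c hc hab
    have h2 : ‖(⟨a, b⟩ : ℂ)‖ = c := by
      rw [Complex.norm_def, Complex.normSq_apply]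
      rw [show a * a + b * b = c ^ 2 by rw [← hab]; ring]
      exact Real.sqrt_sq hc.le
    refine ⟨Complex.arg ⟨a, b⟩, ?_, ?_⟩
    · have h1 := Complex.norm_mul_cos_arg ⟨a, b⟩
      rw [h2] at h1
      exact h1
    · have h1 := Complex.norm_mul_sin_arg ⟨a, b⟩
      rw [h2] at h1
      exact h1
  obtain ⟨φ, hφ1, hφ2⟩ := polar (u 1) (u 2) ρ hρ hρ2.symm
  obtain ⟨θ, hθ1, hθ2⟩ := polar (u 3) ρ r hr (by linarith)
  refine ⟨WithLp.toLp 2 ![u 0, r, θ, φ], rfl, hrn, ?_, ?_⟩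
  · change sin θ ≠ 0
    intro h0
    rw [h0, mul_zero] at hθ2
    exact hρ.ne hθ2
  · ext i
    fin_cases i
    · rfl
    · change r * (sin θ * cos φ) = u 1
      rw [← mul_assoc, hθ2, hφ1]
    · change r * (sin θ * sin φ) = u 2
      rw [← mul_assoc, hθ2, hφ2]
    · change r * cos θ = u 3
      exact hθ1

theorem dense_wQ {N : ℕ∞} (hN : 1 ≤ N) {j : ℕ} (hj : (j : ℕ∞) ≤ N) :
    VC N j ⊆ closure (wQ '' {y | (y 0, y 1) ∈ UC N j ∧ Real.sin (y 2) ≠ 0}) := by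
  intro u hu
  have h1 : Tendsto (fun ε : ℝ => u + ε • bv 1) (𝓝[≠] 0) (𝓝 u) := by
    have : Tendsto (fun ε : ℝ => u + ε • bv 1) (𝓝 0) (𝓝 (u + (0 : ℝ) • bv 1)) :=
      (continuous_const.add (continuous_id.smul continuous_const)).continuousAt
    rw [zero_smul, add_zero] at this
    exact this.mono_left nhdsWithin_le_nhds
  refine mem_closure_of_tendsto h1 ?_
  have h2 : ∀ᶠ ε : ℝ in 𝓝[≠] 0, u + ε • bv 1 ∈ VC N j :=
    h1.eventually ((isOpen_VC hN hj).mem_nhds hu)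
  have h3 : ∀ ε : ℝ, (u + ε • bv 1) 1 = u 1 + ε := fun ε => by simp [bv]
  have h4 : ∀ᶠ ε : ℝ in 𝓝[≠] 0, u 1 + ε ≠ 0 := by
    rcases eq_or_ne (u 1) 0 with h0 | h0
    · filter_upwards [self_mem_nhdsWithin] with ε hε
      rw [h0, zero_add]
      exact hε
    · have h5 : Tendsto (fun ε : ℝ => u 1 + ε) (𝓝 0) (𝓝 (u 1 + 0)) :=
        (continuous_const.add continuous_id).continuousAt
      rw [add_zero] at h5
      exact (h5.mono_left nhdsWithin_le_nhds).eventually_ne h0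
  filter_upwards [h2, h4] with ε hε1 hε2
  have h5 : (u + ε • bv 1) 1 ^ 2 + (u + ε • bv 1) 2 ^ 2 ≠ 0 := by
    rw [h3]
    have : 0 < (u 1 + ε) ^ 2 := by positivity
    nlinarith [sq_nonneg ((u + ε • bv 1) 2)]
  obtain ⟨y, hy0, hy1, hy2, hy3⟩ := ricC_exists_wQ h5
  refine ⟨y, ⟨?_, hy2⟩, hy3⟩
  have h6 : n3 (u + ε • bv 1) ≠ 0 := by
    intro h0
    rw [n3_eq_zero] at h0
    apply h5
    rw [h0.1, h0.2.1]
    norm_num
  have h7 := mem_VC_of_n3 hj hε1 h6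
  refine ⟨?_, ?_⟩
  · change 0 < y 1
    rw [hy1]
    exact lt_of_le_of_ne (n3_nonneg _) (Ne.symm h6)
  · change GG N (OX N j + (y 0 - aa N j * y 1) / oj N j) < OY N j + (aa N j * y 0 + y 1) / oj N j
    rw [hy0, hy1]
    exact h7

theorem ricGE_gC {R : ℝ} {N : ℕ∞} {j : ℕ} (hR : 0 < R) (hR' : R ≤ 1 / 8) (hN : 1 ≤ N)
    (hj : (j : ℕ∞) ≤ N) : ∀ u ∈ VC N j, RicGE (gC R N j) 0 u := by
  have hc : ∀ i : Fin 4, Continuous fun y : E4 => y i := fun i =>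
    (EuclideanSpace.proj i : E4 →L[ℝ] ℝ).continuous
  have hV : IsOpen {y : E4 | (y 0, y 1) ∈ UC N j ∧ Real.sin (y 2) ≠ 0} := by
    have h1 : IsOpen {y : E4 | (y 0, y 1) ∈ UC N j} :=
      (isOpen_UC hN j).preimage ((hc 0).prodMk (hc 1))
    have h2 : IsOpen {y : E4 | Real.sin (y 2) ≠ 0} :=
      isOpen_ne.preimage (continuous_sin.comp (hc 2))
    exact h1.inter h2
  have hg : GoodMet (warpMet (fun _ _ => 1) (bt R N j))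
      {y : E4 | (y 0, y 1) ∈ UC N j ∧ Real.sin (y 2) ≠ 0} := by
    refine goodMet_warp contDiffOn_const (bt_smooth hR hR' hN j) (fun _ _ => one_ne_zero) ?_
    intro p hp
    exact (bb_pos hR hN hp.2).ne'
  refine ricGE_of_param hV hg (isOpen_VC hN hj) (goodMet_gC hR hR' hN hj) (Q := wQ) ?_ ?_
    (dense_wQ hN hj) ?_
  · exact fun y hy => (isoAt_wQ hR hR' hN hj hy.1 hy.2).1
  · exact fun y hy => (isoAt_wQ hR hR' hN hj hy.1 hy.2).2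
  · exact fun y hy => ricGE_warp_C hR hR' hN j hy.1 hy.2

end Pool.Agent.W_MP_654ec6
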