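import Pool.Agent.W_MP_654ec6.L.Kap

/-!
# Task C2: the sequences `zz, cc, aa, oj` and the step functions `hh`

`hh k` is a smooth odd nondecreasing function, `0` on `[-5/8 zz k, 5/8 zz k]`, `1` on
`[7/8 zz k, ∞)` (note `2 ^ (k + 2) * zz k = 4`). `hh_symm`: for `X ≥ 0` and
`X' = 3/2 zz k - X ≥ 0` the second terms vanish and
`hh k X + hh k X' = S(y) + S(1 - y) = 1`, `y = 2^(k+2) X - 5/2` (`smoothTransition_add`).
`oj² = 1 + aa² ≤ 1.01 ≤ 1.01²`.
-/

open scoped ContDiff Topology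
open Filter Real

namespace Pool.Agent.W_MP_654ec6

theorem zz_pos (k : ℕ) : 0 < zz k := by
  unfold zz
  positivity

theorem zz_succ (k : ℕ) : zz (k + 1) = zz k / 2 := by
  unfold zz
  rw [pow_succ]
  ring

theorem zz_one : zz 1 = 1 / 2 := by
  unfold zz
  norm_num

theorem zz_le_one (k : ℕ) : zz k ≤ 1 := by
  unfold zz
  exact pow_le_one₀ (by norm_num) (by norm_num)

theorem zz_anti {k l : ℕ} (h : k ≤ l) : zz l ≤ zz k := by
  unfold zz
  exact pow_le_pow_of_le_one (by norm_num) (by norm_num) h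

theorem Seq_zz_strictAnti : StrictAnti zz := by
  apply strictAnti_nat_of_succ_lt
  intro n
  rw [zz_succ]
  have := zz_pos n
  linarith

theorem zz_inj {k l : ℕ} (h : zz k = zz l) : k = l := Seq_zz_strictAnti.injective h

theorem zz_tendsto : Tendsto zz atTop (𝓝 0) :=
  tendsto_pow_atTop_nhds_zero_of_lt_one (by norm_num) (by norm_num)

theorem cc_nonneg (N : ℕ∞) (k : ℕ) : 0 ≤ cc N k := by
  unfold cc
  split_ifs
  · positivity
  · exact le_refl _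

theorem cc_pos {N : ℕ∞} {k : ℕ} (h : (k : ℕ∞) ≤ N) : 0 < cc N k := by
  unfold cc
  rw [if_pos h]
  positivity

theorem cc_of_not_le {N : ℕ∞} {k : ℕ} (h : ¬ (k : ℕ∞) ≤ N) : cc N k = 0 := by
  unfold cc
  rw [if_neg h]

theorem Seq_cc_of_le {N : ℕ∞} {k : ℕ} (h : (k : ℕ∞) ≤ N) : cc N k = (1 / 2) ^ (k ^ 2) / 10 := by
  unfold cc
  rw [if_pos h]

theorem cc_le' (N : ℕ∞) (k : ℕ) : cc N k ≤ (1 / 2) ^ (k ^ 2) / 10 := by
  unfold cc
  split_ifs
  · exact le_refl _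
  · positivity

theorem cc_le (N : ℕ∞) (k : ℕ) : cc N k ≤ 1 / 10 := by
  have h1 := cc_le' N k
  have h2 : ((1 : ℝ) / 2) ^ (k ^ 2) ≤ 1 := pow_le_one₀ (by norm_num) (by norm_num)
  linarith

theorem Seq_succ_le_of_lt {N : ℕ∞} {k : ℕ} (h : (k : ℕ∞) < N) : ((k + 1 : ℕ) : ℕ∞) ≤ N := by
  push_cast
  exact Order.add_one_le_of_lt h

theorem Seq_lt_of_succ_le {N : ℕ∞} {k : ℕ} (h : ((k + 1 : ℕ) : ℕ∞) ≤ N) : (k : ℕ∞) < N := by
  refine lt_of_lt_of_le ?_ h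
  exact_mod_cast Nat.lt_succ_self k

theorem cc_succ_le (N : ℕ∞) (k : ℕ) : cc N (k + 1) ≤ cc N k / 2 := by
  by_cases h : ((k + 1 : ℕ) : ℕ∞) ≤ N
  · have h1 := (Seq_lt_of_succ_le h).le
    rw [Seq_cc_of_le h, Seq_cc_of_le h1]
    have e : (k + 1) ^ 2 = k ^ 2 + (2 * k + 1) := by ring
    rw [e, pow_add]
    have h2 : ((1 : ℝ) / 2) ^ (2 * k + 1) ≤ 1 / 2 := by
      rw [pow_succ]
      have : ((1 : ℝ) / 2) ^ (2 * k) ≤ 1 := pow_le_one₀ (by norm_num) (by norm_num)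
      linarith
    have h3 : (0 : ℝ) ≤ (1 / 2) ^ (k ^ 2) := by positivity
    have h4 := mul_le_mul_of_nonneg_left h2 h3
    linarith
  · rw [cc_of_not_le h]
    have := cc_nonneg N k
    linarith

theorem cc_anti (N : ℕ∞) {k l : ℕ} (h : k ≤ l) : cc N l ≤ cc N k := by
  have h1 : Antitone (cc N) := by
    apply antitone_nat_of_succ_le
    intro n
    have h2 := cc_succ_le N n
    have h3 := cc_nonneg N n
    linarith
  exact h1 h

theorem cc_succ_lt {N : ℕ∞} {k : ℕ} (h : (k : ℕ∞) ≤ N) : cc N (k + 1) < cc N k := by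
  have h1 := cc_succ_le N k
  have h2 := cc_pos h
  linarith

theorem cc_succ_le' (N : ℕ∞) (k : ℕ) : cc N (k + 1) ≤ 1 / 20 := by
  have h1 := cc_succ_le N k
  have h2 := cc_le N k
  linarith

theorem cc_eq_top {N : ℕ∞} {k : ℕ} (h : (k : ℕ∞) ≤ N) : cc N k = cc ⊤ k := by
  rw [Seq_cc_of_le h, Seq_cc_of_le le_top]

theorem cc_tendsto (N : ℕ∞) : Tendsto (cc N) atTop (𝓝 0) := by
  refine squeeze_zero (fun k => cc_nonneg N k) (g := zz) ?_ zz_tendsto
  intro k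
  have h1 := cc_le' N k
  have h2 : ((1 : ℝ) / 2) ^ (k ^ 2) ≤ (1 / 2) ^ k := by
    apply pow_le_pow_of_le_one (by norm_num) (by norm_num)
    nlinarith
  have h3 : (0 : ℝ) ≤ (1 / 2) ^ (k ^ 2) := by positivity
  unfold zz
  linarith

theorem aa_of_lt {N : ℕ∞} {j : ℕ} (h : (j : ℕ∞) < N) :
    aa N j = (cc N j + cc N (j + 1)) / 2 := by
  unfold aa
  rw [if_pos h]

theorem aa_of_not_lt {N : ℕ∞} {j : ℕ} (h : ¬ (j : ℕ∞) < N) : aa N j = 0 := by
  unfold aa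
  rw [if_neg h]

theorem aa_nonneg (N : ℕ∞) (j : ℕ) : 0 ≤ aa N j := by
  by_cases h : (j : ℕ∞) < N
  · rw [aa_of_lt h]
    have h1 := cc_nonneg N j
    have h2 := cc_nonneg N (j + 1)
    linarith
  · rw [aa_of_not_lt h]

theorem aa_le (N : ℕ∞) (j : ℕ) : aa N j ≤ 1 / 10 := by
  by_cases h : (j : ℕ∞) < N
  · rw [aa_of_lt h]
    have h1 := cc_le N j
    have h2 := cc_le N (j + 1)
    linarith
  · rw [aa_of_not_lt h]
    norm_num

theorem aa_anti (N : ℕ∞) {i j : ℕ} (h : i ≤ j) : aa N j ≤ aa N i := by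
  by_cases hj : (j : ℕ∞) < N
  · have hi : (i : ℕ∞) < N := lt_of_le_of_lt (by exact_mod_cast h) hj
    rw [aa_of_lt hj, aa_of_lt hi]
    have h1 := cc_anti N h
    have h2 := cc_anti N (Nat.succ_le_succ h)
    simp only [Nat.succ_eq_add_one] at h2
    linarith
  · rw [aa_of_not_lt hj]
    exact aa_nonneg N i

theorem le_aa {N : ℕ∞} {j : ℕ} (h : (j : ℕ∞) ≤ N) : cc N (j + 1) ≤ aa N j := by
  by_cases hj : (j : ℕ∞) < N
  · rw [aa_of_lt hj]
    have h1 := cc_succ_lt h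
    linarith
  · rw [aa_of_not_lt hj, cc_of_not_le (fun h' => hj (Seq_lt_of_succ_le h'))]

theorem lt_aa {N : ℕ∞} {j : ℕ} (h : (j : ℕ∞) < N) : cc N (j + 1) < aa N j := by
  rw [aa_of_lt h]
  have h1 := cc_succ_lt h.le
  linarith

theorem aa_lt {N : ℕ∞} {j : ℕ} (h : (j : ℕ∞) ≤ N) : aa N j < cc N j := by
  by_cases hj : (j : ℕ∞) < N
  · rw [aa_of_lt hj]
    have h1 := cc_succ_lt h
    linarith
  · rw [aa_of_not_lt hj]
    exact cc_pos h

theorem aa_eq_top {N : ℕ∞} {j : ℕ} (h : (j : ℕ∞) < N) : aa N j = aa ⊤ j := by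
  have h1 : (j : ℕ∞) < ⊤ := lt_of_lt_of_le h le_top
  rw [aa_of_lt h, aa_of_lt h1, cc_eq_top h.le, cc_eq_top (Seq_succ_le_of_lt h)]

theorem one_le_oj (N : ℕ∞) (j : ℕ) : 1 ≤ oj N j := by
  unfold oj
  rw [Real.one_le_sqrt]
  have := sq_nonneg (aa N j)
  linarith

theorem oj_le (N : ℕ∞) (j : ℕ) : oj N j ≤ 101 / 100 := by
  unfold oj
  rw [Real.sqrt_le_left (by norm_num)]
  have h1 := aa_le N j
  have h2 := aa_nonneg N j
  nlinarith

theorem oj_sq (N : ℕ∞) (j : ℕ) : oj N j ^ 2 = 1 + aa N j ^ 2 := by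
  unfold oj
  rw [Real.sq_sqrt]
  positivity

theorem hh_contDiff (k : ℕ) : ContDiff ℝ ∞ (hh k) := by
  unfold hh
  have h1 : ContDiff ℝ ∞ (fun X : ℝ => 2 ^ (k + 2) * X - 5 / 2) := by fun_prop
  have h2 : ContDiff ℝ ∞ (fun X : ℝ => -(2 ^ (k + 2) * X) - 5 / 2) := by fun_prop
  exact (Real.smoothTransition.contDiff.comp h1).sub (Real.smoothTransition.contDiff.comp h2)

theorem hh_neg (k : ℕ) (X : ℝ) : hh k (-X) = -hh k X := by
  unfold hh
  rw [mul_neg, neg_neg]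
  ring

theorem hh_mono (k : ℕ) : Monotone (hh k) := by
  intro X Y h
  unfold hh
  have h0 : (2 : ℝ) ^ (k + 2) * X ≤ 2 ^ (k + 2) * Y :=
    mul_le_mul_of_nonneg_left h (by positivity)
  apply sub_le_sub
  · apply Real.smoothTransition.monotone
    linarith
  · apply Real.smoothTransition.monotone
    linarith

theorem abs_hh_le (k : ℕ) (X : ℝ) : |hh k X| ≤ 1 := by
  unfold hh
  have h1 := Real.smoothTransition.nonneg (2 ^ (k + 2) * X - 5 / 2)
  have h2 := Real.smoothTransition.le_one (2 ^ (k + 2) * X - 5 / 2)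
  have h3 := Real.smoothTransition.nonneg (-(2 ^ (k + 2) * X) - 5 / 2)
  have h4 := Real.smoothTransition.le_one (-(2 ^ (k + 2) * X) - 5 / 2)
  rw [abs_le]
  constructor <;> linarith

theorem Seq_two_pow_mul_zz (k : ℕ) : (2 : ℝ) ^ (k + 2) * zz k = 4 := by
  unfold zz
  rw [pow_add, mul_right_comm, ← mul_pow]
  norm_num

theorem hh_eq_one {k : ℕ} {X : ℝ} (h : 7 / 8 * zz k ≤ X) : hh k X = 1 := by
  have h1 := Seq_two_pow_mul_zz k
  have h2 : (2 : ℝ) ^ (k + 2) * (7 / 8 * zz k) ≤ 2 ^ (k + 2) * X :=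
    mul_le_mul_of_nonneg_left h (by positivity)
  unfold hh
  rw [Real.smoothTransition.one_of_one_le (by linarith),
    Real.smoothTransition.zero_of_nonpos (by linarith), sub_zero]

theorem hh_eq_zero {k : ℕ} {X : ℝ} (h : |X| ≤ 5 / 8 * zz k) : hh k X = 0 := by
  have h1 := Seq_two_pow_mul_zz k
  rw [abs_le] at h
  have h2 : (2 : ℝ) ^ (k + 2) * X ≤ 2 ^ (k + 2) * (5 / 8 * zz k) :=
    mul_le_mul_of_nonneg_left h.2 (by positivity)
  have h3 : (2 : ℝ) ^ (k + 2) * (-(5 / 8 * zz k)) ≤ 2 ^ (k + 2) * X :=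
    mul_le_mul_of_nonneg_left h.1 (by positivity)
  unfold hh
  rw [Real.smoothTransition.zero_of_nonpos (by linarith),
    Real.smoothTransition.zero_of_nonpos (by linarith), sub_zero]

theorem hh_symm {k : ℕ} {X : ℝ} (h0 : 0 ≤ X) (h : X ≤ 3 / 2 * zz k) :
    hh k X + hh k (3 / 2 * zz k - X) = 1 := by
  have h1 := Seq_two_pow_mul_zz k
  have h2 : (0 : ℝ) ≤ 2 ^ (k + 2) * X := by positivity
  have h3 : (0 : ℝ) ≤ 2 ^ (k + 2) * (3 / 2 * zz k - X) :=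
    mul_nonneg (by positivity) (by linarith)
  have e : (2 : ℝ) ^ (k + 2) * (3 / 2 * zz k - X) - 5 / 2 =
      1 - (2 ^ (k + 2) * X - 5 / 2) := by linarith
  unfold hh
  rw [Real.smoothTransition.zero_of_nonpos (x := -(2 ^ (k + 2) * X) - 5 / 2) (by linarith),
    Real.smoothTransition.zero_of_nonpos
      (x := -(2 ^ (k + 2) * (3 / 2 * zz k - X)) - 5 / 2) (by linarith), sub_zero, sub_zero, e]
  exact smoothTransition_add_symm _

end Pool.Agent.W_MP_654ec6
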