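import Pool.Agent.W_MP_654ec6.C.BFun

/-!
# Task C16: the ambient space for `N = ⊤` near the point `x = (0, FF ⊤ 0)`

`bb_top_upper`: `bb ≤ R (Y - FF X)` and `FF 0 ≤ FF X`.
`bb_top_lower`: let `|X| ∈ [zz (j+1), zz j]`, `j` large, `sag = GG - FF ≤ cc ⊤ j |X|` (`sag_upper`).
If `5/4 sag ≤ Y - FF` then `bb = R (Y - FF X)` (`bb_eq_RD`) and `FF X - FF 0 ≤ ε |X|`
(`FF_top_small`); otherwise `Y - FF 0 ≤ 5/4 sag + FF X - FF 0 ≤ ε |X|` and the claim is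
`bb ≥ 0`. (`X = 0`: `sag = 0`.)
`edge_outside`: a lower bound of the ordinate in terms of the slopes.
-/

open scoped ContDiff Topology
open Filter Real

namespace Pool.Agent.W_MP_654ec6

theorem bb_top_upper {R : ℝ} (hR : 0 < R) {X Y : ℝ} (h : GG ⊤ X ≤ Y) :
    bb R ⊤ X Y ≤ R * (Y - FF ⊤ 0) := by
  have hN : (1 : ℕ∞) ≤ ⊤ := le_top
  have h1 := bb_le_RD hR hN h
  have h2 := FF_zero_le ⊤ X
  exact h1.trans (mul_le_mul_of_nonneg_left (by linarith) hR.le)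

theorem bb_top_lower {R : ℝ} (hR : 0 < R) (hR' : R ≤ 1 / 8) {ε : ℝ} (hε : 0 < ε) :
    ∃ r > (0 : ℝ), ∀ X Y, |X| < r → GG ⊤ X ≤ Y → R * (Y - FF ⊤ 0 - ε * |X|) ≤ bb R ⊤ X Y := by
  have hN : (1 : ℕ∞) ≤ ⊤ := le_top
  obtain ⟨r, hr, hG⟩ := GG_top_small (ε := 4 / 5 * ε) (by positivity)
  refine ⟨r, hr, fun X Y hX hY => ?_⟩
  have h1 := hG X hX
  have h2 := FF_zero_le ⊤ X
  have h3 := FF_le_GG ⊤ hN X
  have h4 : 0 ≤ ε * |X| := mul_nonneg hε.le (abs_nonneg X)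
  have h5 := bb_nonneg hR hN hY
  by_cases hc : 5 / 4 * (GG ⊤ X - FF ⊤ X) ≤ Y - FF ⊤ X
  · rcases hY.lt_or_eq with hlt | heq
    · rw [bb_eq_RD hR hR' hN hlt hc]
      exact mul_le_mul_of_nonneg_left (by linarith) hR.le
    · refine le_trans ?_ h5
      have h6 : Y - FF ⊤ 0 - ε * |X| ≤ 0 := by linarith
      exact mul_nonpos_of_nonneg_of_nonpos hR.le h6
  · push Not at hc
    refine le_trans ?_ h5
    have h6 : Y - FF ⊤ 0 - ε * |X| ≤ 0 := by linarith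
    exact mul_nonpos_of_nonneg_of_nonpos hR.le h6

/-- The polygon is almost the upper half plane near `x`. -/
theorem mem_top_of_high {ε : ℝ} (hε : 0 < ε) :
    ∃ r > (0 : ℝ), ∀ X Y, |X| < r → ε * |X| < Y - FF ⊤ 0 → GG ⊤ X < Y := by
  obtain ⟨r, hr, hG⟩ := GG_top_small hε
  refine ⟨r, hr, fun X Y hX hY => ?_⟩
  have h1 := hG X hX
  linarith

theorem FF_zero_lt_GG {X : ℝ} (hX : X ≠ 0) : FF ⊤ 0 < GG ⊤ X := by
  obtain ⟨j, hj⟩ := exists_inEdge (N := ⊤) (abs_nonneg X) (Or.inl (abs_pos.2 hX).ne')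
  have hjt : (j : ℕ∞) < ⊤ := ENat.natCast_lt_top j
  have h1 : zz (j + 1) ≤ |X| := hj.2.1 hjt
  have h2 : GG ⊤ X = line ⊤ j |X| := GG_eq hj
  have h3 := line_sub ⊤ j |X| (zz (j + 1))
  rw [line_at_left hjt] at h3
  have h4 : 0 ≤ aa ⊤ j * (|X| - zz (j + 1)) := mul_nonneg (aa_nonneg _ _) (by linarith)
  have hz := zz_pos (j + 1)
  have h5 := le_FF_sub ⊤ (k := j + 1) (X := 7 / 8 * zz (j + 1)) (X' := zz (j + 1)) (by omega) le_rfl
    (by linarith)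
  have h6 : 0 < cc ⊤ (j + 1) := cc_pos le_top
  have h7 : 0 < cc ⊤ (j + 1) * (zz (j + 1) - 7 / 8 * zz (j + 1)) := mul_pos h6 (by linarith)
  have h8 := FF_zero_le ⊤ (7 / 8 * zz (j + 1))
  linarith

/-- The vertices converge to `x` and are almost on the horizontal axis. -/
theorem vertex_top_small {ε : ℝ} (hε : 0 < ε) :
    ∃ k₀ : ℕ, ∀ k, k₀ ≤ k → FF ⊤ (zz k) - FF ⊤ 0 ≤ ε * zz k := by
  obtain ⟨r, hr, hF⟩ := FF_top_small hε
  obtain ⟨k₀, hk₀⟩ := eventually_atTop.1 (zz_tendsto.eventually (gt_mem_nhds hr))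
  refine ⟨k₀, fun k hk => ?_⟩
  have h1 := zz_pos k
  have h2 := hF (zz k) (by rw [abs_of_pos h1]; exact hk₀ k hk)
  rwa [abs_of_pos h1] at h2

end Pool.Agent.W_MP_654ec6
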