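import Pool.Agent.W_MP_654ec6.C.MetC

/-!
# Task C13: the transitions between the ambient patches, and the symmetry `τ`

`thC N i j ε u` is the point of the patch `j` over `(ε pX u, pY u)` with `ξ` replaced by `ε ξ`
(`ε = 1`: the same point; `ε = -1`: its image under `τ`). By `pX_mk4, pY_mk4, n3_mk4` (with
`sc > 0` by `sc_pos` and `GG_neg`) its coordinates are as stated; smoothness from
`contDiffAt_pX, contDiffAt_pY, contDiffAt_n3`; the isometry from `qf_gC_comp` applied to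
`θ = thC N i j ε` and to `θ = id` (`bb_neg`).
-/

open scoped ContDiff Topology
open Filter Real

namespace Pool.Agent.W_MP_654ec6

/-- The transition from the patch `i` to the patch `j` (composed with `τ` if `ε = -1`). -/
noncomputable def thC (N : ℕ∞) (i j : ℕ) (ε : ℝ) (u : E4) : E4 :=
  mk4 (lc N j (ε * pX N i u) (pY N i u)) (sc N j (ε * pX N i u) (pY N i u))
    ![ε * u 1 / n3 u, ε * u 2 / n3 u, ε * u 3 / n3 u]

section

variable {R : ℝ} {N : ℕ∞} {i j : ℕ} {ε : ℝ} {u : E4}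

theorem GG_eps (hε : ε = 1 ∨ ε = -1) (X : ℝ) : GG N (ε * X) = GG N X := by
  rcases hε with rfl | rfl
  · rw [one_mul]
  · rw [neg_one_mul, GG_neg]

theorem transC_eps_sq (hε : ε = 1 ∨ ε = -1) : ε ^ 2 = 1 := by
  rcases hε with rfl | rfl <;> norm_num

/-- The data of `thC` at a point. -/
theorem transC_data (hi : (i : ℕ∞) ≤ N) (hj : (j : ℕ∞) ≤ N)
    (hε : ε = 1 ∨ ε = -1) (h : GG N (pX N i u) < pY N i u) :
    0 < n3 u ∧ 0 < sc N j (ε * pX N i u) (pY N i u) ∧
      (ε * u 1 / n3 u) ^ 2 + (ε * u 2 / n3 u) ^ 2 + (ε * u 3 / n3 u) ^ 2 = 1 := by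
  have h1 := n3_pos hi h
  refine ⟨h1, sc_pos hj (by rwa [GG_eps hε]), ?_⟩
  have h2 := n3_sq u
  have h3 := transC_eps_sq hε
  have e : (ε * u 1 / n3 u) ^ 2 + (ε * u 2 / n3 u) ^ 2 + (ε * u 3 / n3 u) ^ 2 =
      ε ^ 2 * (u 1 ^ 2 + u 2 ^ 2 + u 3 ^ 2) / n3 u ^ 2 := by
    field_simp
  rw [e, h3, ← h2, one_mul]
  exact div_self (by positivity)

theorem transC_mk4_succ (l s : ℝ) (ξ : Fin 3 → ℝ) (k : Fin 3) : mk4 l s ξ k.succ = s * ξ k := by
  fin_cases k <;> rfl

theorem transC_vec (a b c : ℝ) : (![a, b, c] : Fin 3 → ℝ) 0 = a ∧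
    (![a, b, c] : Fin 3 → ℝ) 1 = b ∧ (![a, b, c] : Fin 3 → ℝ) 2 = c := ⟨rfl, rfl, rfl⟩

theorem transC_n3 (hi : (i : ℕ∞) ≤ N) (hj : (j : ℕ∞) ≤ N)
    (hε : ε = 1 ∨ ε = -1) (h : GG N (pX N i u) < pY N i u) :
    n3 (thC N i j ε u) = sc N j (ε * pX N i u) (pY N i u) := by
  obtain ⟨h1, h2, h3⟩ := transC_data hi hj hε h
  unfold thC
  exact n3_mk4 _ h2.le h3

theorem transC_xi (hi : (i : ℕ∞) ≤ N) (hj : (j : ℕ∞) ≤ N)
    (hε : ε = 1 ∨ ε = -1) (h : GG N (pX N i u) < pY N i u) (k : Fin 3) :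
    thC N i j ε u k.succ / n3 (thC N i j ε u) = ε * (u k.succ / n3 u) := by
  obtain ⟨h1, h2, h3⟩ := transC_data hi hj hε h
  rw [transC_n3 hi hj hε h]
  unfold thC
  rw [transC_mk4_succ, mul_div_cancel_left₀ _ h2.ne']
  fin_cases k
  · exact mul_div_assoc _ _ _
  · exact mul_div_assoc _ _ _
  · exact mul_div_assoc _ _ _

theorem thC_coord (hN : 1 ≤ N) (hi : (i : ℕ∞) ≤ N) (hj : (j : ℕ∞) ≤ N)
    (hε : ε = 1 ∨ ε = -1) (h : GG N (pX N i u) < pY N i u) :
    pX N j (thC N i j ε u) = ε * pX N i u ∧ pY N j (thC N i j ε u) = pY N i u ∧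
      0 < n3 (thC N i j ε u) ∧ thC N i j ε u ∈ VC N j ∧
      ∀ k : Fin 3, thC N i j ε u k.succ / n3 (thC N i j ε u) = ε * (u k.succ / n3 u) := by
  obtain ⟨h1, h2, h3⟩ := transC_data hi hj hε h
  have hX : pX N j (thC N i j ε u) = ε * pX N i u := by
    unfold thC
    exact pX_mk4 N j h2.le h3
  have hY : pY N j (thC N i j ε u) = pY N i u := by
    unfold thC
    exact pY_mk4 N j h2.le h3
  refine ⟨hX, hY, ?_, ?_, transC_xi hi hj hε h⟩
  · rw [transC_n3 hi hj hε h]
    exact h2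
  · left
    rw [hX, hY, GG_eps hε]
    exact h

theorem transC_contDiffAt (hi : (i : ℕ∞) ≤ N) (h : GG N (pX N i u) < pY N i u) :
    ContDiffAt ℝ ∞ (thC N i j ε) u := by
  have h1 : n3 u ≠ 0 := (n3_pos hi h).ne'
  have hX := contDiffAt_pX N i h1
  have hY := contDiffAt_pY N i h1
  have hn := contDiffAt_n3 h1
  have hu : ∀ k : Fin 4, ContDiffAt ℝ ∞ (fun w : E4 => w k) u := fun k => by fun_prop
  have hl : ContDiffAt ℝ ∞ (fun w : E4 => lc N j (ε * pX N i w) (pY N i w)) u := by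
    unfold lc
    fun_prop
  have hs : ContDiffAt ℝ ∞ (fun w : E4 => sc N j (ε * pX N i w) (pY N i w)) u := by
    unfold sc
    fun_prop
  have hq : ∀ k : Fin 4, ContDiffAt ℝ ∞ (fun w : E4 => ε * w k / n3 w) u := fun k =>
    (contDiffAt_const.mul (hu k)).div hn h1
  rw [contDiffAt_euclidean]
  intro k
  fin_cases k
  · exact hl
  · exact hs.mul (hq 1)
  · exact hs.mul (hq 2)
  · exact hs.mul (hq 3)

theorem transC_open (hN : 1 ≤ N) (h : GG N (pX N i u) < pY N i u) :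
    ∀ᶠ y in 𝓝 u, GG N (pX N i y) < pY N i y :=
  ((GG_continuous N hN).comp (continuous_pX N i)).continuousAt.eventually_lt
    (continuous_pY N i).continuousAt h

theorem isoAt_thC (hR : 0 < R) (hR' : R ≤ 1 / 8) (hN : 1 ≤ N) (hi : (i : ℕ∞) ≤ N)
    (hj : (j : ℕ∞) ≤ N) (hε : ε = 1 ∨ ε = -1) (h : GG N (pX N i u) < pY N i u) :
    IsoAt (gC R N i) (gC R N j) (thC N i j ε) u := by
  refine ⟨transC_contDiffAt hi h, ?_⟩
  filter_upwards [eventually_eventually_nhds.2 (transC_open hN h)] with y hy v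
  have hy0 := hy.self_of_nhds
  have hc := fun (w : E4) (hw : GG N (pX N i w) < pY N i w) => thC_coord hN hi hj hε hw
  have hd : DifferentiableAt ℝ (thC N i j ε) y :=
    (transC_contDiffAt hi hy0).differentiableAt (by simp)
  have hn1 : n3 (thC N i j ε y) ≠ 0 := (hc y hy0).2.2.1.ne'
  have hn2 : n3 y ≠ 0 := (n3_pos hi hy0).ne'
  have e2 := qf_gC_comp R N i (θ := fun w => w) (x := y) differentiableAt_id hn2 v
  rw [qf_gC_comp R N j hd hn1 v]
  have e3 : fderiv ℝ (fun w : E4 => w) y v = v := by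
    rw [fderiv_fun_id]
    rfl
  rw [e3] at e2
  rw [e2]
  have hsq := transC_eps_sq hε
  -- the coordinates
  have hX : fderiv ℝ (fun w => pX N j (thC N i j ε w)) y v = ε * fderiv ℝ (fun w => pX N i w) y v := by
    have h1 : (fun w => pX N j (thC N i j ε w)) =ᶠ[𝓝 y] fun w => ε * pX N i w :=
      hy.mono fun w hw => (hc w hw).1
    rw [h1.fderiv_eq, fderiv_const_mul ((contDiffAt_pX N i hn2).differentiableAt (by simp))]
    rfl
  have hY : fderiv ℝ (fun w => pY N j (thC N i j ε w)) y v = fderiv ℝ (fun w => pY N i w) y v := by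
    have h1 : (fun w => pY N j (thC N i j ε w)) =ᶠ[𝓝 y] fun w => pY N i w :=
      hy.mono fun w hw => (hc w hw).2.1
    rw [h1.fderiv_eq]
  have hξ : ∀ k : Fin 3, fderiv ℝ (fun w => thC N i j ε w k.succ / n3 (thC N i j ε w)) y v =
      ε * fderiv ℝ (fun w : E4 => w k.succ / n3 w) y v := by
    intro k
    have h1 : (fun w => thC N i j ε w k.succ / n3 (thC N i j ε w)) =ᶠ[𝓝 y]
        fun w => ε * (w k.succ / n3 w) := hy.mono fun w hw => (hc w hw).2.2.2.2 k
    have h2 : DifferentiableAt ℝ (fun w : E4 => w k.succ / n3 w) y := by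
      have h3 : ContDiffAt ℝ ∞ (fun w : E4 => w k.succ) y := by fun_prop
      exact (h3.div (contDiffAt_n3 hn2) hn2).differentiableAt (by simp)
    rw [h1.fderiv_eq, fderiv_const_mul h2]
    rfl
  have hξ0 := hξ 0
  have hξ1 := hξ 1
  have hξ2 := hξ 2
  have i0 : (0 : Fin 3).succ = 1 := rfl
  have i1 : (1 : Fin 3).succ = 2 := rfl
  have i2 : (2 : Fin 3).succ = 3 := rfl
  rw [i0] at hξ0
  rw [i1] at hξ1
  rw [i2] at hξ2
  have hb : bb R N (pX N j (thC N i j ε y)) (pY N j (thC N i j ε y)) =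
      bb R N (pX N i y) (pY N i y) := by
    rw [(hc y hy0).1, (hc y hy0).2.1]
    rcases hε with rfl | rfl
    · rw [one_mul]
    · rw [neg_one_mul, bb_neg]
  rw [hX, hY, hξ0, hξ1, hξ2, hb, mul_pow, mul_pow, mul_pow, mul_pow, hsq]
  simp only [one_mul]

/-- A point of the patch `j` over the same point of the half plane and with the same direction is
the image under `thC`. -/
theorem thC_unique (hi : (i : ℕ∞) ≤ N) (hj : (j : ℕ∞) ≤ N) (hε : ε = 1 ∨ ε = -1) {u' : E4}
    (h : GG N (pX N i u) < pY N i u) (hX : pX N j u' = ε * pX N i u) (hY : pY N j u' = pY N i u)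
    (hξ : ∀ k : Fin 3, u' k.succ / n3 u' = ε * (u k.succ / n3 u)) : u' = thC N i j ε u := by
  obtain ⟨h1, h2, h3⟩ := transC_data hi hj hε h
  have hs : n3 u' = sc N j (ε * pX N i u) (pY N i u) := by rw [← hX, ← hY, sc_p]
  have hl : u' 0 = lc N j (ε * pX N i u) (pY N i u) := by rw [← hX, ← hY, lc_p]
  have hn : 0 < n3 u' := by rw [hs]; exact h2
  have hk : ∀ k : Fin 3, u' k.succ = n3 u' * (ε * u k.succ / n3 u) := by
    intro k
    have := hξ k
    rw [div_eq_iff hn.ne'] at this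
    rw [this]
    ring
  have hk0 := hk 0
  have hk1 := hk 1
  have hk2 := hk 2
  ext k
  unfold thC mk4
  rw [← hs, ← hl]
  fin_cases k
  · rfl
  · exact hk0
  · exact hk1
  · exact hk2

theorem transC_mid {n : ℕ} : aa n n = 0 ∧ OX n n = 0 ∧ oj n n = 1 := by
  have h0 : ¬ ((n : ℕ∞) < (n : ℕ∞)) := lt_irrefl _
  have h1 : aa n n = 0 := aa_of_not_lt h0
  refine ⟨h1, ?_, ?_⟩
  · unfold OX
    rw [if_neg h0]
  · unfold oj
    rw [h1]
    simp

/-- The symmetry on the middle patch. -/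
theorem mid_neg {n : ℕ} (hn : 1 ≤ n) (u : E4) : pX n n (-u) = -pX n n u ∧
    pY n n (-u) = pY n n u ∧ (u ∈ VC n n → -u ∈ VC n n) := by
  obtain ⟨h1, h2, h3⟩ := transC_mid (n := n)
  have hX : pX n n (-u) = -pX n n u := by
    unfold pX
    rw [h1, h2, h3, n3_neg]
    simp
  have hY : pY n n (-u) = pY n n u := by
    unfold pY
    rw [h1, h3, n3_neg]
    simp
  refine ⟨hX, hY, ?_⟩
  rintro (h | ⟨h0, h⟩)
  · left
    rw [hX, hY, GG_neg]
    exact h
  · right
    refine ⟨by rw [n3_neg]; exact h0, ?_⟩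
    rw [hX]
    obtain ⟨a, b, c, d⟩ := h
    have h0 : ¬ ((n : ℕ∞) < (n : ℕ∞)) := lt_irrefl _
    refine ⟨a, fun h5 => absurd h5 h0, fun _ => ?_, Or.inr ?_⟩
    · have := d.resolve_left (by omega)
      linarith
    · have := c h0
      linarith

theorem isoAt_mid_neg (hR : 0 < R) (hR' : R ≤ 1 / 8) {n : ℕ} (hn : 1 ≤ n) {u : E4}
    (h : u ∈ VC n n) : IsoAt (gC R n n) (gC R n n) (fun u => -u) u := by
  refine ⟨contDiff_neg.contDiffAt, Filter.Eventually.of_forall fun y v => ?_⟩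
  have e : fderiv ℝ (fun u : E4 => -u) y v = -v := by
    rw [fderiv_fun_neg, fderiv_fun_id]
    rfl
  rw [e]
  obtain ⟨h1, h2, -⟩ := mid_neg hn y
  by_cases h0 : n3 y = 0
  · rw [qf_gC_zero R n n (by rw [n3_neg]; exact h0), qf_gC_zero R n n h0]
    simp
  · rw [qf_gC R n n (by rw [n3_neg]; exact h0), qf_gC R n n h0, h1, h2, bb_neg, n3_neg]
    simp

/-- A point of an open edge `i` is in the patch `j` only if `i = j` (or, mirrored, `i = j = N`). -/
theorem edge_only (hN : 1 ≤ N) (hi : (i : ℕ∞) ≤ N) (hj : (j : ℕ∞) ≤ N) (hε : ε = 1 ∨ ε = -1)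
    {u u' : E4} (hu : u ∈ VC N i) (h0 : n3 u = 0) (hu' : u' ∈ VC N j)
    (hX : pX N j u' = ε * pX N i u) (hY : pY N j u' = pY N i u) :
    i = j ∧ n3 u' = 0 ∧ u' 0 = ε * u 0 ∧ (ε = 1 ∨ (i : ℕ∞) = N) := by
  have o1 : opEdge N i (pX N i u) := by
    rcases hu with h | ⟨-, h⟩
    · exact absurd (n3_pos hi h) (by rw [h0]; exact lt_irrefl _)
    · exact h
  have e1 : pY N i u = GG N (pX N i u) := by
    rw [GG_eq_of_opEdge o1, pY_of_n3_zero N i h0]
  obtain ⟨h0', o2⟩ : n3 u' = 0 ∧ opEdge N j (pX N j u') := by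
    rcases hu' with h | h
    · exfalso
      rw [hX, GG_eps hε, hY, e1] at h
      exact lt_irrefl _ h
    · exact h
  rw [hX] at o2
  obtain ⟨X, hXe⟩ : ∃ X, pX N i u = X := ⟨_, rfl⟩
  rw [hXe] at o1 o2
  obtain ⟨-, a2, a3, a4⟩ := o1
  obtain ⟨-, b2, b3, b4⟩ := o2
  have hlt : ∀ {k l : ℕ}, k < l → (l : ℕ∞) ≤ N → (k : ℕ∞) < N := fun {k l} hkl hl =>
    lt_of_lt_of_le (by exact_mod_cast hkl) hl
  have hij : i = j ∧ (ε = 1 ∨ (i : ℕ∞) = N) := by
    rcases hε with rfl | rfl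
    · refine ⟨?_, Or.inl rfl⟩
      rw [one_mul] at b2 b3 b4
      rcases lt_trichotomy i j with hl | hl | hl
      · exfalso
        have c1 := a2 (hlt hl hj)
        have c2 := b4.resolve_left (by omega)
        have c3 := zz_anti (show i + 1 ≤ j by omega)
        linarith
      · exact hl
      · exfalso
        have c1 := b2 (hlt hl hi)
        have c2 := a4.resolve_left (by omega)
        have c3 := zz_anti (show j + 1 ≤ i by omega)
        linarith
    · rw [neg_one_mul] at b2 b3 b4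
      have hiN : ¬ (i : ℕ∞) < N := by
        intro hlt1
        have c1 := a2 hlt1
        have c2 := zz_pos (i + 1)
        by_cases hjN : (j : ℕ∞) < N
        · have c3 := b2 hjN
          have c4 := zz_pos (j + 1)
          linarith
        · have c3 := b3 hjN
          have c5 : i < j := by
            by_contra hc
            push Not at hc
            exact hjN (lt_of_le_of_lt (by exact_mod_cast hc) hlt1)
          have c4 := zz_anti (show i + 1 ≤ j by omega)
          linarith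
      have hjN : ¬ (j : ℕ∞) < N := by
        intro hlt1
        have c1 := b2 hlt1
        have c2 := zz_pos (j + 1)
        have c3 := a3 hiN
        have c5 : j < i := by
          by_contra hc
          push Not at hc
          exact hiN (lt_of_le_of_lt (by exact_mod_cast hc) hlt1)
        have c4 := zz_anti (show j + 1 ≤ i by omega)
        linarith
      have d1 : (i : ℕ∞) = N := le_antisymm hi (not_lt.1 hiN)
      have d2 : (j : ℕ∞) = N := le_antisymm hj (not_lt.1 hjN)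
      exact ⟨by exact_mod_cast d1.trans d2.symm, Or.inr d1⟩
  obtain ⟨hij1, hij2⟩ := hij
  refine ⟨hij1, h0', ?_, hij2⟩
  subst hij1
  have l1 := lc_p N i u'
  have l2 := lc_p N i u
  rw [hX, hY] at l1
  rw [← l1, ← l2]
  rcases hε with rfl | rfl
  · rw [one_mul, one_mul]
  · have hiN : (i : ℕ∞) = N := hij2.resolve_left (by norm_num)
    have hi0 : ¬ (i : ℕ∞) < N := not_lt.2 hiN.ge
    unfold lc
    have z1 : aa N i = 0 := aa_of_not_lt hi0
    have z2 : OX N i = 0 := by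
      unfold OX
      rw [if_neg hi0]
    rw [z1, z2]
    ring

end

end Pool.Agent.W_MP_654ec6
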