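import Pool.Agent.W_MP_654ec6.C.BFun

/-!
# Task C14: the ambient space near a vertex

Near the vertex `x_k = (zz k, FF N (zz k))` (`1 ≤ k ≤ N`), in the disk of radius `zz k / 8`, `FF` is
affine with slope `cc N k` (`FF_vertex`), `GG` has the slopes `aa N (k - 1)` (right, `GG_right`) and
`aa N k` (left, `GG_left`). So in polar coordinates `X = zz k + r cos φ`, `Y = FF (zz k) + r sin φ`:
`Y - FF X = r (sin φ - c cos φ)`, `Y - GG X = r (sin φ - a cos φ)` with `a` the slope of the side,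
and `bb = r linkf` by `mm_smul`; for `φ ≠ π/2` the factor `om` is `√(1 + a²)` (`om_eq`), for
`φ = π/2` both sides are `R r` (`mm_eq_right`, `bb_eq_RD`).
`sin φ - a cos φ > 0` iff `φ > arctan a` for `φ ∈ (-π/2, π/2]`, and iff `φ < π + arctan a` for
`φ ∈ [π/2, 3π/2)`.
-/

open scoped ContDiff Topology
open Filter Real

namespace Pool.Agent.W_MP_654ec6

section

variable {R : ℝ} {N : ℕ∞} {k : ℕ}

theorem vertex_pred (hk : 1 ≤ k) (hkN : (k : ℕ∞) ≤ N) : ((k - 1 : ℕ) : ℕ∞) < N := by
  refine lt_of_lt_of_le ?_ hkN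
  exact_mod_cast (by omega : k - 1 < k)

theorem vertex_slopes (hk : 1 ≤ k) (hkN : (k : ℕ∞) ≤ N) :
    0 ≤ aa N k ∧ aa N k < cc N k ∧ cc N k < aa N (k - 1) ∧ aa N (k - 1) ≤ 1 / 10 := by
  refine ⟨aa_nonneg N k, aa_lt hkN, ?_, aa_le N (k - 1)⟩
  have h := lt_aa (vertex_pred hk hkN)
  rwa [show k - 1 + 1 = k by omega] at h

theorem vertex_lt_iff {a φ : ℝ} (h1 : -(π / 2) < φ) (h2 : φ < π / 2) :
    a * Real.cos φ < Real.sin φ ↔ Real.arctan a < φ := by
  have hc : 0 < Real.cos φ := Real.cos_pos_of_mem_Ioo ⟨h1, h2⟩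
  have h3 : Real.arctan (Real.tan φ) = φ := Real.arctan_tan h1 h2
  conv_rhs => rw [← h3]
  rw [Real.arctan_lt_arctan_iff, Real.tan_eq_sin_div_cos, lt_div_iff₀ hc]

theorem vertex_gt_iff {a φ : ℝ} (h1 : -(π / 2) < φ) (h2 : φ < π / 2) :
    Real.sin φ < a * Real.cos φ ↔ φ < Real.arctan a := by
  have hc : 0 < Real.cos φ := Real.cos_pos_of_mem_Ioo ⟨h1, h2⟩
  have h3 : Real.arctan (Real.tan φ) = φ := Real.arctan_tan h1 h2
  conv_rhs => rw [← h3]
  rw [Real.arctan_lt_arctan_iff, Real.tan_eq_sin_div_cos, div_lt_iff₀ hc]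

theorem vertex_abs_le {r φ : ℝ} (hr : 0 < r) (hr' : r ≤ zz k / 8) :
    |r * Real.cos φ| ≤ zz k / 8 := by
  rw [abs_mul, abs_of_pos hr]
  have := Real.abs_cos_le_one φ
  nlinarith

theorem vertex_GG_right (hk : 1 ≤ k) (hkN : (k : ℕ∞) ≤ N) {r φ : ℝ} (hr : 0 < r)
    (hr' : r ≤ zz k / 8) (hc : 0 ≤ Real.cos φ) :
    GG N (zz k + r * Real.cos φ) = FF N (zz k) + aa N (k - 1) * (r * Real.cos φ) := by
  have h1 := abs_le.1 (vertex_abs_le (φ := φ) hr hr')
  have h2 : 0 ≤ r * Real.cos φ := by positivity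
  rw [GG_right hk hkN (by linarith) (by linarith [h1.2])]
  ring

theorem vertex_GG_left (hk : 1 ≤ k) (hkN : (k : ℕ∞) ≤ N) {r φ : ℝ} (hr : 0 < r)
    (hr' : r ≤ zz k / 8) (hc : Real.cos φ ≤ 0) :
    GG N (zz k + r * Real.cos φ) = FF N (zz k) + aa N k * (r * Real.cos φ) := by
  have h1 := abs_le.1 (vertex_abs_le (φ := φ) hr hr')
  have h2 : r * Real.cos φ ≤ 0 := mul_nonpos_of_nonneg_of_nonpos hr.le hc
  rw [GG_left hk hkN (by linarith [h1.1]) (by linarith)]
  ring

theorem vertex_mem (hk : 1 ≤ k) (hkN : (k : ℕ∞) ≤ N) {r φ : ℝ} (hr : 0 < r)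
    (hr' : r ≤ zz k / 8) (h1 : -(π / 2) < φ) (h2 : φ < 3 * π / 2) :
    GG N (zz k + r * Real.cos φ) < FF N (zz k) + r * Real.sin φ ↔
      Real.arctan (aa N (k - 1)) < φ ∧ φ < π + Real.arctan (aa N k) := by
  have hpi := Real.pi_pos
  have ha1 := Real.arctan_lt_pi_div_two (aa N (k - 1))
  have hal : 0 ≤ Real.arctan (aa N k) := Real.arctan_nonneg.2 (aa_nonneg N k)
  rcases lt_trichotomy φ (π / 2) with h | h | h
  · have hc : 0 < Real.cos φ := Real.cos_pos_of_mem_Ioo ⟨h1, h⟩
    rw [vertex_GG_right hk hkN hr hr' hc.le]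
    have h3 : φ < π + Real.arctan (aa N k) := by linarith
    rw [and_iff_left h3, ← vertex_lt_iff h1 h]
    constructor
    · intro h4
      have h5 : r * (aa N (k - 1) * Real.cos φ) < r * Real.sin φ := by linarith
      exact lt_of_mul_lt_mul_left h5 hr.le
    · intro h4
      have h5 : r * (aa N (k - 1) * Real.cos φ) < r * Real.sin φ := mul_lt_mul_of_pos_left h4 hr
      linarith
  · subst h
    have hc : (0 : ℝ) ≤ Real.cos (π / 2) := by rw [Real.cos_pi_div_two]
    rw [vertex_GG_right hk hkN hr hr' hc, Real.cos_pi_div_two, Real.sin_pi_div_two]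
    constructor
    · intro _
      exact ⟨ha1, by linarith⟩
    · intro _
      linarith
  · have h3 : -(π / 2) < φ - π := by linarith
    have h4 : φ - π < π / 2 := by linarith
    have hc : 0 < Real.cos (φ - π) := Real.cos_pos_of_mem_Ioo ⟨h3, h4⟩
    rw [Real.cos_sub_pi] at hc
    rw [vertex_GG_left hk hkN hr hr' (by linarith)]
    have h5 : Real.arctan (aa N (k - 1)) < φ := by linarith
    rw [and_iff_right h5]
    have h6 : φ < π + Real.arctan (aa N k) ↔ φ - π < Real.arctan (aa N k) := by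
      constructor <;> intro h <;> linarith
    rw [h6, ← vertex_gt_iff h3 h4, Real.cos_sub_pi, Real.sin_sub_pi]
    constructor
    · intro h7
      have h8 : r * (aa N k * Real.cos φ) < r * Real.sin φ := by linarith
      have h9 := lt_of_mul_lt_mul_left h8 hr.le
      linarith
    · intro h7
      have h9 : aa N k * Real.cos φ < Real.sin φ := by linarith
      have h8 : r * (aa N k * Real.cos φ) < r * Real.sin φ := mul_lt_mul_of_pos_left h9 hr
      linarith

/-- Angles in `(-π/2, 3π/2)`. -/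
theorem vertex_angle {x y r : ℝ} (hr : 0 < r) (h : x ^ 2 + y ^ 2 = r ^ 2) (hne : ¬ (x = 0 ∧ y < 0)) :
    ∃ φ, -(π / 2) < φ ∧ φ < 3 * π / 2 ∧ x = r * Real.cos φ ∧ y = r * Real.sin φ := by
  have hpi := Real.pi_pos
  set w : ℂ := ⟨x, y⟩ with hw
  have hn : ‖w‖ = r := by
    rw [Complex.norm_def, Complex.normSq_mk]
    rw [show x * x + y * y = r ^ 2 by rw [← h]; ring]
    exact Real.sqrt_sq hr.le
  have hw0 : w ≠ 0 := by
    intro h0
    rw [h0, norm_zero] at hn
    linarith
  have hcos : x = r * Real.cos w.arg := by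
    have := Complex.norm_mul_cos_arg w
    rw [hn] at this
    rw [this]
  have hsin : y = r * Real.sin w.arg := by
    have := Complex.norm_mul_sin_arg w
    rw [hn] at this
    rw [this]
  have hlow := Complex.neg_pi_lt_arg w
  have hupp := Complex.arg_le_pi w
  by_cases h1 : -(π / 2) < w.arg
  · exact ⟨w.arg, h1, by linarith, hcos, hsin⟩
  · refine ⟨w.arg + 2 * π, by linarith, ?_, ?_, ?_⟩
    · rcases (not_lt.1 h1).lt_or_eq with h2 | h2
      · linarith
      · exfalso
        apply hne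
        rw [hcos, hsin, h2, Real.cos_neg, Real.sin_neg, Real.cos_pi_div_two, Real.sin_pi_div_two]
        constructor
        · ring
        · linarith
    · rw [Real.cos_add_two_pi]
      exact hcos
    · rw [Real.sin_add_two_pi]
      exact hsin

/-- Polar coordinates at the vertex. -/
theorem vertex_polar (hk : 1 ≤ k) (hkN : (k : ℕ∞) ≤ N) {X Y r : ℝ} (hr : 0 < r)
    (hr' : r ≤ zz k / 8) (hXY : (X - zz k) ^ 2 + (Y - FF N (zz k)) ^ 2 = r ^ 2)
    (h : GG N X < Y) : ∃ φ, Real.arctan (aa N (k - 1)) < φ ∧ φ < π + Real.arctan (aa N k) ∧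
      X = zz k + r * Real.cos φ ∧ Y = FF N (zz k) + r * Real.sin φ := by
  obtain ⟨φ, h1, h2, h3, h4⟩ := vertex_angle hr hXY (by
    rintro ⟨h5, h6⟩
    have h7 : X = zz k := by linarith
    rw [h7, GG_vertex hk hkN] at h
    linarith)
  have hX : X = zz k + r * Real.cos φ := by linarith
  have hY : Y = FF N (zz k) + r * Real.sin φ := by linarith
  rw [hX, hY, vertex_mem hk hkN hr hr' h1 h2] at h
  exact ⟨φ, h.1, h.2, hX, hY⟩

theorem bb_vertex (hR : 0 < R) (hR' : R ≤ 1 / 8) (hk : 1 ≤ k) (hkN : (k : ℕ∞) ≤ N) {r φ : ℝ}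
    (hr : 0 < r) (hr' : r ≤ zz k / 8) (h1 : Real.arctan (aa N (k - 1)) ≤ φ)
    (h2 : φ ≤ π + Real.arctan (aa N k)) :
    bb R N (zz k + r * Real.cos φ) (FF N (zz k) + r * Real.sin φ) =
      r * linkf R (aa N k) (cc N k) (aa N (k - 1)) φ := by
  have hpi := Real.pi_pos
  have hzk := zz_pos k
  have hN : 1 ≤ N := le_trans (by exact_mod_cast hk) hkN
  have ha0 : 0 ≤ Real.arctan (aa N (k - 1)) := Real.arctan_nonneg.2 (aa_nonneg N _)
  have hal := Real.arctan_lt_pi_div_two (aa N k)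
  have habs := abs_le.1 (vertex_abs_le (φ := φ) hr hr')
  have hFF : FF N (zz k + r * Real.cos φ) = FF N (zz k) + cc N k * (r * Real.cos φ) := by
    rw [FF_vertex N hk (by
      rw [add_sub_cancel_left]
      exact vertex_abs_le hr hr')]
    ring
  have e1 : FF N (zz k) + r * Real.sin φ - FF N (zz k + r * Real.cos φ) =
      r * (Real.sin φ - cc N k * Real.cos φ) := by
    rw [hFF]
    ring
  rcases lt_trichotomy φ (π / 2) with h | h | h
  · have hc : 0 < Real.cos φ := Real.cos_pos_of_mem_Ioo ⟨by linarith, h⟩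
    have hrc : 0 < r * Real.cos φ := by positivity
    have hX0 : 0 ≤ zz k + r * Real.cos φ := by linarith
    have hop : opEdge N (k - 1) |zz k + r * Real.cos φ| := by
      rw [abs_of_nonneg hX0]
      refine ⟨(vertex_pred hk hkN).le, ?_, fun hc => absurd (vertex_pred hk hkN) hc, ?_⟩
      · intro _
        rw [show k - 1 + 1 = k by omega]
        linarith
      · right
        have h3 := zz_succ (k - 1)
        rw [show k - 1 + 1 = k by omega] at h3
        linarith [habs.2]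
    have e2 : FF N (zz k) + r * Real.sin φ - GG N (zz k + r * Real.cos φ) =
        r * (Real.sin φ - aa N (k - 1) * Real.cos φ) := by
      rw [vertex_GG_right hk hkN hr hr' hc.le]
      ring
    unfold bb linkf
    rw [e1, e2, om_eq hop, if_pos h.le, ← mm_smul hr.ne']
    unfold oj
    congr 1
    · ring
    · ring
  · subst h
    rw [Real.cos_pi_div_two, Real.sin_pi_div_two, mul_zero, add_zero, mul_one]
    have hlt : GG N (zz k) < FF N (zz k) + r := by
      rw [GG_vertex hk hkN]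
      linarith
    rw [bb_eq_RD hR hR' hN hlt (by
      rw [GG_vertex hk hkN]
      linarith)]
    unfold linkf
    rw [if_pos le_rfl, Real.cos_pi_div_two, Real.sin_pi_div_two, mul_zero, mul_zero, sub_zero,
      mul_one]
    have hs1 : 1 ≤ Real.sqrt (1 + aa N (k - 1) ^ 2) := one_le_oj N (k - 1)
    have hs2 : Real.sqrt (1 + aa N (k - 1) ^ 2) ≤ 101 / 100 := oj_le N (k - 1)
    rw [mm_eq_right hR (by
      rw [le_div_iff₀ (by linarith)]
      nlinarith)]
    ring
  · have h3 : 0 < Real.cos (φ - π) :=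
      Real.cos_pos_of_mem_Ioo ⟨by linarith, by linarith⟩
    rw [Real.cos_sub_pi] at h3
    have hrc : r * Real.cos φ < 0 := mul_neg_of_pos_of_neg hr (by linarith)
    have hX0 : 0 ≤ zz k + r * Real.cos φ := by linarith [habs.1]
    have hop : opEdge N k |zz k + r * Real.cos φ| := by
      rw [abs_of_nonneg hX0]
      refine ⟨hkN, ?_, ?_, ?_⟩
      · intro _
        rw [zz_succ]
        linarith [habs.1]
      · intro _
        linarith
      · right
        linarith
    have e2 : FF N (zz k) + r * Real.sin φ - GG N (zz k + r * Real.cos φ) =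
        r * (Real.sin φ - aa N k * Real.cos φ) := by
      rw [vertex_GG_left hk hkN hr hr' (by linarith)]
      ring
    unfold bb linkf
    rw [e1, e2, om_eq hop, if_neg (not_le.2 h), ← mm_smul hr.ne']
    unfold oj
    congr 1
    · ring
    · ring

/-- The vertices are far apart: disks of radius `zz k / 8` around different vertices and their
mirror images are disjoint. -/
theorem vertex_disjoint {l : ℕ} (hkl : k ≠ l) {X Y : ℝ}
    (hk : (X - zz k) ^ 2 + (Y - FF N (zz k)) ^ 2 ≤ (zz k / 8) ^ 2) :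
    (zz l / 8) ^ 2 < (X - zz l) ^ 2 + (Y - FF N (zz l)) ^ 2 := by
  have hzk := zz_pos k
  have hzl := zz_pos l
  have h1 : |X - zz k| ≤ zz k / 8 := by
    apply abs_le_of_sq_le_sq _ (by positivity)
    nlinarith [sq_nonneg (Y - FF N (zz k))]
  rw [abs_le] at h1
  suffices h2 : zz l / 8 < |X - zz l| by
    have h3 : (zz l / 8) ^ 2 < |X - zz l| ^ 2 := pow_lt_pow_left₀ h2 (by positivity) two_ne_zero
    rw [sq_abs] at h3
    nlinarith [sq_nonneg (Y - FF N (zz l))]
  rcases lt_or_gt_of_ne hkl with h | h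
  · have h3 : zz l ≤ zz (k + 1) := zz_anti h
    rw [zz_succ] at h3
    have h4 := le_abs_self (X - zz l)
    linarith [h1.1]
  · have h3 : zz k ≤ zz (l + 1) := zz_anti h
    rw [zz_succ] at h3
    have h4 := neg_abs_le (X - zz l)
    linarith [h1.2]

theorem vertex_disjoint_neg {l : ℕ} {X Y : ℝ}
    (hk : (X - zz k) ^ 2 + (Y - FF N (zz k)) ^ 2 ≤ (zz k / 8) ^ 2) :
    (zz l / 8) ^ 2 < (X + zz l) ^ 2 + (Y - FF N (zz l)) ^ 2 := by
  have hzk := zz_pos k
  have hzl := zz_pos l
  have h1 : |X - zz k| ≤ zz k / 8 := by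
    apply abs_le_of_sq_le_sq _ (by positivity)
    nlinarith [sq_nonneg (Y - FF N (zz k))]
  rw [abs_le] at h1
  have h2 : zz l / 8 < X + zz l := by linarith [h1.1]
  have h3 : (zz l / 8) ^ 2 < (X + zz l) ^ 2 := pow_lt_pow_left₀ h2 (by positivity) two_ne_zero
  nlinarith [sq_nonneg (Y - FF N (zz l))]

end

end Pool.Agent.W_MP_654ec6
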